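import Mathlib

/-!
# MP_418077_nt, pairs with a root of bounded degree: the derivative at a root of a close pair
-/

set_option autoImplicit false

namespace Pool.Agent.Helper41.RS

open Polynomial Finset

lemma pow_taylor (a b : ℂ) {ρ : ℝ} (hρ : 1 ≤ ρ) (ha : ‖a‖ ≤ ρ) (hb : ‖b‖ ≤ ρ) (j : ℕ) :
    ‖b ^ j - a ^ j - j * a ^ (j - 1) * (b - a)‖ ≤ (j : ℝ) ^ 2 * ρ ^ (j - 1) * ‖b - a‖ ^ 2 := by
  induction j with
  | zero => simp
  | succ j ih =>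
    rcases Nat.eq_zero_or_pos j with rfl | hj
    · simp
    · obtain ⟨i, rfl⟩ : ∃ i, j = i + 1 := ⟨j - 1, by omega⟩
      simp only [Nat.add_sub_cancel] at ih ⊢
      have h1 : b ^ (i + 1 + 1) - a ^ (i + 1 + 1) - ((i + 1 + 1 : ℕ) : ℂ) * a ^ (i + 1) * (b - a) =
          b * (b ^ (i + 1) - a ^ (i + 1) - ((i + 1 : ℕ) : ℂ) * a ^ i * (b - a)) +
          ((i + 1 : ℕ) : ℂ) * a ^ i * (b - a) ^ 2 := by
        push_cast
        ring
      rw [h1]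
      refine (norm_add_le _ _).trans ?_
      rw [norm_mul, norm_mul, norm_mul, norm_pow, norm_pow, Complex.norm_natCast]
      have h2 : ‖a‖ ^ i ≤ ρ ^ i := pow_le_pow_left₀ (norm_nonneg _) ha i
      have h3 : ρ ^ i ≤ ρ ^ (i + 1) := pow_le_pow_right₀ hρ (by omega)
      have h4 : (0 : ℝ) < ρ ^ i := by positivity
      have h5 : ‖b‖ * ‖b ^ (i + 1) - a ^ (i + 1) - ((i + 1 : ℕ) : ℂ) * a ^ i * (b - a)‖ ≤
          ρ * (((i + 1 : ℕ) : ℝ) ^ 2 * ρ ^ i * ‖b - a‖ ^ 2) :=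
        mul_le_mul hb ih (norm_nonneg _) (by linarith)
      have h6 : ((i + 1 : ℕ) : ℝ) * ‖a‖ ^ i * ‖b - a‖ ^ 2 ≤
          ((i + 1 : ℕ) : ℝ) * ρ ^ (i + 1) * ‖b - a‖ ^ 2 := by
        gcongr
        exact h2.trans h3
      refine (add_le_add h5 h6).trans ?_
      have h7 : ρ * (((i + 1 : ℕ) : ℝ) ^ 2 * ρ ^ i * ‖b - a‖ ^ 2) =
          ((i + 1 : ℕ) : ℝ) ^ 2 * ρ ^ (i + 1) * ‖b - a‖ ^ 2 := by ring
      rw [h7, ← add_mul, ← add_mul]
      gcongr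
      push_cast
      nlinarith [(Nat.cast_nonneg i : (0 : ℝ) ≤ i)]

lemma sum_sq_le (n : ℕ) (hn : 1 ≤ n) : ∑ j ∈ range (n + 1), (j : ℝ) ^ 2 ≤ (n : ℝ) ^ 3 := by
  induction n with
  | zero => omega
  | succ n ih =>
    rcases Nat.eq_zero_or_pos n with rfl | h
    · simp [Finset.sum_range_succ]
    · rw [Finset.sum_range_succ]
      have h1 := ih h
      push_cast
      have h2 : (1 : ℝ) ≤ n := by exact_mod_cast h
      nlinarith

lemma sum_id_le (n : ℕ) : ∑ j ∈ range (n + 1), (j : ℝ) ≤ (n : ℝ) ^ 2 := by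
  induction n with
  | zero => simp
  | succ n ih =>
    rw [Finset.sum_range_succ]
    push_cast
    nlinarith [(Nat.cast_nonneg n : (0 : ℝ) ≤ n)]

lemma eval_eq_range (p : ℂ[X]) (n : ℕ) (hn : p.natDegree ≤ n) (z : ℂ) :
    p.eval z = ∑ j ∈ range (n + 1), p.coeff j * z ^ j :=
  eval_eq_sum_range' (by omega) z

lemma deriv_eq_range (p : ℂ[X]) (n : ℕ) (hn : p.natDegree ≤ n) (z : ℂ) :
    p.derivative.eval z = ∑ j ∈ range (n + 1), p.coeff j * (j * z ^ (j - 1)) := by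
  rw [derivative_eval, sum_over_range' _ (fun i => by ring) (n + 1) (by omega)]
  exact Finset.sum_congr rfl fun j _ => by ring

/-- The derivative at a point. -/
lemma deriv_le (p : ℂ[X]) (n : ℕ) (hn : p.natDegree ≤ n) {H : ℝ} (hH : ∀ i, ‖p.coeff i‖ ≤ H)
    (z : ℂ) {ρ : ℝ} (hρ : 1 ≤ ρ) (hz : ‖z‖ ≤ ρ) :
    ‖p.derivative.eval z‖ ≤ H * (n : ℝ) ^ 2 * ρ ^ (n - 1) := by
  have hH0 : 0 ≤ H := (norm_nonneg _).trans (hH 0)
  rw [deriv_eq_range p n hn]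
  have h1 : ∀ j ∈ range (n + 1), ‖p.coeff j * (j * z ^ (j - 1))‖ ≤ H * ρ ^ (n - 1) * j := by
    intro j hj
    rw [mem_range] at hj
    rw [norm_mul, norm_mul, norm_pow, Complex.norm_natCast]
    have h2 : ‖z‖ ^ (j - 1) ≤ ρ ^ (n - 1) :=
      (pow_le_pow_left₀ (norm_nonneg _) hz _).trans (pow_le_pow_right₀ hρ (by omega))
    calc ‖p.coeff j‖ * ((j : ℝ) * ‖z‖ ^ (j - 1)) ≤ H * ((j : ℝ) * ρ ^ (n - 1)) := by
          gcongr
          exact hH j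
      _ = H * ρ ^ (n - 1) * j := by ring
  refine (norm_sum_le_of_le _ h1).trans ?_
  rw [← Finset.mul_sum]
  have h3 := sum_id_le n
  have h4 : 0 ≤ H * ρ ^ (n - 1) := by positivity
  nlinarith

/-- The derivative at a root with another root nearby. -/
lemma deriv_le_dist (p : ℂ[X]) (n : ℕ) (hn1 : 1 ≤ n) (hn : p.natDegree ≤ n) {H : ℝ}
    (hH : ∀ i, ‖p.coeff i‖ ≤ H) {a b : ℂ} (ha : p.eval a = 0) (hb : p.eval b = 0) (hab : a ≠ b)
    {ρ : ℝ} (hρ : 1 ≤ ρ) (hza : ‖a‖ ≤ ρ) (hzb : ‖b‖ ≤ ρ) :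
    ‖p.derivative.eval a‖ ≤ H * (n : ℝ) ^ 3 * ρ ^ (n - 1) * ‖a - b‖ := by
  have hH0 : 0 ≤ H := (norm_nonneg _).trans (hH 0)
  have hr : 0 < ‖b - a‖ := norm_pos_iff.2 (sub_ne_zero.2 hab.symm)
  have h0 : p.derivative.eval a * (b - a) =
      -∑ j ∈ range (n + 1), p.coeff j * (b ^ j - a ^ j - j * a ^ (j - 1) * (b - a)) := by
    have h1 := ha
    have h2 := hb
    rw [eval_eq_range p n hn] at h1 h2
    rw [deriv_eq_range p n hn]
    have h3 : ∑ j ∈ range (n + 1), p.coeff j * (b ^ j - a ^ j - j * a ^ (j - 1) * (b - a)) =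
        ∑ j ∈ range (n + 1), p.coeff j * b ^ j - ∑ j ∈ range (n + 1), p.coeff j * a ^ j -
        (∑ j ∈ range (n + 1), p.coeff j * (j * a ^ (j - 1))) * (b - a) := by
      rw [Finset.sum_mul, ← Finset.sum_sub_distrib, ← Finset.sum_sub_distrib]
      exact Finset.sum_congr rfl fun j _ => by ring
    rw [h3, h1, h2]
    ring
  have h1 : ∀ j ∈ range (n + 1), ‖p.coeff j * (b ^ j - a ^ j - j * a ^ (j - 1) * (b - a))‖ ≤
      H * ρ ^ (n - 1) * ‖b - a‖ ^ 2 * (j : ℝ) ^ 2 := by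
    intro j hj
    rw [mem_range] at hj
    rw [norm_mul]
    have h2 := pow_taylor a b hρ hza hzb j
    have h3 : ρ ^ (j - 1) ≤ ρ ^ (n - 1) := pow_le_pow_right₀ hρ (by omega)
    calc ‖p.coeff j‖ * ‖b ^ j - a ^ j - j * a ^ (j - 1) * (b - a)‖ ≤
          H * ((j : ℝ) ^ 2 * ρ ^ (n - 1) * ‖b - a‖ ^ 2) := by
          refine mul_le_mul (hH j) (h2.trans ?_) (norm_nonneg _) hH0
          gcongr
      _ = H * ρ ^ (n - 1) * ‖b - a‖ ^ 2 * (j : ℝ) ^ 2 := by ring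
  have h2 : ‖p.derivative.eval a‖ * ‖b - a‖ ≤
      H * ρ ^ (n - 1) * ‖b - a‖ ^ 2 * (n : ℝ) ^ 3 := by
    rw [← norm_mul, h0, norm_neg]
    refine (norm_sum_le_of_le _ h1).trans ?_
    rw [← Finset.mul_sum]
    exact mul_le_mul_of_nonneg_left (sum_sq_le n hn1) (by positivity)
  have h3 : ‖p.derivative.eval a‖ * ‖b - a‖ ≤
      (H * (n : ℝ) ^ 3 * ρ ^ (n - 1) * ‖b - a‖) * ‖b - a‖ := by
    refine h2.trans (le_of_eq ?_)
    ring
  rw [norm_sub_rev a b]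
  exact le_of_mul_le_mul_right h3 hr

/-- If the distance to the second root is at most `1 / n`. -/
theorem deriv_le_close (p : ℂ[X]) (n : ℕ) (hn1 : 1 ≤ n) (hn : p.natDegree ≤ n) {H : ℝ}
    (hH : ∀ i, ‖p.coeff i‖ ≤ H) {a b : ℂ} (ha : p.eval a = 0) (hb : p.eval b = 0) (hab : a ≠ b)
    (hr : ‖a - b‖ ≤ 1 / n) :
    ‖p.derivative.eval a‖ ≤
      Real.exp 1 * H * (n : ℝ) ^ 3 * max 1 ‖a‖ ^ (n - 1) * ‖a - b‖ := by
  have hH0 : 0 ≤ H := (norm_nonneg _).trans (hH 0)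
  have hn0 : (0 : ℝ) < n := by exact_mod_cast hn1
  set m : ℝ := max 1 ‖a‖ with hm
  have hm1 : 1 ≤ m := le_max_left _ _
  set ρ : ℝ := m * (1 + 1 / n) with hρ
  have h1n : 0 < 1 / (n : ℝ) := by positivity
  have hρm : m ≤ ρ := by
    rw [hρ]
    nlinarith
  have hρ1 : 1 ≤ ρ := hm1.trans hρm
  have hza : ‖a‖ ≤ ρ := (le_max_right _ _).trans hρm
  have hzb : ‖b‖ ≤ ρ := by
    have h1 : ‖b‖ ≤ ‖a‖ + ‖a - b‖ := by
      have := norm_sub_norm_le b a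
      rw [norm_sub_rev] at this
      linarith
    have h2 : ‖a‖ ≤ m := le_max_right _ _
    rw [hρ]
    nlinarith
  refine (deriv_le_dist p n hn1 hn hH ha hb hab hρ1 hza hzb).trans ?_
  have h3 : ρ ^ (n - 1) ≤ Real.exp 1 * m ^ (n - 1) := by
    rw [hρ, mul_pow, mul_comm]
    refine mul_le_mul_of_nonneg_right ?_ (by positivity)
    have h4 : (1 + 1 / (n : ℝ)) ≤ Real.exp (1 / n) := by
      rw [add_comm]
      exact Real.add_one_le_exp _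
    calc (1 + 1 / (n : ℝ)) ^ (n - 1) ≤ (1 + 1 / (n : ℝ)) ^ n :=
          pow_le_pow_right₀ (by linarith) (by omega)
      _ ≤ Real.exp (1 / n) ^ n := pow_le_pow_left₀ (by positivity) h4 n
      _ = Real.exp 1 := by
        rw [← Real.exp_nat_mul]
        congr 1
        field_simp
  calc H * (n : ℝ) ^ 3 * ρ ^ (n - 1) * ‖a - b‖ ≤
        H * (n : ℝ) ^ 3 * (Real.exp 1 * m ^ (n - 1)) * ‖a - b‖ := by gcongr
    _ = Real.exp 1 * H * (n : ℝ) ^ 3 * m ^ (n - 1) * ‖a - b‖ := by ring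

end Pool.Agent.Helper41.RS
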