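import Mathlib

/-!
# MP_418077_nt, pairs with a root of bounded degree: definitions and first facts
-/

set_option autoImplicit false

namespace Pool.Agent.Helper41.RS

open Polynomial

/-- The height of an integer polynomial, the largest absolute value of a coefficient. -/
def height (P : ℤ[X]) : ℕ := P.support.sup fun i => (P.coeff i).natAbs

/-- The integer polynomials of degree `n` and height at most `H` with pairwise different complex
roots. -/
def Sepa (n H : ℕ) : Set ℤ[X] := {P | P.natDegree = n ∧ height P ≤ H ∧ (P.aroots ℂ).Nodup}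

/-- The monic ones. -/
def SepaMon (n H : ℕ) : Set ℤ[X] := {P | P ∈ Sepa n H ∧ P.Monic}

/-- The distances of two different complex roots `a`, `b` of one polynomial in `S` such that the
algebraic number `a` has degree at most `k`. -/
def pairDist (k : ℕ) (S : Set ℤ[X]) : Set ℝ :=
  {r | ∃ P ∈ S, ∃ a b : ℂ, aeval a P = 0 ∧ aeval b P = 0 ∧ a ≠ b ∧
    (minpoly ℚ a).natDegree ≤ k ∧ r = ‖a - b‖}

/-- The least of these distances. -/
noncomputable def minDist (k : ℕ) (S : Set ℤ[X]) : ℝ := sInf (pairDist k S)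

lemma natAbs_coeff_le (P : ℤ[X]) (i : ℕ) : (P.coeff i).natAbs ≤ height P := by
  by_cases h : i ∈ P.support
  · exact Finset.le_sup (f := fun i => (P.coeff i).natAbs) h
  · rw [notMem_support_iff.1 h]
    simp

lemma height_le {P : ℤ[X]} {H : ℕ} (h : ∀ i, (P.coeff i).natAbs ≤ H) : height P ≤ H :=
  Finset.sup_le fun i _ => h i

lemma height_le_iff {P : ℤ[X]} {H : ℕ} : height P ≤ H ↔ ∀ i, (P.coeff i).natAbs ≤ H :=
  ⟨fun h i => (natAbs_coeff_le P i).trans h, height_le⟩

lemma finite_Sepa (n H : ℕ) : (Sepa n H).Finite := by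
  classical
  have h1 : Set.InjOn (fun (P : ℤ[X]) (i : Fin (n + 1)) => P.coeff i) (Sepa n H) := by
    intro P hP Q hQ h
    ext i
    by_cases hi : i < n + 1
    · exact congrFun h ⟨i, hi⟩
    · rw [coeff_eq_zero_of_natDegree_lt (by rw [hP.1]; omega),
        coeff_eq_zero_of_natDegree_lt (by rw [hQ.1]; omega)]
  refine Set.Finite.of_finite_image (f := fun (P : ℤ[X]) (i : Fin (n + 1)) => P.coeff i) ?_ h1
  refine Set.Finite.subset (Set.Finite.pi' (t := fun _ : Fin (n + 1) => Set.Icc (-(H : ℤ)) H)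
    (fun _ => Set.finite_Icc _ _)) ?_
  rintro _ ⟨P, hP, rfl⟩ i
  have h2 := (natAbs_coeff_le P i).trans hP.2.1
  have h3 : -(H : ℤ) ≤ P.coeff i ∧ P.coeff i ≤ H := by omega
  exact h3

lemma ne_zero_of_mem {n H : ℕ} (hn : 1 ≤ n) {P : ℤ[X]} (hP : P ∈ Sepa n H) : P ≠ 0 := by
  rintro rfl
  have := hP.1
  rw [natDegree_zero] at this
  omega

lemma finite_pairDist (k n H : ℕ) (hn : 1 ≤ n) {S : Set ℤ[X]} (hS : S ⊆ Sepa n H) :
    (pairDist k S).Finite := by
  have h1 : (⋃ P ∈ Sepa n H, (fun x : ℂ × ℂ => ‖x.1 - x.2‖) ''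
      ((P.rootSet ℂ) ×ˢ (P.rootSet ℂ))).Finite := by
    refine (finite_Sepa n H).biUnion fun P _ => ?_
    exact ((rootSet_finite P ℂ).prod (rootSet_finite P ℂ)).image _
  refine h1.subset ?_
  rintro r ⟨P, hP, a, b, ha, hb, -, -, rfl⟩
  have hP0 := ne_zero_of_mem hn (hS hP)
  refine Set.mem_biUnion (hS hP) ⟨(a, b), ⟨?_, ?_⟩, rfl⟩
  · exact (mem_rootSet_of_ne hP0).2 ha
  · exact (mem_rootSet_of_ne hP0).2 hb

lemma pos_of_mem {k : ℕ} {S : Set ℤ[X]} {r : ℝ} (hr : r ∈ pairDist k S) : 0 < r := by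
  obtain ⟨P, -, a, b, -, -, hab, -, rfl⟩ := hr
  exact norm_pos_iff.2 (sub_ne_zero.2 hab)

/-- If there is one distance, the minimum is attained and positive. -/
lemma isLeast_minDist {k n H : ℕ} (hn : 1 ≤ n) {S : Set ℤ[X]} (hS : S ⊆ Sepa n H)
    (hne : (pairDist k S).Nonempty) :
    IsLeast (pairDist k S) (minDist k S) ∧ 0 < minDist k S := by
  have hfin := finite_pairDist k n H hn hS
  have hmem : minDist k S ∈ pairDist k S := hne.csInf_mem hfin
  exact ⟨⟨hmem, fun r hr => csInf_le hfin.bddBelow hr⟩, pos_of_mem hmem⟩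

/-- A polynomial with non-vanishing derivative at all roots has different roots. -/
lemma nodup_of_deriv {P : ℤ[X]} (hP : P ≠ 0)
    (h : ∀ z : ℂ, aeval z P = 0 → aeval z (derivative P) ≠ 0) : (P.aroots ℂ).Nodup := by
  classical
  have hinj : Function.Injective (algebraMap ℤ ℂ) := RingHom.injective_int _
  have hPm : P.map (algebraMap ℤ ℂ) ≠ 0 := (Polynomial.map_ne_zero_iff hinj).2 hP
  rw [aroots_def, Multiset.nodup_iff_count_le_one]
  intro z
  by_contra hc
  rw [not_le, count_roots, one_lt_rootMultiplicity_iff_isRoot hPm] at hc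
  obtain ⟨h1, h2⟩ := hc
  rw [IsRoot.def, eval_map_algebraMap] at h1
  rw [IsRoot.def, derivative_map, eval_map_algebraMap] at h2
  exact h z h1 h2

/-- The converse. -/
lemma deriv_ne_zero {P : ℤ[X]} (hP : P ≠ 0) (hnd : (P.aroots ℂ).Nodup) {z : ℂ}
    (hz : aeval z P = 0) : aeval z (derivative P) ≠ 0 := by
  classical
  have hinj : Function.Injective (algebraMap ℤ ℂ) := RingHom.injective_int _
  have hPm : P.map (algebraMap ℤ ℂ) ≠ 0 := (Polynomial.map_ne_zero_iff hinj).2 hP
  intro h0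
  have h4 := (one_lt_rootMultiplicity_iff_isRoot (p := P.map (algebraMap ℤ ℂ)) (t := z) hPm).2
    ⟨by rw [IsRoot.def, eval_map_algebraMap, hz], by
      rw [IsRoot.def, derivative_map, eval_map_algebraMap, h0]⟩
  rw [← count_roots] at h4
  have h5 := Multiset.nodup_iff_count_le_one.1 hnd z
  rw [aroots_def] at h5
  omega

end Pool.Agent.Helper41.RS
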