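import Pool.Agent.Helper41.RS.Low

/-!
# MP_418077_nt, pairs with a root of bounded degree: the exceptional degrees and heights
-/

set_option autoImplicit false

namespace Pool.Agent.Helper41.RS

open Polynomial Filter Topology

lemma M_le_one {f : ℤ[X]} (hl : f.leadingCoeff.natAbs ≤ 1)
    (hr : ∀ z : ℂ, aeval z f = 0 → ‖z‖ ≤ 1) :
    (f.map (Int.castRingHom ℂ)).mahlerMeasure ≤ 1 := by
  have hinj : Function.Injective (Int.castRingHom ℂ) := RingHom.injective_int _
  rw [mahlerMeasure_eq_leadingCoeff_mul_prod_roots, leadingCoeff_map_of_injective hinj, eq_intCast,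
    Complex.norm_intCast]
  have h1 : |(f.leadingCoeff : ℝ)| ≤ 1 := by
    have : |f.leadingCoeff| ≤ 1 := by
      rw [Int.abs_eq_natAbs]
      exact_mod_cast hl
    exact_mod_cast this
  have h2 : ((f.map (Int.castRingHom ℂ)).roots.map fun a => max 1 ‖a‖).prod = 1 := by
    refine Multiset.prod_eq_one fun x hx => ?_
    obtain ⟨z, hz, rfl⟩ := Multiset.mem_map.1 hx
    refine max_eq_left (hr z ?_)
    have := (mem_roots'.1 hz).2
    rw [IsRoot.def, eval_map] at this
    exact this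
  rw [h2, mul_one]
  exact h1

/-- At an integer the derivative is at least one. -/
lemma int_deriv {P : ℤ[X]} {n H : ℕ} (hn1 : 1 ≤ n) (hP : P ∈ Sepa n H) (m : ℤ)
    (hm : aeval (m : ℂ) P = 0) : 1 ≤ ‖aeval (m : ℂ) (derivative P)‖ := by
  have h1 := deriv_ne_zero (ne_zero_of_mem hn1 hP) hP.2.2 hm
  have h2 : aeval (m : ℂ) (derivative P) = (((derivative P).eval m : ℤ) : ℂ) := by
    have h3 : ∀ Q : ℤ[X], aeval (m : ℂ) Q = ((Q.eval m : ℤ) : ℂ) := by
      intro Q
      have := aeval_algebraMap_apply ℂ m Q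
      rw [coe_aeval_eq_eval] at this
      exact this
    exact h3 _
  rw [h2] at h1 ⊢
  rw [Complex.norm_intCast]
  have h3 : (derivative P).eval m ≠ 0 := fun h => h1 (by rw [h, Int.cast_zero])
  exact_mod_cast Int.one_le_abs h3

/-- The constant term of a factor. -/
lemma const_dvd {P f : ℤ[X]} {n H : ℕ} (hn1 : 1 ≤ n) (hP : P ∈ Sepa n H) (hf : Irreducible f)
    (hfP : f ∣ P) {a : ℂ} (ha0 : a ≠ 0) (ha : aeval a f = 0) :
    (f.coeff 0).natAbs ≤ H ∧ f.coeff 0 ≠ 0 := by
  have haP : aeval a P = 0 := by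
    obtain ⟨g, rfl⟩ := hfP
    rw [map_mul, ha, zero_mul]
  have key : ∀ Q : ℤ[X], Q.coeff 0 ≠ 0 → (Q.coeff 0).natAbs ≤ H → f ∣ Q →
      (f.coeff 0).natAbs ≤ H ∧ f.coeff 0 ≠ 0 := by
    rintro Q hQ1 hQ2 ⟨g, rfl⟩
    rw [mul_coeff_zero] at hQ1 hQ2
    have h1 := left_ne_zero_of_mul hQ1
    have h2 := right_ne_zero_of_mul hQ1
    refine ⟨?_, h1⟩
    rw [Int.natAbs_mul] at hQ2
    have h3 : 1 ≤ (g.coeff 0).natAbs := Int.natAbs_pos.2 h2
    nlinarith
  by_cases h0 : P.coeff 0 = 0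
  · obtain ⟨Q, hPQ, hQ, hQ0⟩ := exists_divX hn1 hP h0
    refine key Q hQ0 ((natAbs_coeff_le Q 0).trans hQ.2.1) ?_
    exact dvd_of_root hf ha (deriv_divX hPQ ha0 haP).1
  · exact key P h0 ((natAbs_coeff_le P 0).trans hP.2.1) hfP

lemma lead_dvd {P f : ℤ[X]} {n H : ℕ} (hn1 : 1 ≤ n) (hP : P ∈ Sepa n H) (hfP : f ∣ P) :
    f.leadingCoeff.natAbs ≤ H ∧ f.leadingCoeff ≠ 0 := by
  have hP0 := ne_zero_of_mem hn1 hP
  have h4 := (natAbs_coeff_le P P.natDegree).trans hP.2.1
  rw [coeff_natDegree] at h4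
  have h5 : P.leadingCoeff ≠ 0 := leadingCoeff_ne_zero.2 hP0
  obtain ⟨g, rfl⟩ := hfP
  rw [leadingCoeff_mul] at h4 h5
  have h1 := left_ne_zero_of_mul h5
  have h2 := right_ne_zero_of_mul h5
  refine ⟨?_, h1⟩
  rw [Int.natAbs_mul] at h4
  have h3 : 1 ≤ g.leadingCoeff.natAbs := Int.natAbs_pos.2 h2
  nlinarith

/-- Rational roots, height at most two. -/
theorem exc_one {P : ℤ[X]} {n : ℕ} (hn1 : 1 ≤ n) (hP : P ∈ Sepa n 2) {a : ℂ}
    (ha : aeval a P = 0) (hk : (minpoly ℚ a).natDegree ≤ 1) :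
    1 / 4 * max 1 ‖a‖ ^ (n - 1) ≤ ‖aeval a (derivative P)‖ := by
  have hP0 := ne_zero_of_mem hn1 hP
  have hint : ∀ m : ℤ, (m = 0 ∨ m = 1 ∨ m = -1) → a = m →
      1 / 4 * max 1 ‖a‖ ^ (n - 1) ≤ ‖aeval a (derivative P)‖ := by
    rintro m hm rfl
    have h1 : ‖(m : ℂ)‖ ≤ 1 := by
      rcases hm with rfl | rfl | rfl <;> simp
    rw [max_eq_left h1, one_pow, mul_one]
    exact le_trans (by norm_num) (int_deriv hn1 hP m ha)
  by_cases ha0 : a = 0
  · exact hint 0 (Or.inl rfl) (by rw [ha0, Int.cast_zero])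
  obtain ⟨f, hf, hfP, hfa⟩ := exists_irr hP0 ha
  have hfd : f.natDegree ≤ 1 := by rw [natDegree_irr hf hfa]; exact hk
  have hf1 : f.natDegree ≠ 0 := by
    intro h0
    rw [eq_C_of_natDegree_eq_zero h0, aeval_C] at hfa
    have h1 : f.coeff 0 = 0 := (map_eq_zero_iff _ (RingHom.injective_int (algebraMap ℤ ℂ))).1 hfa
    exact hf.ne_zero (by rw [eq_C_of_natDegree_eq_zero h0, h1, C_0])
  have hfd1 : f.natDegree = 1 := by omega
  obtain ⟨v1, v2⟩ := const_dvd hn1 hP hf hfP ha0 hfa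
  obtain ⟨u1, u2⟩ := lead_dvd hn1 hP hfP
  rw [leadingCoeff, hfd1] at u1 u2
  have hfe := eq_X_add_C_of_natDegree_le_one hfd
  rw [hfe] at hfa
  simp only [map_add, map_mul, aeval_C, aeval_X] at hfa
  generalize f.coeff 1 = u at u1 u2 hfa
  generalize f.coeff 0 = v at v1 v2 hfa
  have hfa' : (u : ℂ) * a + v = 0 := hfa
  have hhalf : ∀ (b : ℂ), b = (((1 / 2 : ℝ)) : ℂ) ∨ b = -(((1 / 2 : ℝ)) : ℂ) ∨
      b = (((1 / 2 : ℝ)) : ℂ)⁻¹ ∨ b = -(((1 / 2 : ℝ)) : ℂ)⁻¹ → a = b →
      1 / 4 * max 1 ‖a‖ ^ (n - 1) ≤ ‖aeval a (derivative P)‖ := by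
    rintro b hb rfl
    have h1 := ext_lower (x₀ := 1 / 2) (c := 1) (H := 2) (by norm_num) (by norm_num) one_pos
      (fun m hm Q hQ hQ0 hQx => half_lower hQ hQ0 hQx) hn1 hP hb ha
    refine le_trans (le_of_eq ?_) h1
    norm_num
  have hu : u = 1 ∨ u = -1 ∨ u = 2 ∨ u = -2 := by omega
  have hv : v = 1 ∨ v = -1 ∨ v = 2 ∨ v = -2 := by omega
  rcases hu with rfl | rfl | rfl | rfl <;> rcases hv with rfl | rfl | rfl | rfl <;>
    push_cast at hfa'
  · exact hint (-1) (by norm_num) (by push_cast; linear_combination hfa')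
  · exact hint 1 (by norm_num) (by push_cast; linear_combination hfa')
  · exact hhalf (-2) (by norm_num) (by linear_combination hfa')
  · exact hhalf 2 (by norm_num) (by linear_combination hfa')
  · exact hint 1 (by norm_num) (by push_cast; linear_combination -hfa')
  · exact hint (-1) (by norm_num) (by push_cast; linear_combination -hfa')
  · exact hhalf 2 (by norm_num) (by linear_combination -hfa')
  · exact hhalf (-2) (by norm_num) (by linear_combination -hfa')
  · exact hhalf (-(1 / 2)) (by norm_num) (by linear_combination (1 / 2) * hfa')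
  · exact hhalf (1 / 2) (by norm_num) (by linear_combination (1 / 2) * hfa')
  · exact hint (-1) (by norm_num) (by push_cast; linear_combination (1 / 2) * hfa')
  · exact hint 1 (by norm_num) (by push_cast; linear_combination (1 / 2) * hfa')
  · exact hhalf (1 / 2) (by norm_num) (by linear_combination (-1 / 2) * hfa')
  · exact hhalf (-(1 / 2)) (by norm_num) (by linear_combination (-1 / 2) * hfa')
  · exact hint 1 (by norm_num) (by push_cast; linear_combination (-1 / 2) * hfa')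
  · exact hint (-1) (by norm_num) (by push_cast; linear_combination (-1 / 2) * hfa')

/-- Cauchy's bound for height one. -/
lemma norm_lt_two {P : ℤ[X]} {n : ℕ} (hn1 : 1 ≤ n) (hP : P ∈ Sepa n 1) {z : ℂ}
    (hz : aeval z P = 0) : ‖z‖ < 2 := by
  have hP0 := ne_zero_of_mem hn1 hP
  have hinj : Function.Injective (Int.castRingHom ℂ) := RingHom.injective_int _
  have h1 := IsRoot.norm_lt_cauchyBound (p := P.map (Int.castRingHom ℂ)) (a := z)
    ((Polynomial.map_ne_zero_iff hinj).2 hP0) (by rw [IsRoot.def, eval_map]; exact hz)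
  have hl : ‖(P.map (Int.castRingHom ℂ)).leadingCoeff‖₊ = 1 := by
    have h4 := (natAbs_coeff_le P P.natDegree).trans hP.2.1
    rw [coeff_natDegree] at h4
    have h5 : P.leadingCoeff ≠ 0 := leadingCoeff_ne_zero.2 hP0
    rw [leadingCoeff_map_of_injective hinj, eq_intCast]
    have h6 : P.leadingCoeff = 1 ∨ P.leadingCoeff = -1 := by omega
    rcases h6 with h6 | h6 <;> rw [h6] <;> simp
  have h2 : cauchyBound (P.map (Int.castRingHom ℂ)) ≤ 2 := by
    unfold cauchyBound
    rw [hl, div_one]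
    have h3 : (Finset.range (P.map (Int.castRingHom ℂ)).natDegree).sup
        (fun i => ‖(P.map (Int.castRingHom ℂ)).coeff i‖₊) ≤ 1 := by
      refine Finset.sup_le fun i _ => ?_
      have := coeff_norm_le hP i
      rw [← NNReal.coe_le_coe, coe_nnnorm]
      simpa using this
    calc _ ≤ (1 : NNReal) + 1 := by gcongr
      _ = 2 := by norm_num
  have h3 : ‖z‖₊ < 2 := lt_of_lt_of_le h1 h2
  exact_mod_cast h3

/-- Quadratic polynomials with outer coefficients `±1`. -/
theorem quad_case {w u v : ℤ} (hw : w = 1 ∨ w = -1) (hv : v = 1 ∨ v = -1)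
    (hall : ∀ z : ℂ, (w : ℂ) * z ^ 2 + u * z + v = 0 → ‖z‖ < 2) {x₀ : ℝ}
    (h0 : 0 < x₀) (hx : x₀ ^ 2 + x₀ - 1 = 0) :
    (∀ z : ℂ, (w : ℂ) * z ^ 2 + u * z + v = 0 → ‖z‖ ≤ 1) ∨
    (∀ z : ℂ, (w : ℂ) * z ^ 2 + u * z + v = 0 →
      z = x₀ ∨ z = -x₀ ∨ z = (x₀ : ℂ)⁻¹ ∨ z = -(x₀ : ℂ)⁻¹) := by
  -- normalise the leading coefficient
  obtain ⟨β, γ, hγ, hiff⟩ : ∃ β γ : ℤ, (γ = 1 ∨ γ = -1) ∧ ∀ z : ℂ,
      ((w : ℂ) * z ^ 2 + u * z + v = 0 ↔ z ^ 2 + β * z + γ = 0) := by
    rcases hw with rfl | rfl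
    · exact ⟨u, v, hv, fun z => by push_cast; rw [one_mul]⟩
    · refine ⟨-u, -v, ?_, fun z => ?_⟩
      · rcases hv with rfl | rfl
        · right
          rfl
        · left
          rfl
      · push_cast
        constructor
        · intro h
          linear_combination -h
        · intro h
          linear_combination -h
  simp only [hiff] at hall ⊢
  -- the large root
  have hbig : ∀ s : ℝ, s ^ 2 = (β : ℝ) ^ 2 - 4 * γ → |(β : ℝ) + s| < 4 := by
    intro s hs
    have h1 := hall (((-((β : ℝ) + s) / 2 : ℝ)) : ℂ) (by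
      have : (((-((β : ℝ) + s) / 2 : ℝ)) : ℂ) ^ 2 + β * (((-((β : ℝ) + s) / 2 : ℝ)) : ℂ) + γ =
          (((s ^ 2 - (β : ℝ) ^ 2) / 4 + γ : ℝ) : ℂ) := by
        push_cast
        ring
      rw [this, hs]
      push_cast
      ring)
    rw [Complex.norm_real, Real.norm_eq_abs, abs_div, abs_neg,
      abs_of_pos (by norm_num : (0 : ℝ) < 2)] at h1
    linarith
  have hβ : ∀ t : ℝ, 0 ≤ t → t ^ 2 = (β : ℝ) ^ 2 - 4 * γ → |(β : ℝ)| + t < 4 := by
    intro t ht hts
    rcases le_total 0 (β : ℝ) with h | h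
    · have h1 := hbig t hts
      rw [abs_of_nonneg (add_nonneg h ht)] at h1
      rwa [abs_of_nonneg h]
    · have h1 := hbig (-t) (by rw [neg_sq, hts])
      rw [abs_of_nonpos (by linarith)] at h1
      rw [abs_of_nonpos h]
      linarith
  have hx0 : (x₀ : ℂ) ≠ 0 := Complex.ofReal_ne_zero.2 h0.ne'
  have hxc : (x₀ : ℂ) ^ 2 + x₀ - 1 = 0 := by exact_mod_cast hx
  have hinv : (x₀ : ℂ)⁻¹ = x₀ + 1 := by
    refine inv_eq_of_mul_eq_one_right ?_
    linear_combination hxc
  rcases hγ with rfl | rfl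
  · -- product of the roots is one
    have h3 : |(β : ℝ)| < 3 := by
      by_contra hc
      rw [not_lt] at hc
      have hb2 : 9 ≤ (β : ℝ) ^ 2 := by
        rw [← sq_abs]
        nlinarith
      have hD : 0 ≤ (β : ℝ) ^ 2 - 4 * ((1 : ℤ) : ℝ) := by
        push_cast
        linarith
      have h4 := hβ (√((β : ℝ) ^ 2 - 4 * ((1 : ℤ) : ℝ))) (Real.sqrt_nonneg _) (Real.sq_sqrt hD)
      have h5 : 1 ≤ √((β : ℝ) ^ 2 - 4 * ((1 : ℤ) : ℝ)) := by
        refine Real.le_sqrt_of_sq_le ?_
        push_cast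
        linarith
      linarith
    have h4 : |β| < 3 := by exact_mod_cast h3
    have h5 : |(β : ℝ)| ≤ 2 := by
      have : |β| ≤ 2 := by omega
      exact_mod_cast this
    left
    intro z hz
    have hre := congrArg Complex.re hz
    have him := congrArg Complex.im hz
    simp [pow_two] at hre him
    have hz2 : z.re * z.re + z.im * z.im = 1 := by
      have h6 : z.im * (2 * z.re + β) = 0 := by linear_combination him
      rcases mul_eq_zero.1 h6 with h7 | h7
      · rw [h7] at hre ⊢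
        have h8 : (z.re + β / 2) ^ 2 = (β : ℝ) ^ 2 / 4 - 1 := by linear_combination hre
        have h9 : (β : ℝ) ^ 2 ≤ 4 := by
          rw [← sq_abs]
          nlinarith [abs_nonneg (β : ℝ)]
        have h10 : (z.re + β / 2) ^ 2 = 0 := le_antisymm (by rw [h8]; linarith) (sq_nonneg _)
        have h11 : z.re + β / 2 = 0 := pow_eq_zero_iff (two_ne_zero) |>.1 h10
        have h12 : (β : ℝ) = -2 * z.re := by linarith
        rw [h12] at hre
        linear_combination -hre
      · have h12 : (β : ℝ) = -2 * z.re := by linarith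
        rw [h12] at hre
        linear_combination -hre
    have h6 : ‖z‖ ^ 2 = 1 := by
      rw [← Complex.normSq_eq_norm_sq, Complex.normSq_apply]
      exact hz2
    have h7 : ‖z‖ = 1 := (pow_eq_one_iff_of_nonneg (norm_nonneg _) (by norm_num)).1 h6
    exact h7.le
  · -- product of the roots is minus one
    have h3 : |(β : ℝ)| < 2 := by
      by_contra hc
      rw [not_lt] at hc
      have hb2 : 4 ≤ (β : ℝ) ^ 2 := by
        rw [← sq_abs]
        nlinarith
      have hD : 0 ≤ (β : ℝ) ^ 2 - 4 * ((-1 : ℤ) : ℝ) := by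
        push_cast
        linarith
      have h4 := hβ (√((β : ℝ) ^ 2 - 4 * ((-1 : ℤ) : ℝ))) (Real.sqrt_nonneg _) (Real.sq_sqrt hD)
      have h5 : 2 ≤ √((β : ℝ) ^ 2 - 4 * ((-1 : ℤ) : ℝ)) := by
        refine Real.le_sqrt_of_sq_le ?_
        push_cast
        linarith
      linarith
    have h4 : |β| < 2 := by exact_mod_cast h3
    have h5 : β = 0 ∨ β = 1 ∨ β = -1 := by
      rcases abs_lt.1 h4 with ⟨h6, h7⟩
      omega
    rcases h5 with rfl | rfl | rfl
    · left
      intro z hz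
      push_cast at hz
      have h6 : z ^ 2 = 1 := by linear_combination hz
      have h7 : ‖z‖ ^ 2 = 1 := by rw [← norm_pow, h6, norm_one]
      exact ((pow_eq_one_iff_of_nonneg (norm_nonneg _) (by norm_num)).1 h7).le
    · right
      intro z hz
      push_cast at hz
      have h6 : (z - x₀) * (z + (x₀ + 1)) = 0 := by linear_combination hz - hxc
      rw [hinv]
      rcases mul_eq_zero.1 h6 with h7 | h7
      · left
        linear_combination h7
      · right; right; right
        linear_combination h7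
    · right
      intro z hz
      push_cast at hz
      have h6 : (z + x₀) * (z - (x₀ + 1)) = 0 := by linear_combination hz - hxc
      rw [hinv]
      rcases mul_eq_zero.1 h6 with h7 | h7
      · right; left
        linear_combination h7
      · right; right; left
        linear_combination h7

end Pool.Agent.Helper41.RS
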