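import Pool.Agent.Helper41.RS.Order

/-!
# MP_418077_nt, pairs with a root of bounded degree: lower bounds for the derivative at a root
-/

set_option autoImplicit false

namespace Pool.Agent.Helper41.RS

open Polynomial Filter Topology

lemma coeff_norm_le {P : ℤ[X]} {n H : ℕ} (hP : P ∈ Sepa n H) (i : ℕ) :
    ‖(P.map (Int.castRingHom ℂ)).coeff i‖ ≤ (H : ℝ) := by
  rw [coeff_map, eq_intCast, Complex.norm_intCast]
  have h := (natAbs_coeff_le P i).trans hP.2.1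
  have h3 : |((P.coeff i : ℤ) : ℝ)| = (((P.coeff i).natAbs : ℕ) : ℝ) := by
    rw [Nat.cast_natAbs, Int.cast_abs]
  rw [h3]
  exact_mod_cast h

/-- A lower bound for the derivative at a root gives a lower bound for the distance of the other
roots. -/
theorem dist_of_deriv {P : ℤ[X]} {n H : ℕ} (hn1 : 1 ≤ n) (hH1 : 1 ≤ H) (hP : P ∈ Sepa n H)
    {a b : ℂ} (ha : aeval a P = 0) (hb : aeval b P = 0) (hab : a ≠ b) {c : ℝ} (hc1 : c ≤ 1)
    (hc : c * max 1 ‖a‖ ^ (n - 1) ≤ ‖aeval a (derivative P)‖) :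
    c ≤ Real.exp 1 * H * (n : ℝ) ^ 3 * ‖a - b‖ := by
  have hn0 : (1 : ℝ) ≤ n := by exact_mod_cast hn1
  have hHr : (1 : ℝ) ≤ H := by exact_mod_cast hH1
  have hinj : Function.Injective (Int.castRingHom ℂ) := RingHom.injective_int _
  have he : 1 ≤ Real.exp 1 := Real.one_le_exp zero_le_one
  rcases lt_or_ge (1 / (n : ℝ)) ‖a - b‖ with h | h
  · have h1 : 1 ≤ (n : ℝ) * ‖a - b‖ := by
      have := mul_le_mul_of_nonneg_left h.le (by linarith : (0 : ℝ) ≤ n)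
      rwa [mul_one_div, div_self (by linarith : (n : ℝ) ≠ 0)] at this
    calc c ≤ 1 := hc1
      _ = 1 * 1 * 1 ^ 2 * 1 := by ring
      _ ≤ Real.exp 1 * H * (n : ℝ) ^ 2 * ((n : ℝ) * ‖a - b‖) := by gcongr
      _ = Real.exp 1 * H * (n : ℝ) ^ 3 * ‖a - b‖ := by ring
  · have h2 := deriv_le_close (P.map (Int.castRingHom ℂ)) n hn1
      (by rw [natDegree_map_eq_of_injective hinj, hP.1]) (coeff_norm_le hP)
      (a := a) (b := b) (by rw [eval_map]; exact ha) (by rw [eval_map]; exact hb) hab h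
    have h3 : eval a (derivative (P.map (Int.castRingHom ℂ))) = aeval a (derivative P) := by
      rw [derivative_map, eval_map]
      rfl
    rw [h3] at h2
    have hm0 : 0 < max 1 ‖a‖ ^ (n - 1) := by positivity
    have h4 : c * max 1 ‖a‖ ^ (n - 1) ≤
        (Real.exp 1 * H * (n : ℝ) ^ 3 * ‖a - b‖) * max 1 ‖a‖ ^ (n - 1) := by
      refine (hc.trans h2).trans (le_of_eq ?_)
      ring
    exact le_of_mul_le_mul_right h4 hm0

/-- The root zero can be removed. -/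
theorem exists_divX {P : ℤ[X]} {n H : ℕ} (hn1 : 1 ≤ n) (hP : P ∈ Sepa n H) (h0 : P.coeff 0 = 0) :
    ∃ Q : ℤ[X], P = X * Q ∧ Q ∈ Sepa (n - 1) H ∧ Q.coeff 0 ≠ 0 := by
  have hP0 := ne_zero_of_mem hn1 hP
  obtain ⟨hdeg, hht, hnd⟩ := hP
  obtain ⟨Q, rfl⟩ := X_dvd_iff.2 h0
  have hQ0 : Q ≠ 0 := right_ne_zero_of_mul hP0
  refine ⟨Q, rfl, ⟨?_, ?_, ?_⟩, ?_⟩
  · rw [natDegree_X_mul hQ0] at hdeg
    omega
  · refine height_le fun i => ?_
    have := natAbs_coeff_le (X * Q) (i + 1)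
    rw [coeff_X_mul] at this
    exact this.trans hht
  · rw [aroots_mul hP0] at hnd
    exact (Multiset.nodup_add.1 hnd).2.1
  · intro hq
    refine deriv_ne_zero hP0 hnd (z := 0) (by simp) ?_
    have h1 := coeff_zero_eq_aeval_zero' (A := ℂ) Q
    rw [hq, map_zero] at h1
    rw [derivative_mul, derivative_X, one_mul, map_add, map_mul, aeval_X, zero_mul, add_zero, ← h1]

lemma deriv_divX {P Q : ℤ[X]} (h : P = X * Q) {a : ℂ} (ha : a ≠ 0) (hP : aeval a P = 0) :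
    aeval a Q = 0 ∧ aeval a (derivative P) = a * aeval a (derivative Q) := by
  subst h
  rw [map_mul, aeval_X] at hP
  have h1 : aeval a Q = 0 := (mul_eq_zero.1 hP).resolve_left ha
  refine ⟨h1, ?_⟩
  rw [derivative_mul, derivative_X, one_mul, map_add, map_mul, aeval_X, h1, zero_add]

/-- The polynomial `P (-X)`. -/
noncomputable def ng (P : ℤ[X]) : ℤ[X] := P.comp (C (-1) * X)

lemma aeval_ng (P : ℤ[X]) (z : ℂ) : aeval z (ng P) = aeval (-z) P := by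
  unfold ng
  rw [aeval_comp]
  congr 1
  simp

lemma deriv_ng (P : ℤ[X]) (z : ℂ) :
    aeval z (derivative (ng P)) = -aeval (-z) (derivative P) := by
  unfold ng
  rw [derivative_comp, map_mul, aeval_comp]
  simp

theorem ng_mem {P : ℤ[X]} {n H : ℕ} (hn1 : 1 ≤ n) (hP : P ∈ Sepa n H) :
    ng P ∈ Sepa n H ∧ (ng P).coeff 0 = P.coeff 0 := by
  have hP0 := ne_zero_of_mem hn1 hP
  obtain ⟨hdeg, hht, hnd⟩ := hP
  have hc : ∀ i, (ng P).coeff i = P.coeff i * (-1) ^ i := fun i => by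
    unfold ng
    rw [comp_C_mul_X_coeff]
  have hca : ∀ i, ((ng P).coeff i).natAbs = (P.coeff i).natAbs := fun i => by
    rw [hc, Int.natAbs_mul, Int.natAbs_pow]
    simp
  have hd : (ng P).natDegree = n := by
    refine natDegree_eq_of_le_of_coeff_ne_zero ?_ ?_
    · refine natDegree_le_iff_coeff_eq_zero.2 fun i hi => ?_
      rw [hc, coeff_eq_zero_of_natDegree_lt (by omega), zero_mul]
    · rw [hc, ← hdeg]
      exact mul_ne_zero (by rwa [coeff_natDegree, Ne, leadingCoeff_eq_zero])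
        (pow_ne_zero _ (by norm_num))
  have hn0 : ng P ≠ 0 := by
    intro h
    rw [h, natDegree_zero] at hd
    omega
  refine ⟨⟨hd, ?_, ?_⟩, ?_⟩
  · exact height_le fun i => by
      rw [hca]
      exact (natAbs_coeff_le _ _).trans hht
  · refine nodup_of_deriv hn0 fun z hz => ?_
    rw [deriv_ng, neg_ne_zero]
    rw [aeval_ng] at hz
    exact deriv_ne_zero hP0 hnd hz
  · rw [hc, pow_zero, mul_one]

section ext

variable {x₀ c : ℝ} {H : ℕ}

/-- The case of a polynomial with non-vanishing constant term. -/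
theorem ext_core (h0 : 0 < x₀) (h1 : x₀ < 1) (hc : 0 < c)
    (h : ∀ n : ℕ, 1 ≤ n → ∀ Q ∈ Sepa n H, Q.coeff 0 ≠ 0 → aeval (x₀ : ℂ) Q = 0 →
      c ≤ ‖aeval (x₀ : ℂ) (derivative Q)‖) {n : ℕ} (hn1 : 1 ≤ n) {P : ℤ[X]} (hP : P ∈ Sepa n H)
    (hP0 : P.coeff 0 ≠ 0) {a : ℂ} (ha : a = x₀ ∨ a = -x₀ ∨ a = (x₀ : ℂ)⁻¹ ∨ a = -(x₀ : ℂ)⁻¹)
    (haP : aeval a P = 0) : x₀ * c * max 1 ‖a‖ ^ (n - 1) ≤ ‖aeval a (derivative P)‖ := by
  have hx : ‖(x₀ : ℂ)‖ = x₀ := by rw [Complex.norm_real, Real.norm_of_nonneg h0.le]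
  have hxc : x₀ * c ≤ c := by nlinarith
  have hx0 : (x₀ : ℂ) ≠ 0 := Complex.ofReal_ne_zero.2 h0.ne'
  -- the roots inside
  have key1 : ∀ Q ∈ Sepa n H, Q.coeff 0 ≠ 0 → ∀ b : ℂ, b = x₀ ∨ b = -x₀ → aeval b Q = 0 →
      c ≤ ‖aeval b (derivative Q)‖ := by
    rintro Q hQ hQ0 b (rfl | rfl) hb
    · exact h n hn1 Q hQ hQ0 hb
    · obtain ⟨m1, m2⟩ := ng_mem hn1 hQ
      have h2 := h n hn1 (ng Q) m1 (by rwa [m2]) (by rw [aeval_ng, hb])
      rwa [deriv_ng, norm_neg] at h2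
  have inside : a = x₀ ∨ a = -x₀ →
      x₀ * c * max 1 ‖a‖ ^ (n - 1) ≤ ‖aeval a (derivative P)‖ := by
    intro ha'
    have h2 : ‖a‖ = x₀ := by
      rcases ha' with h3 | h3
      · rw [h3, hx]
      · rw [h3, norm_neg, hx]
    rw [h2, max_eq_left h1.le, one_pow, mul_one]
    exact hxc.trans (key1 P hP hP0 a ha' haP)
  have outside : a⁻¹ = x₀ ∨ a⁻¹ = -x₀ →
      x₀ * c * max 1 ‖a‖ ^ (n - 1) ≤ ‖aeval a (derivative P)‖ := by
    intro ha'
    obtain ⟨r1, r2, r3⟩ := rev_mem hn1 hP hP0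
    obtain ⟨a0, ha1⟩ := r3 a haP
    have h2 : ‖a‖ = x₀⁻¹ := by
      rw [← inv_inv a, norm_inv]
      rcases ha' with h3 | h3
      · rw [h3, hx]
      · rw [h3, norm_neg, hx]
    have h3 := key1 P.reverse r1 (coeff_rev_zero hP.1 hn1) a⁻¹ ha' ha1
    have h4 := deriv_rev hP.1 hn1 a0
    rw [haP, mul_zero, zero_sub] at h4
    have h5 : ‖a‖ ^ (n - 1) * ‖aeval a⁻¹ (derivative P.reverse)‖ =
        ‖a‖ * ‖aeval a (derivative P)‖ := by
      have := congrArg norm h4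
      rwa [norm_mul, norm_pow, norm_neg, norm_mul] at this
    have hx1 : 1 < x₀⁻¹ := by
      rw [one_lt_inv₀ h0]
      exact h1
    rw [h2] at h5
    rw [h2, max_eq_right hx1.le]
    have h6 : ‖aeval a (derivative P)‖ =
        x₀ * (x₀⁻¹ ^ (n - 1) * ‖aeval a⁻¹ (derivative P.reverse)‖) := by
      rw [h5]
      field_simp
    rw [h6]
    have h7 : 0 < x₀⁻¹ ^ (n - 1) := by positivity
    calc x₀ * c * x₀⁻¹ ^ (n - 1) = x₀ * (x₀⁻¹ ^ (n - 1) * c) := by ring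
      _ ≤ x₀ * (x₀⁻¹ ^ (n - 1) * ‖aeval a⁻¹ (derivative P.reverse)‖) := by gcongr
  rcases ha with h2 | h2 | h2 | h2
  · exact inside (Or.inl h2)
  · exact inside (Or.inr h2)
  · exact outside (Or.inl (by rw [h2, inv_inv]))
  · exact outside (Or.inr (by rw [h2, inv_neg, inv_inv]))

theorem ext_lower (h0 : 0 < x₀) (h1 : x₀ < 1) (hc : 0 < c)
    (h : ∀ n : ℕ, 1 ≤ n → ∀ Q ∈ Sepa n H, Q.coeff 0 ≠ 0 → aeval (x₀ : ℂ) Q = 0 →
      c ≤ ‖aeval (x₀ : ℂ) (derivative Q)‖) {n : ℕ} (hn1 : 1 ≤ n) {P : ℤ[X]} (hP : P ∈ Sepa n H)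
    {a : ℂ} (ha : a = x₀ ∨ a = -x₀ ∨ a = (x₀ : ℂ)⁻¹ ∨ a = -(x₀ : ℂ)⁻¹)
    (haP : aeval a P = 0) : x₀ ^ 2 * c * max 1 ‖a‖ ^ (n - 1) ≤ ‖aeval a (derivative P)‖ := by
  have hx : ‖(x₀ : ℂ)‖ = x₀ := by rw [Complex.norm_real, Real.norm_of_nonneg h0.le]
  have hx0 : (x₀ : ℂ) ≠ 0 := Complex.ofReal_ne_zero.2 h0.ne'
  by_cases hP0 : P.coeff 0 = 0
  · obtain ⟨Q, hPQ, hQ, hQ0⟩ := exists_divX hn1 hP hP0
    have ha0 : a ≠ 0 := by
      rcases ha with h2 | h2 | h2 | h2 <;> rw [h2]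
      · exact hx0
      · exact neg_ne_zero.2 hx0
      · exact inv_ne_zero hx0
      · exact neg_ne_zero.2 (inv_ne_zero hx0)
    obtain ⟨q1, q2⟩ := deriv_divX hPQ ha0 haP
    have hn2 : 1 ≤ n - 1 := by
      by_contra hh
      have h3 : Q.natDegree = 0 := by rw [hQ.1]; omega
      rw [eq_C_of_natDegree_eq_zero h3, aeval_C] at q1
      have h4 : Q.coeff 0 = 0 := (map_eq_zero_iff _ (RingHom.injective_int (algebraMap ℤ ℂ))).1 q1
      exact hQ0 h4
    have h2 := ext_core h0 h1 hc h hn2 hQ hQ0 ha q1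
    rw [q2, norm_mul]
    have h3 : n - 1 = (n - 1 - 1) + 1 := by omega
    have h4 : x₀ * max 1 ‖a‖ ≤ ‖a‖ := by
      have h5 : ‖a‖ = x₀ ∨ ‖a‖ = x₀⁻¹ := by
        rcases ha with h2 | h2 | h2 | h2 <;> rw [h2]
        · left
          exact hx
        · left
          rw [norm_neg, hx]
        · right
          rw [norm_inv, hx]
        · right
          rw [norm_neg, norm_inv, hx]
      have hx1 : 1 < x₀⁻¹ := by
        rw [one_lt_inv₀ h0]
        exact h1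
      rcases h5 with h5 | h5 <;> rw [h5]
      · rw [max_eq_left h1.le, mul_one]
      · rw [max_eq_right hx1.le]
        nlinarith
    rw [h3]
    calc x₀ ^ 2 * c * max 1 ‖a‖ ^ (n - 1 - 1 + 1)
        = (x₀ * max 1 ‖a‖) * (x₀ * c * max 1 ‖a‖ ^ (n - 1 - 1)) := by ring
      _ ≤ ‖a‖ * ‖aeval a (derivative Q)‖ := by
        exact mul_le_mul h4 h2 (by positivity) (norm_nonneg _)
  · refine le_trans ?_ (ext_core h0 h1 hc h hn1 hP hP0 ha haP)
    have : x₀ ^ 2 * c ≤ x₀ * c := by nlinarith [mul_pos h0 hc]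
    exact mul_le_mul_of_nonneg_right this (by positivity)

end ext

end Pool.Agent.Helper41.RS
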