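import Mathlib

/-!
# MP_418077_nt, pairs with a root of bounded degree: the Mahler measure of a factor

A factor of degree `k` of an integer polynomial of height at most `H` has Mahler measure at most
`e * H * (k + 1)`.
-/

set_option autoImplicit false

namespace Pool.Agent.Helper41.RS

open Polynomial Finset

lemma mahler_le_comp (f : ℂ[X]) {ρ : ℝ} (hρ : 1 ≤ ρ) :
    f.mahlerMeasure ≤ (f.comp (C (ρ : ℂ) * X)).mahlerMeasure := by
  have hρ0 : (ρ : ℂ) ≠ 0 := by
    intro h
    have : ρ = 0 := by exact_mod_cast h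
    linarith
  have hf := (IsAlgClosed.splits f).eq_prod_roots
  have h1 : (f.comp (C (ρ : ℂ) * X)).mahlerMeasure =
      ‖f.leadingCoeff‖ * (f.roots.map fun a => max ρ ‖a‖).prod := by
    conv_lhs => rw [hf]
    rw [mul_comp, C_comp, mahlerMeasure_mul, mahlerMeasure_const, multiset_prod_comp,
      prod_mahlerMeasure_eq_mahlerMeasure_prod, Multiset.map_map, Multiset.map_map]
    congr 2
    refine Multiset.map_congr rfl fun a _ => ?_
    simp only [Function.comp]
    have h2 : (X - C a).comp (C (ρ : ℂ) * X) = C (ρ : ℂ) * X + C (-a) := by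
      rw [sub_comp, X_comp, C_comp, C_neg, sub_eq_add_neg]
    rw [h2, mahlerMeasure_C_mul_X_add_C hρ0, norm_neg, Complex.norm_real,
      Real.norm_of_nonneg (by linarith)]
  rw [h1, mahlerMeasure_eq_leadingCoeff_mul_prod_roots]
  refine mul_le_mul_of_nonneg_left ?_ (norm_nonneg _)
  refine Multiset.prod_map_le_prod_map₀ _ _ (fun a _ => ?_) fun a _ => ?_
  · positivity
  · exact max_le_max hρ le_rfl

lemma comp_lower (g : ℂ[X]) {ρ : ℝ} (hρ : 1 ≤ ρ) :
    ‖g.leadingCoeff‖ * ρ ^ g.natDegree ≤ (g.comp (C (ρ : ℂ) * X)).mahlerMeasure := by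
  have hρ0 : (ρ : ℂ) ≠ 0 := by
    intro h
    have : ρ = 0 := by exact_mod_cast h
    linarith
  have h1 : (C (ρ : ℂ) * X : ℂ[X]).natDegree = 1 := natDegree_C_mul_X _ hρ0
  refine le_trans (le_of_eq ?_) (leadingCoeff_le_mahlerMeasure _)
  rw [leadingCoeff_comp (by rw [h1]; exact one_ne_zero), leadingCoeff_C_mul_X, norm_mul, norm_pow,
    Complex.norm_real, Real.norm_of_nonneg (by linarith)]

lemma comp_upper (p : ℂ[X]) (n : ℕ) (hn : p.natDegree ≤ n) {H : ℝ} (hH : ∀ i, ‖p.coeff i‖ ≤ H)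
    {ρ : ℝ} (hρ : 1 < ρ) :
    (p.comp (C (ρ : ℂ) * X)).mahlerMeasure ≤ H * (ρ ^ (n + 1) / (ρ - 1)) := by
  have hH0 : 0 ≤ H := (norm_nonneg _).trans (hH 0)
  have hdeg : (p.comp (C (ρ : ℂ) * X)).natDegree < n + 1 := by
    refine lt_of_le_of_lt natDegree_comp_le ?_
    have : (C (ρ : ℂ) * X : ℂ[X]).natDegree ≤ 1 := (natDegree_C_mul_le _ _).trans natDegree_X_le
    calc p.natDegree * (C (ρ : ℂ) * X : ℂ[X]).natDegree ≤ p.natDegree * 1 :=
          Nat.mul_le_mul_left _ this
      _ < n + 1 := by omega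
  refine (mahlerMeasure_le_sum_norm_coeff _).trans ?_
  rw [sum_over_range' _ (fun i => by rw [norm_zero]) (n + 1) hdeg]
  have h1 : ∀ i ∈ range (n + 1), ‖(p.comp (C (ρ : ℂ) * X)).coeff i‖ ≤ H * ρ ^ i := by
    intro i _
    rw [comp_C_mul_X_coeff, norm_mul, norm_pow, Complex.norm_real,
      Real.norm_of_nonneg (by linarith)]
    exact mul_le_mul_of_nonneg_right (hH i) (by positivity)
  refine (Finset.sum_le_sum h1).trans ?_
  rw [← Finset.mul_sum]
  refine mul_le_mul_of_nonneg_left ?_ hH0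
  rw [geom_sum_eq hρ.ne']
  refine div_le_div_of_nonneg_right (by linarith) (by linarith)

/-- A factor of degree `k ≥ 1` of an integer polynomial with coefficients at most `H` has Mahler
measure at most `e H (k + 1)`. -/
theorem mahler_factor {P f : ℤ[X]} (hP : P ≠ 0) (hf : f ∣ P) {H : ℕ}
    (hH : ∀ i, (P.coeff i).natAbs ≤ H) (hk : 1 ≤ f.natDegree) :
    (f.map (Int.castRingHom ℂ)).mahlerMeasure ≤ Real.exp 1 * H * (f.natDegree + 1) := by
  obtain ⟨g, rfl⟩ := hf
  have hf0 : f ≠ 0 := left_ne_zero_of_mul hP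
  have hg0 : g ≠ 0 := right_ne_zero_of_mul hP
  have hinj : Function.Injective (Int.castRingHom ℂ) := RingHom.injective_int _
  set k : ℕ := f.natDegree with hkdef
  set φ := Int.castRingHom ℂ
  have hk0 : (0 : ℝ) < k := by exact_mod_cast hk
  set ρ : ℝ := 1 + 1 / k with hρdef
  have hρ1 : 1 < ρ := by
    rw [hρdef]
    have : 0 < 1 / (k : ℝ) := by positivity
    linarith
  have hρ0 : 0 < ρ := by linarith
  have e1 : ((f * g).map φ).natDegree = k + g.natDegree := by
    rw [natDegree_map_eq_of_injective hinj, natDegree_mul hf0 hg0]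
  have e2 := comp_upper ((f * g).map φ) (k + g.natDegree) e1.le (H := H) (fun i => by
    rw [coeff_map]
    have h1 := hH i
    have h2 : ‖φ ((f * g).coeff i)‖ = (((f * g).coeff i).natAbs : ℝ) := by
      rw [eq_intCast, Complex.norm_intCast, Nat.cast_natAbs, Int.cast_abs]
    rw [h2]
    exact_mod_cast h1) hρ1
  rw [Polynomial.map_mul, mul_comp, mahlerMeasure_mul] at e2
  have e3 := mahler_le_comp (f.map φ) hρ1.le
  have e4 := comp_lower (g.map φ) hρ1.le
  rw [natDegree_map_eq_of_injective hinj, leadingCoeff_map_of_injective hinj] at e4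
  have e5 : (1 : ℝ) ≤ ‖φ g.leadingCoeff‖ := by
    have h1 : g.leadingCoeff ≠ 0 := leadingCoeff_ne_zero.2 hg0
    rw [eq_intCast, Complex.norm_intCast]
    exact_mod_cast Int.one_le_abs h1
  have e6 : ρ ^ g.natDegree ≤ ((g.map φ).comp (C (ρ : ℂ) * X)).mahlerMeasure := by
    refine le_trans ?_ e4
    nlinarith [pow_pos hρ0 g.natDegree]
  have e7 : (f.map φ).mahlerMeasure * ρ ^ g.natDegree ≤
      H * (ρ ^ (k + g.natDegree + 1) / (ρ - 1)) := by
    refine le_trans ?_ e2
    exact mul_le_mul e3 e6 (by positivity) (mahlerMeasure_nonneg _)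
  have e8 : H * (ρ ^ (k + g.natDegree + 1) / (ρ - 1)) =
      H * (ρ ^ (k + 1) / (ρ - 1)) * ρ ^ g.natDegree := by
    have : ρ ^ (k + g.natDegree + 1) = ρ ^ (k + 1) * ρ ^ g.natDegree := by
      rw [← pow_add]
      congr 1
      ring
    rw [this]
    ring
  rw [e8] at e7
  have e9 : (f.map φ).mahlerMeasure ≤ H * (ρ ^ (k + 1) / (ρ - 1)) :=
    le_of_mul_le_mul_right e7 (by positivity)
  refine e9.trans ?_
  have e10 : ρ ^ (k + 1) / (ρ - 1) = ρ ^ k * (k + 1) := by
    have h1 : ρ - 1 = 1 / k := by rw [hρdef]; ring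
    rw [h1, pow_succ]
    have h2 : ρ * k = k + 1 := by
      rw [hρdef]
      field_simp
    field_simp
    linarith
  have e11 : ρ ^ k ≤ Real.exp 1 := by
    have h1 : ρ ≤ Real.exp (1 / k) := by
      rw [hρdef, add_comm]
      exact Real.add_one_le_exp _
    calc ρ ^ k ≤ Real.exp (1 / k) ^ k := pow_le_pow_left₀ hρ0.le h1 k
      _ = Real.exp 1 := by
        rw [← Real.exp_nat_mul]
        congr 1
        field_simp
  rw [e10]
  have hH0 : (0 : ℝ) ≤ H := Nat.cast_nonneg _
  calc (H : ℝ) * (ρ ^ k * (k + 1)) ≤ H * (Real.exp 1 * (k + 1)) := by gcongr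
    _ = Real.exp 1 * H * (k + 1) := by ring

end Pool.Agent.Helper41.RS
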