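import Mathlib

/-!
# MP_418077_nt, pairs with a root of bounded degree: the root of `X ^ N - G` near a root of `G`
-/

set_option autoImplicit false

namespace Pool.Agent.Helper41.RS

open Filter Topology Set

/-- Near a simple zero `x₀` in `(0, 1)` of `g` there is a solution of `x ^ N = g x` at distance
`O(x₀ ^ N)`. -/
theorem exists_near (g : ℝ → ℝ) (hg : Continuous g) {x₀ d : ℝ} (h0 : 0 < x₀) (h1 : x₀ < 1)
    (hx : g x₀ = 0) (hd : HasDerivAt g d x₀) (hd0 : d ≠ 0) :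
    ∃ C : ℝ, 0 < C ∧ ∀ᶠ N : ℕ in atTop, ∃ x : ℝ, x ≠ x₀ ∧ |x - x₀| ≤ C * x₀ ^ N ∧ x ^ N = g x := by
  set s : ℝ := if 0 < d then 1 else -1 with hs
  have hsd : s * d = |d| := by
    rw [hs]
    split_ifs with h
    · rw [one_mul, abs_of_pos h]
    · rw [abs_of_neg (lt_of_le_of_ne (not_lt.1 h) hd0)]
      ring
  have hs1 : |s| = 1 := by
    rw [hs]
    split_ifs <;> simp
  have hd1 : 0 < |d| := abs_pos.2 hd0
  set C : ℝ := 4 / |d| with hC
  have hC0 : 0 < C := by positivity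
  refine ⟨C, hC0, ?_⟩
  have hev : ∀ᶠ y in 𝓝 x₀, |g y - d * (y - x₀)| ≤ |d| / 2 * |y - x₀| := by
    have h2 := (hasDerivAt_iff_isLittleO.1 hd).def (by positivity : 0 < |d| / 2)
    filter_upwards [h2] with y hy
    rw [hx, sub_zero, smul_eq_mul, Real.norm_eq_abs, Real.norm_eq_abs] at hy
    rwa [mul_comm d]
  have ht : Tendsto (fun N : ℕ => x₀ + s * (C * x₀ ^ N)) atTop (𝓝 x₀) := by
    have h2 := ((tendsto_pow_atTop_nhds_zero_of_lt_one h0.le h1).const_mul (s * C)).const_add x₀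
    rw [mul_zero, add_zero] at h2
    refine h2.congr fun N => ?_
    ring
  have ht2 : Tendsto (fun N : ℕ => (N : ℝ) * (C * x₀ ^ (N - 1))) atTop (𝓝 0) := by
    rw [← tendsto_add_atTop_iff_nat 1]
    have e1 := (tendsto_self_mul_const_pow_of_lt_one h0.le h1).const_mul C
    have e2 := (tendsto_pow_atTop_nhds_zero_of_lt_one h0.le h1).const_mul C
    have e3 := e1.add e2
    rw [mul_zero, add_zero] at e3
    refine e3.congr fun N => ?_
    rw [Nat.add_sub_cancel]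
    push_cast
    ring
  have hlog : (0 : ℝ) < Real.log 2 := Real.log_pos (by norm_num)
  have hpos : ∀ᶠ N : ℕ in atTop, 0 < x₀ + s * (C * x₀ ^ N) := ht.eventually (lt_mem_nhds h0)
  filter_upwards [ht.eventually hev, ht2.eventually (gt_mem_nhds hlog), hpos,
    eventually_gt_atTop 0] with N hN1 hN2 hN3 hN0
  have hxN : 0 < x₀ ^ N := by positivity
  set y : ℝ := x₀ + s * (C * x₀ ^ N) with hy
  have hyx : y - x₀ = s * (C * x₀ ^ N) := by
    rw [hy]
    ring
  have habs : |y - x₀| = C * x₀ ^ N := by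
    rw [hyx, abs_mul, hs1, one_mul, abs_of_pos (by positivity)]
  -- g y is at least 2 x₀ ^ N
  have h2 : 2 * x₀ ^ N ≤ g y := by
    rw [habs, hyx] at hN1
    have h3 := (abs_le.1 hN1).1
    have h4 : d * (s * (C * x₀ ^ N)) = |d| * (C * x₀ ^ N) := by
      rw [← hsd]
      ring
    have h5 : |d| * C = 4 := by
      rw [hC]
      field_simp
    have h6 : |d| * (C * x₀ ^ N) = 4 * x₀ ^ N := by
      rw [← mul_assoc, h5]
    have h7 : |d| / 2 * (C * x₀ ^ N) = 2 * x₀ ^ N := by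
      have : |d| / 2 * (C * x₀ ^ N) = (|d| * C) * x₀ ^ N / 2 := by ring
      rw [this, h5]
      ring
    rw [h4, h6, h7] at h3
    linarith
  have h3 : y ^ N < 2 * x₀ ^ N := by
    have h4 : y ≤ x₀ * (1 + C * x₀ ^ (N - 1)) := by
      have h5 : x₀ * (1 + C * x₀ ^ (N - 1)) = x₀ + C * x₀ ^ N := by
        obtain ⟨j, rfl⟩ : ∃ j, N = j + 1 := ⟨N - 1, by omega⟩
        rw [Nat.add_sub_cancel, pow_succ]
        ring
      rw [h5, hy]
      have h6 : s ≤ 1 := (le_abs_self s).trans hs1.le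
      have h7 : 0 ≤ C * x₀ ^ N := by positivity
      nlinarith
    have h5 : 1 + C * x₀ ^ (N - 1) ≤ Real.exp (C * x₀ ^ (N - 1)) := by
      rw [add_comm]
      exact Real.add_one_le_exp _
    calc y ^ N ≤ (x₀ * (1 + C * x₀ ^ (N - 1))) ^ N := pow_le_pow_left₀ hN3.le h4 N
      _ = (1 + C * x₀ ^ (N - 1)) ^ N * x₀ ^ N := by rw [mul_pow, mul_comm]
      _ ≤ Real.exp (C * x₀ ^ (N - 1)) ^ N * x₀ ^ N := by
        gcongr
      _ = Real.exp (N * (C * x₀ ^ (N - 1))) * x₀ ^ N := by rw [Real.exp_nat_mul]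
      _ < 2 * x₀ ^ N := by
        refine mul_lt_mul_of_pos_right ?_ hxN
        rwa [← Real.lt_log_iff_exp_lt (by norm_num)]
  have hcont : ContinuousOn (fun x : ℝ => x ^ N - g x) (uIcc x₀ y) :=
    (by fun_prop : Continuous fun x : ℝ => x ^ N - g x).continuousOn
  have hmem : (0 : ℝ) ∈ uIcc (x₀ ^ N - g x₀) (y ^ N - g y) := by
    rw [hx, sub_zero]
    exact mem_uIcc.2 (Or.inr ⟨by linarith, hxN.le⟩)
  obtain ⟨x, hx1, hx2⟩ := intermediate_value_uIcc hcont hmem
  refine ⟨x, ?_, ?_, ?_⟩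
  · rintro rfl
    simp only [hx, sub_zero] at hx2
    exact hxN.ne' hx2
  · rw [← habs]
    exact abs_sub_left_of_mem_uIcc hx1
  · simp only at hx2
    linarith

end Pool.Agent.Helper41.RS
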