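import Mathlib

/-!
# MP_418077_nt, pairs with a root of bounded degree: `X ^ n - G` has no double roots

For a complex polynomial `G` with `G(0) ≠ 0` whose zeros in the open unit disc are simple the
polynomial `X ^ n - G` has only simple roots for all large `n`.
-/

set_option autoImplicit false

namespace Pool.Agent.Helper41.RS

open Polynomial Filter Topology

/-- Inside a disc of radius less than one there is no double root. -/
lemma no_double_inside (G : ℂ[X])
    (hG : ∀ z : ℂ, ‖z‖ < 1 → G.eval z = 0 → (derivative G).eval z ≠ 0)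
    {ρ : ℝ} (hρ0 : 0 ≤ ρ) (hρ : ρ < 1) :
    ∀ᶠ N : ℕ in atTop, ∀ z : ℂ, ‖z‖ ≤ ρ → z ^ N = G.eval z →
      (N : ℂ) * z ^ (N - 1) = (derivative G).eval z → False := by
  have hcont : ContinuousOn (fun z : ℂ => ‖G.eval z‖ + ‖(derivative G).eval z‖)
      (Metric.closedBall 0 ρ) :=
    ((G.continuous.norm).add ((derivative G).continuous.norm)).continuousOn
  obtain ⟨z₀, hz₀, hmin⟩ := (isCompact_closedBall (0 : ℂ) ρ).exists_isMinOn
    ⟨0, Metric.mem_closedBall_self hρ0⟩ hcont
  set c : ℝ := ‖G.eval z₀‖ + ‖(derivative G).eval z₀‖ with hc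
  have hc0 : 0 < c := by
    rw [mem_closedBall_zero_iff] at hz₀
    by_cases h : G.eval z₀ = 0
    · have := norm_pos_iff.2 (hG z₀ (by linarith) h)
      have := norm_nonneg (G.eval z₀)
      linarith
    · have := norm_pos_iff.2 h
      have := norm_nonneg ((derivative G).eval z₀)
      linarith
  have h1 : Tendsto (fun N : ℕ => ρ ^ N) atTop (𝓝 0) :=
    tendsto_pow_atTop_nhds_zero_of_lt_one hρ0 hρ
  have h2 : Tendsto (fun N : ℕ => (N : ℝ) * ρ ^ (N - 1)) atTop (𝓝 0) := by
    rw [← tendsto_add_atTop_iff_nat 1]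
    have e1 := tendsto_self_mul_const_pow_of_lt_one hρ0 hρ
    have e3 := e1.add h1
    rw [add_zero] at e3
    refine e3.congr fun N => ?_
    rw [Nat.add_sub_cancel]
    push_cast
    ring
  have h3 := (h1.add h2)
  rw [add_zero] at h3
  filter_upwards [h3.eventually (gt_mem_nhds hc0)] with N hN z hz e1 e2
  have hz1 : z ∈ Metric.closedBall (0 : ℂ) ρ := by
    rwa [mem_closedBall_zero_iff]
  have h4 : c ≤ ‖G.eval z‖ + ‖(derivative G).eval z‖ := hmin hz1
  rw [← e1, ← e2, norm_mul, norm_pow, norm_pow, Complex.norm_natCast] at h4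
  have h5 : ‖z‖ ^ N ≤ ρ ^ N := pow_le_pow_left₀ (norm_nonneg _) hz N
  have h6 : (N : ℝ) * ‖z‖ ^ (N - 1) ≤ N * ρ ^ (N - 1) :=
    mul_le_mul_of_nonneg_left (pow_le_pow_left₀ (norm_nonneg _) hz _) (Nat.cast_nonneg _)
  linarith

/-- There is no double root near a given root of `G` in a certain direction. -/
lemma no_double_near (G : ℂ[X])
    (hG : ∀ z : ℂ, ‖z‖ < 1 → G.eval z = 0 → (derivative G).eval z ≠ 0) {D : ℝ} (hD : 0 < D)
    {w : ℂ} (hw : G.eval w = 0) :
    ∀ᶠ N : ℕ in atTop, ∀ z : ℂ, z ≠ w → (N : ℝ) / D ≤ (z / (z - w)).re → z ^ N = G.eval z →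
      (N : ℂ) * z ^ (N - 1) = (derivative G).eval z → False := by
  have hND : Tendsto (fun N : ℕ => (N : ℝ) / D) atTop atTop :=
    tendsto_natCast_atTop_atTop.atTop_div_const hD
  -- the basic estimates
  have key : ∀ (K : ℝ) (z : ℂ), 2 ≤ K → z ≠ w → K ≤ (z / (z - w)).re →
      ‖w‖ < ‖z‖ ∧ ‖z - w‖ * K ≤ ‖z‖ := by
    intro K z hK hzw hre
    have hu : 0 < ‖z - w‖ := norm_pos_iff.2 (sub_ne_zero.2 hzw)
    have h1 : ‖z - w‖ * K ≤ ‖z‖ := by
      have h2 : K ≤ ‖z / (z - w)‖ := hre.trans (Complex.re_le_norm _)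
      rw [norm_div, le_div_iff₀ hu] at h2
      linarith
    refine ⟨?_, h1⟩
    have h3 : z * (starRingEnd ℂ) (z - w) = (z / (z - w)) * ((‖z - w‖ ^ 2 : ℝ) : ℂ) := by
      have h4 : (z - w) * (starRingEnd ℂ) (z - w) = ((‖z - w‖ ^ 2 : ℝ) : ℂ) := by
        rw [Complex.mul_conj, Complex.normSq_eq_norm_sq]
      rw [← h4]
      field_simp [sub_ne_zero.2 hzw]
    have h5 : (z * (starRingEnd ℂ) (z - w)).re = (z / (z - w)).re * ‖z - w‖ ^ 2 := by
      rw [h3, Complex.re_mul_ofReal]
    have h6 : ‖w‖ ^ 2 = ‖z‖ ^ 2 - 2 * (z * (starRingEnd ℂ) (z - w)).re + ‖z - w‖ ^ 2 := by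
      rw [← Complex.normSq_eq_norm_sq, ← Complex.normSq_eq_norm_sq, ← Complex.normSq_eq_norm_sq,
        Complex.normSq_apply, Complex.normSq_apply, Complex.normSq_apply]
      simp only [Complex.mul_re, Complex.conj_re, Complex.conj_im, Complex.sub_re, Complex.sub_im]
      ring
    have h7 : K * ‖z - w‖ ^ 2 ≤ (z * (starRingEnd ℂ) (z - w)).re := by
      rw [h5]
      exact mul_le_mul_of_nonneg_right hre (by positivity)
    have h8 : ‖w‖ ^ 2 < ‖z‖ ^ 2 := by nlinarith [pow_pos hu 2]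
    exact lt_of_pow_lt_pow_left₀ 2 (norm_nonneg _) h8
  rcases lt_or_ge ‖w‖ 1 with hw1 | hw1
  · -- a root inside the unit disc
    set ρ : ℝ := (1 + ‖w‖) / 2 with hρdef
    have hρ0 : 0 < ρ := by
      rw [hρdef]
      positivity
    have hρ1 : ρ < 1 := by
      rw [hρdef]
      linarith
    have hwρ : ‖w‖ < ρ := by
      rw [hρdef]
      linarith
    filter_upwards [no_double_inside G hG hρ0.le hρ1, hND.eventually_ge_atTop 2,
      hND.eventually_ge_atTop (ρ / (ρ - ‖w‖))] with N hN hN2 hN3 z hzw hre e1 e2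
    refine hN z ?_ e1 e2
    obtain ⟨-, h1⟩ := key _ z hN2 hzw hre
    by_contra hcon
    rw [not_le] at hcon
    have h2 : ‖z‖ ≤ ‖w‖ + ‖z - w‖ := by
      have := norm_sub_norm_le z w
      linarith
    have h3 : 0 < ρ - ‖w‖ := by linarith
    rw [div_le_iff₀ h3] at hN3
    set K : ℝ := (N : ℝ) / D
    have hK : 0 < K := by linarith
    -- ‖z‖ (K - 1) ≤ K ‖w‖
    have h4 : ‖z‖ * (K - 1) ≤ K * ‖w‖ := by nlinarith
    have h5 : ρ * (K - 1) < K * ‖w‖ := by nlinarith
    nlinarith
  · -- a root outside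
    have hcont : ∀ᶠ z in 𝓝 w, ‖G.eval z‖ < 1 := by
      have h1 : ContinuousAt (fun z => ‖G.eval z‖) w := (G.continuous.norm).continuousAt
      have h2 : ‖G.eval w‖ < 1 := by
        rw [hw, norm_zero]
        exact one_pos
      exact h1.eventually (gt_mem_nhds h2)
    obtain ⟨δ, hδ, hball⟩ := Metric.eventually_nhds_iff.1 hcont
    filter_upwards [hND.eventually_ge_atTop 2, hND.eventually_gt_atTop (2 * ‖w‖ / δ),
      eventually_gt_atTop 0] with N hN2 hN3 hN4 z hzw hre e1 e2
    obtain ⟨h0', h1⟩ := key _ z hN2 hzw hre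
    have h2 : ‖z‖ ≤ ‖w‖ + ‖z - w‖ := by
      have := norm_sub_norm_le z w
      linarith
    set K : ℝ := (N : ℝ) / D
    have h3 : ‖z‖ ≤ 2 * ‖w‖ := by nlinarith [norm_nonneg (z - w)]
    have h4 : ‖z - w‖ < δ := by
      rw [div_lt_iff₀ hδ] at hN3
      have h5 : ‖z - w‖ * K < δ * K := by linarith
      exact lt_of_mul_lt_mul_right h5 (by linarith)
    have h5 := hball (by rw [dist_eq_norm]; exact h4 : dist z w < δ)
    have h6 : 1 < ‖z‖ := lt_of_le_of_lt hw1 h0'
    have h7 : 1 < ‖z‖ ^ N := one_lt_pow₀ h6 hN4.ne'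
    rw [← e1, norm_pow] at h5
    linarith

/-- For all large `N` the polynomial `X ^ N - G` has no double root. -/
theorem no_double (G : ℂ[X])
    (hG : ∀ z : ℂ, ‖z‖ < 1 → G.eval z = 0 → (derivative G).eval z ≠ 0) (h0 : G.eval 0 ≠ 0) :
    ∀ᶠ N : ℕ in atTop, ∀ z : ℂ, z ^ N = G.eval z →
      (N : ℂ) * z ^ (N - 1) = (derivative G).eval z → False := by
  classical
  have hG0 : G ≠ 0 := by
    rintro rfl
    exact h0 eval_zero
  set D : ℝ := (G.roots.card : ℝ) + 1 with hD
  have hD0 : 0 < D := by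
    rw [hD]
    positivity
  have h1 : ∀ᶠ N : ℕ in atTop, ∀ w ∈ G.roots.toFinset, ∀ z : ℂ, z ≠ w →
      (N : ℝ) / D ≤ (z / (z - w)).re → z ^ N = G.eval z →
      (N : ℂ) * z ^ (N - 1) = (derivative G).eval z → False := by
    refine (Finset.eventually_all _).2 fun w hw => ?_
    rw [Multiset.mem_toFinset, mem_roots hG0] at hw
    exact no_double_near G hG hD0 hw
  filter_upwards [h1, eventually_gt_atTop 0] with N hN hN0 z e1 e2
  have hz0 : z ≠ 0 := by
    rintro rfl
    rw [zero_pow hN0.ne'] at e1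
    exact h0 e1.symm
  have hGz : G.eval z ≠ 0 := by
    rw [← e1]
    exact pow_ne_zero _ hz0
  have h2 := (IsAlgClosed.splits G).eval_derivative_eq_eval_mul_sum hGz
  have h3 : (G.roots.map fun w => z / (z - w)).sum = (N : ℂ) := by
    have h4 : z * (derivative G).eval z = N * G.eval z := by
      rw [← e2, ← e1]
      obtain ⟨j, rfl⟩ : ∃ j, N = j + 1 := ⟨N - 1, by omega⟩
      rw [Nat.add_sub_cancel, pow_succ]
      ring
    rw [h2] at h4
    have h5 : z * (G.roots.map fun w => 1 / (z - w)).sum = N := by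
      have h6 : G.eval z * (z * (G.roots.map fun w => 1 / (z - w)).sum) = G.eval z * N := by
        linear_combination h4
      exact mul_left_cancel₀ hGz h6
    rw [← Multiset.sum_map_mul_left] at h5
    rw [← h5]
    congr 1
    refine Multiset.map_congr rfl fun w _ => ?_
    ring
  have h4 : (G.roots.map fun w => (z / (z - w)).re).sum = (N : ℝ) := by
    have := congrArg Complex.re h3
    rw [Complex.natCast_re] at this
    rw [← this]
    have e := map_multiset_sum Complex.reAddGroupHom (G.roots.map fun w => z / (z - w))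
    rw [Multiset.map_map] at e
    exact e.symm
  by_contra hcon
  have h5 : ∀ w ∈ G.roots, (z / (z - w)).re ≤ (N : ℝ) / D := by
    intro w hw
    by_contra h6
    rw [not_le] at h6
    have hzw : z ≠ w := by
      rintro rfl
      exact hGz (isRoot_of_mem_roots hw)
    exact hN w (Multiset.mem_toFinset.2 hw) z hzw h6.le e1 e2
  have h6 : (G.roots.map fun w => (z / (z - w)).re).sum ≤
      (G.roots.map fun _ => (N : ℝ) / D).sum := Multiset.sum_map_le_sum_map _ _ h5
  rw [h4, Multiset.map_const', Multiset.sum_replicate, nsmul_eq_mul] at h6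
  have h7 : (0 : ℝ) < N := by exact_mod_cast hN0
  have h8 : (G.roots.card : ℝ) * ((N : ℝ) / D) < N := by
    have h9 : (G.roots.card : ℝ) = D - 1 := by rw [hD]; ring
    rw [h9, sub_mul, mul_div_cancel₀ _ hD0.ne', one_mul]
    have : 0 < (N : ℝ) / D := by positivity
    linarith
  linarith

end Pool.Agent.Helper41.RS
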