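import Pool.Agent.Helper41.RS.Defs
import Pool.Agent.Helper41.RS.Sepl
import Pool.Agent.Helper41.RS.Near

/-!
# MP_418077_nt, pairs with a root of bounded degree: the families `A (X ^ N - A S)`
-/

set_option autoImplicit false

namespace Pool.Agent.Helper41.RS

open Polynomial Filter Topology

lemma aeval_ofReal (P : ℤ[X]) (x : ℝ) : aeval (x : ℂ) P = ((aeval x P : ℝ) : ℂ) :=
  aeval_algebraMap_apply ℂ x P

lemma coeff_fam (A G : ℤ[X]) (N i : ℕ) (hN : (A * G).natDegree < N) :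
    (A * (X ^ N - G)).coeff i = if i < N then -(A * G).coeff i else A.coeff (i - N) := by
  rw [mul_sub, coeff_sub, coeff_mul_X_pow']
  split_ifs with h1 h2 h2
  · omega
  · rw [coeff_eq_zero_of_natDegree_lt (p := A * G) (by omega), sub_zero]
  · rw [zero_sub]
  · omega

/-- The family attached to `A`, `S` and a root `x₀` of `A`. -/
theorem family (A S : ℤ[X]) (h : ℕ) {x₀ : ℝ} (h0 : 0 < x₀) (h1 : x₀ < 1) (hA : aeval x₀ A = 0)
    (hA0 : A.coeff 0 ≠ 0) (hS0 : S.coeff 0 ≠ 0) (hht : height A ≤ h)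
    (hht2 : height (A * (A * S)) ≤ h)
    (hG : ∀ z : ℂ, ‖z‖ < 1 → aeval z (A * S) = 0 → aeval z (derivative (A * S)) ≠ 0)
    (hAs : ∀ z : ℂ, aeval z A = 0 → aeval z (derivative A) ≠ 0) :
    ∃ C : ℝ, 0 < C ∧ ∀ᶠ n : ℕ in atTop, ∃ P ∈ Sepa n h,
      P.leadingCoeff = A.leadingCoeff ∧ P.coeff 0 = -(A * (A * S)).coeff 0 ∧
      aeval (x₀ : ℂ) P = 0 ∧
      ∃ x : ℝ, x ≠ x₀ ∧ aeval (x : ℂ) P = 0 ∧ |x - x₀| ≤ C * x₀ ^ n := by
  have hA1 : A ≠ 0 := by
    rintro rfl
    exact hA0 (coeff_zero _)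
  have hS1 : S ≠ 0 := by
    rintro rfl
    exact hS0 (coeff_zero _)
  set G : ℤ[X] := A * S with hGdef
  have hG0 : G.coeff 0 ≠ 0 := by
    rw [hGdef, mul_coeff_zero]
    exact mul_ne_zero hA0 hS0
  have hinj : Function.Injective (algebraMap ℤ ℂ) := RingHom.injective_int _
  have hev0 : ∀ Q : ℤ[X], aeval (0 : ℂ) Q = ((Q.coeff 0 : ℤ) : ℂ) := by
    intro Q
    rw [aeval_def, eval₂_at_zero]
    rfl
  -- the complex polynomial
  set Gc : ℂ[X] := G.map (algebraMap ℤ ℂ) with hGc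
  have hGe : ∀ z : ℂ, Gc.eval z = aeval z G := fun z => eval_map_algebraMap _ _
  have hGe' : ∀ z : ℂ, (derivative Gc).eval z = aeval z (derivative G) := by
    intro z
    rw [hGc, derivative_map, eval_map_algebraMap]
  have hsep := no_double Gc (fun z hz hz0 => by
    rw [hGe'] 
    rw [hGe] at hz0
    exact hG z hz hz0) (by
    rw [hGe, hev0]
    exact_mod_cast hG0)
  -- the nearby root
  have hGx : aeval x₀ G = 0 := by rw [hGdef, map_mul, hA, zero_mul]
  have hd0 : aeval x₀ (derivative G) ≠ 0 := by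
    intro hc
    have e1 : ‖(x₀ : ℂ)‖ < 1 := by
      rw [Complex.norm_real, Real.norm_of_nonneg h0.le]
      exact h1
    refine hG x₀ e1 ?_ ?_
    · rw [aeval_ofReal, hGx, Complex.ofReal_zero]
    · rw [aeval_ofReal, hc, Complex.ofReal_zero]
  obtain ⟨C, hC0, hC⟩ := exists_near (fun x : ℝ => aeval x G) (Polynomial.continuous_aeval G) h0 h1
    hGx (G.hasDerivAt_aeval x₀) hd0
  set d : ℕ := A.natDegree with hd
  refine ⟨C / x₀ ^ d, by positivity, ?_⟩
  have htend : Tendsto (fun n : ℕ => n - d) atTop atTop := tendsto_sub_atTop_nat d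
  filter_upwards [htend.eventually hsep, htend.eventually hC, eventually_ge_atTop d,
    htend.eventually (eventually_gt_atTop (A * G).natDegree)] with n hn1 hn2 hn3 hn4
  obtain ⟨N, rfl⟩ : ∃ N, n = N + d := ⟨n - d, by omega⟩
  rw [Nat.add_sub_cancel] at hn1 hn2 hn4
  have hG1 : G ≠ 0 := mul_ne_zero hA1 hS1
  have hGN : G.natDegree < N := by
    rw [natDegree_mul hA1 hG1] at hn4
    omega
  have hN0 : 0 < N := by omega
  set Q : ℤ[X] := X ^ N - G with hQ
  have hQdeg : Q.natDegree = N := by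
    rw [hQ, natDegree_sub_eq_left_of_natDegree_lt] <;> rw [natDegree_X_pow]
    exact hGN
  have hQmonic : Q.Monic := by
    rw [Monic, leadingCoeff, hQdeg, hQ, coeff_sub, coeff_X_pow, if_pos rfl,
      coeff_eq_zero_of_natDegree_lt hGN, sub_zero]
  have hQ0 : Q ≠ 0 := hQmonic.ne_zero
  have hP0 : A * Q ≠ 0 := mul_ne_zero hA1 hQ0
  have hQe : ∀ z : ℂ, aeval z Q = z ^ N - aeval z G := fun z => by
    rw [hQ, map_sub, map_pow, aeval_X]
  have hQe' : ∀ z : ℂ, aeval z (derivative Q) = N * z ^ (N - 1) - aeval z (derivative G) := by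
    intro z
    rw [hQ, derivative_sub, derivative_X_pow, map_sub, map_mul, map_pow, aeval_X]
    simp
  have hzero : ∀ z : ℂ, aeval z G = 0 → z ≠ 0 := by
    rintro z hz rfl
    rw [hev0] at hz
    exact hG0 (by exact_mod_cast hz)
  refine ⟨A * Q, ⟨?_, ?_, ?_⟩, ?_, ?_, ?_, ?_⟩
  · rw [natDegree_mul hA1 hQ0, hQdeg, add_comm]
  · refine height_le fun i => ?_
    rw [hQ, coeff_fam A G N i hn4]
    split_ifs with hi
    · rw [Int.natAbs_neg]
      exact (natAbs_coeff_le _ _).trans hht2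
    · exact (natAbs_coeff_le _ _).trans hht
  · refine nodup_of_deriv hP0 fun z hz => ?_
    rw [derivative_mul, map_add, map_mul, map_mul]
    rw [map_mul, mul_eq_zero] at hz
    rcases hz with hz | hz
    · have e1 : aeval z G = 0 := by rw [hGdef, map_mul, hz, zero_mul]
      rw [hz, zero_mul, add_zero, hQe, e1, sub_zero]
      exact mul_ne_zero (hAs z hz) (pow_ne_zero _ (hzero z e1))
    · have e2 : aeval z A ≠ 0 := by
        intro e3
        have e1 : aeval z G = 0 := by rw [hGdef, map_mul, e3, zero_mul]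
        rw [hQe, e1, sub_zero] at hz
        exact pow_ne_zero _ (hzero z e1) hz
      rw [hz, mul_zero, zero_add]
      refine mul_ne_zero e2 ?_
      rw [hQe']
      intro e4
      rw [hQe] at hz
      refine hn1 z ?_ ?_
      · rw [hGe]
        linear_combination hz
      · rw [hGe']
        linear_combination e4
  · rw [leadingCoeff_mul, hQmonic, mul_one]
  · rw [hQ, coeff_fam A G N 0 hn4, if_pos hN0]
  · rw [map_mul, aeval_ofReal, hA, Complex.ofReal_zero, zero_mul]
  · obtain ⟨x, hx1, hx2, hx3⟩ := hn2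
    refine ⟨x, hx1, ?_, ?_⟩
    · rw [map_mul, hQe, aeval_ofReal G, ← hx3]
      push_cast
      ring
    · refine hx2.trans (le_of_eq ?_)
      rw [pow_add]
      field_simp

end Pool.Agent.Helper41.RS
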