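import Pool.Agent.Helper41.RS.Order

/-!
# MP_418077_nt, pairs with a root of bounded degree: the sharper Mahler measure of a factor

A factor of degree `k ≥ 1` of an integer polynomial of height at most `H` has Mahler measure at most
`H * √(e (k + 1))` (Landau's inequality on the circle of radius `√(1 + 1 / k)`).
-/

set_option autoImplicit false

namespace Pool.Agent.Helper41.RS

open Polynomial Finset

lemma comp_upper_sq (p : ℂ[X]) (n : ℕ) (hn : p.natDegree ≤ n) {H : ℝ} (hH : ∀ i, ‖p.coeff i‖ ≤ H)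
    {ρ : ℝ} (hρ : 1 < ρ) :
    (p.comp (C (ρ : ℂ) * X)).mahlerMeasure ^ 2 ≤
      H ^ 2 * ((ρ ^ 2) ^ (n + 1) / (ρ ^ 2 - 1)) := by
  have hH0 : 0 ≤ H := (norm_nonneg _).trans (hH 0)
  have hρ2 : 1 < ρ ^ 2 := by nlinarith
  have hdeg : (p.comp (C (ρ : ℂ) * X)).natDegree < n + 1 := by
    refine lt_of_le_of_lt natDegree_comp_le ?_
    have : (C (ρ : ℂ) * X : ℂ[X]).natDegree ≤ 1 := (natDegree_C_mul_le _ _).trans natDegree_X_le
    calc p.natDegree * (C (ρ : ℂ) * X : ℂ[X]).natDegree ≤ p.natDegree * 1 :=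
          Nat.mul_le_mul_left _ this
      _ < n + 1 := by omega
  have h1 : ∀ i, ‖(p.comp (C (ρ : ℂ) * X)).coeff i‖ ^ 2 ≤ H ^ 2 * (ρ ^ 2) ^ i := by
    intro i
    rw [comp_C_mul_X_coeff, norm_mul, norm_pow, Complex.norm_real,
      Real.norm_of_nonneg (by linarith), mul_pow, ← pow_mul, ← pow_mul, mul_comm i 2]
    exact mul_le_mul_of_nonneg_right (pow_le_pow_left₀ (norm_nonneg _) (hH i) 2) (by positivity)
  have h2 : ∑ i ∈ (p.comp (C (ρ : ℂ) * X)).support, ‖(p.comp (C (ρ : ℂ) * X)).coeff i‖ ^ 2 ≤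
      ∑ i ∈ range (n + 1), H ^ 2 * (ρ ^ 2) ^ i := by
    refine (Finset.sum_le_sum fun i _ => h1 i).trans ?_
    refine Finset.sum_le_sum_of_subset_of_nonneg (fun i hi => ?_) fun i _ _ => by positivity
    rw [mem_range]
    have := le_natDegree_of_mem_supp i hi
    omega
  have h3 := mahlerMeasure_le_sqrt_sum_sq_norm_coeff (p.comp (C (ρ : ℂ) * X))
  have h4 : (p.comp (C (ρ : ℂ) * X)).mahlerMeasure ^ 2 ≤
      ∑ i ∈ (p.comp (C (ρ : ℂ) * X)).support, ‖(p.comp (C (ρ : ℂ) * X)).coeff i‖ ^ 2 := by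
    have h5 := pow_le_pow_left₀ (mahlerMeasure_nonneg _) h3 2
    rwa [Real.sq_sqrt (Finset.sum_nonneg fun i _ => by positivity)] at h5
  refine (h4.trans h2).trans ?_
  rw [← Finset.mul_sum]
  refine mul_le_mul_of_nonneg_left ?_ (by positivity)
  rw [geom_sum_eq hρ2.ne']
  exact div_le_div_of_nonneg_right (by linarith) (by linarith)

/-- A factor of degree `k ≥ 1` of an integer polynomial with coefficients at most `H` has Mahler
measure at most `H √(e (k + 1))`. -/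
theorem mahler_factor_sq {P f : ℤ[X]} (hP : P ≠ 0) (hf : f ∣ P) {H : ℕ}
    (hH : ∀ i, (P.coeff i).natAbs ≤ H) (hk : 1 ≤ f.natDegree) :
    (f.map (Int.castRingHom ℂ)).mahlerMeasure ^ 2 ≤
      Real.exp 1 * (H : ℝ) ^ 2 * (f.natDegree + 1) := by
  obtain ⟨g, rfl⟩ := hf
  have hf0 : f ≠ 0 := left_ne_zero_of_mul hP
  have hg0 : g ≠ 0 := right_ne_zero_of_mul hP
  have hinj : Function.Injective (Int.castRingHom ℂ) := RingHom.injective_int _
  set k : ℕ := f.natDegree with hkdef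
  set φ := Int.castRingHom ℂ
  have hk0 : (0 : ℝ) < k := by exact_mod_cast hk
  have hk1 : 0 < 1 / (k : ℝ) := by positivity
  set ρ : ℝ := √(1 + 1 / k) with hρdef
  have hρ2 : ρ ^ 2 = 1 + 1 / k := Real.sq_sqrt (by linarith)
  have hρ0 : 0 < ρ := Real.sqrt_pos.2 (by linarith)
  have hρ1 : 1 < ρ := by
    rw [hρdef]
    refine Real.lt_sqrt_of_sq_lt ?_
    linarith
  have e1 : ((f * g).map φ).natDegree = k + g.natDegree := by
    rw [natDegree_map_eq_of_injective hinj, natDegree_mul hf0 hg0]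
  have e2 := comp_upper_sq ((f * g).map φ) (k + g.natDegree) e1.le (H := H) (fun i => by
    rw [coeff_map]
    have h1 := hH i
    have h2 : ‖φ ((f * g).coeff i)‖ = (((f * g).coeff i).natAbs : ℝ) := by
      rw [eq_intCast, Complex.norm_intCast, Nat.cast_natAbs, Int.cast_abs]
    rw [h2]
    exact_mod_cast h1) hρ1
  rw [Polynomial.map_mul, mul_comp, mahlerMeasure_mul] at e2
  have e3 := mahler_le_comp (f.map φ) hρ1.le
  have e4 := comp_lower (g.map φ) hρ1.le
  rw [natDegree_map_eq_of_injective hinj, leadingCoeff_map_of_injective hinj] at e4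
  have e5 : (1 : ℝ) ≤ ‖φ g.leadingCoeff‖ := by
    have h1 : g.leadingCoeff ≠ 0 := leadingCoeff_ne_zero.2 hg0
    rw [eq_intCast, Complex.norm_intCast]
    exact_mod_cast Int.one_le_abs h1
  have e6 : ρ ^ g.natDegree ≤ ((g.map φ).comp (C (ρ : ℂ) * X)).mahlerMeasure := by
    refine le_trans ?_ e4
    nlinarith [pow_pos hρ0 g.natDegree]
  have e7 : ((f.map φ).mahlerMeasure * ρ ^ g.natDegree) ^ 2 ≤
      (H : ℝ) ^ 2 * ((ρ ^ 2) ^ (k + g.natDegree + 1) / (ρ ^ 2 - 1)) := by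
    refine le_trans ?_ e2
    exact pow_le_pow_left₀ (mul_nonneg (mahlerMeasure_nonneg _) (by positivity))
      (mul_le_mul e3 e6 (by positivity) (mahlerMeasure_nonneg _)) 2
  have e8 : (H : ℝ) ^ 2 * ((ρ ^ 2) ^ (k + g.natDegree + 1) / (ρ ^ 2 - 1)) =
      (H : ℝ) ^ 2 * ((ρ ^ 2) ^ (k + 1) / (ρ ^ 2 - 1)) * (ρ ^ 2) ^ g.natDegree := by
    have : (ρ ^ 2) ^ (k + g.natDegree + 1) = (ρ ^ 2) ^ (k + 1) * (ρ ^ 2) ^ g.natDegree := by
      rw [← pow_add]
      congr 1
      ring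
    rw [this]
    ring
  have e7' : (f.map φ).mahlerMeasure ^ 2 * (ρ ^ 2) ^ g.natDegree ≤
      (H : ℝ) ^ 2 * ((ρ ^ 2) ^ (k + 1) / (ρ ^ 2 - 1)) * (ρ ^ 2) ^ g.natDegree := by
    rw [← e8]
    refine le_trans (le_of_eq ?_) e7
    rw [mul_pow, ← pow_mul, ← pow_mul, mul_comm 2]
  have e9 : (f.map φ).mahlerMeasure ^ 2 ≤ (H : ℝ) ^ 2 * ((ρ ^ 2) ^ (k + 1) / (ρ ^ 2 - 1)) :=
    le_of_mul_le_mul_right e7' (by positivity)
  refine e9.trans ?_
  have e10 : (ρ ^ 2) ^ (k + 1) / (ρ ^ 2 - 1) = (ρ ^ 2) ^ k * (k + 1) := by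
    have h1 : ρ ^ 2 - 1 = 1 / k := by rw [hρ2]; ring
    rw [h1, pow_succ]
    have h2 : ρ ^ 2 * k = k + 1 := by
      rw [hρ2]
      field_simp
    field_simp
    linarith
  have e11 : (ρ ^ 2) ^ k ≤ Real.exp 1 := by
    have h1 : ρ ^ 2 ≤ Real.exp (1 / k) := by
      rw [hρ2, add_comm]
      exact Real.add_one_le_exp _
    calc (ρ ^ 2) ^ k ≤ Real.exp (1 / k) ^ k := pow_le_pow_left₀ (by positivity) h1 k
      _ = Real.exp 1 := by
        rw [← Real.exp_nat_mul]
        congr 1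
        field_simp
  rw [e10]
  calc (H : ℝ) ^ 2 * ((ρ ^ 2) ^ k * (k + 1)) ≤ (H : ℝ) ^ 2 * (Real.exp 1 * (k + 1)) := by gcongr
    _ = Real.exp 1 * (H : ℝ) ^ 2 * (k + 1) := by ring

/-- The upper bound for `-log` of a distance, uniform in all parameters. -/
theorem neg_log_le' {k n H : ℕ} (hn : 1 ≤ n) (hH : 1 ≤ H) {r : ℝ}
    (hr : r ∈ pairDist k (Sepa n H)) :
    -Real.log r ≤ n * (Real.log H + (1 + Real.log (k + 1)) / 2) +
      (k * Real.log (H * (n : ℝ) ^ 2) + Real.log n + 1) := by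
  have hr0 := pos_of_mem hr
  obtain ⟨P, ⟨hdeg, hht, hnd⟩, a, b, ha, hb, hab, hk, rfl⟩ := hr
  have hP : P ≠ 0 := by
    rintro rfl
    rw [natDegree_zero] at hdeg
    omega
  have hHi : ∀ i, (P.coeff i).natAbs ≤ H := height_le_iff.1 hht
  obtain ⟨f, hf, hfP, hfa⟩ := exists_irr hP ha
  have hfd : f.natDegree = (minpoly ℚ a).natDegree := natDegree_irr hf hfa
  have hfk : f.natDegree ≤ k := by omega
  have hf1 : 1 ≤ f.natDegree := by
    by_contra h
    have h0 : f.natDegree = 0 := by omega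
    rw [eq_C_of_natDegree_eq_zero h0, aeval_C] at hfa
    have h1 : f.coeff 0 = 0 := (map_eq_zero_iff _ (RingHom.injective_int (algebraMap ℤ ℂ))).1 hfa
    exact hf.ne_zero (by rw [eq_C_of_natDegree_eq_zero h0, h1, C_0])
  have hM := mahler_factor_sq hP hfP hHi hf1
  have hmain := pair_lower hP hnd hfP hdeg hn hH hHi hfa hb hab
  have hM1 : 1 ≤ (f.map (Int.castRingHom ℂ)).mahlerMeasure := by
    refine one_le_mahlerMeasure_of_one_le_norm_leadingCoeff ?_
    rw [leadingCoeff_map_of_injective (RingHom.injective_int _), eq_intCast, Complex.norm_intCast]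
    exact_mod_cast Int.one_le_abs (leadingCoeff_ne_zero.2 hf.ne_zero)
  set M : ℝ := (f.map (Int.castRingHom ℂ)).mahlerMeasure with hMdef
  have hn0 : (1 : ℝ) ≤ n := by exact_mod_cast hn
  have hHr : (1 : ℝ) ≤ H := by exact_mod_cast hH
  set B : ℝ := (H : ℝ) * (n : ℝ) ^ 2 with hB
  have hB1 : 1 ≤ B := by
    rw [hB]
    nlinarith [mul_le_mul hHr (one_le_pow₀ hn0 (n := 2)) zero_le_one (by linarith)]
  have hM0 : 0 < M := by linarith
  have h1 : 1 ≤ Real.exp 1 * n * B ^ k * M ^ n * ‖a - b‖ := by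
    refine hmain.trans ?_
    have e1 : B ^ f.natDegree ≤ B ^ k := pow_le_pow_right₀ hB1 hfk
    have e2 : M ^ (n - 1) ≤ M ^ n := pow_le_pow_right₀ hM1 (by omega)
    gcongr
  have h2 := Real.log_nonneg h1
  have hn0' : (n : ℝ) ≠ 0 := by linarith
  rw [Real.log_mul (by positivity) hr0.ne', Real.log_mul (by positivity) (by positivity),
    Real.log_mul (by positivity) (by positivity), Real.log_mul (Real.exp_pos 1).ne' hn0',
    Real.log_exp, Real.log_pow, Real.log_pow] at h2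
  have h3 : 2 * Real.log M ≤ 1 + 2 * Real.log H + Real.log (k + 1) := by
    have e1 : M ^ 2 ≤ Real.exp 1 * (H : ℝ) ^ 2 * (k + 1) := by
      refine hM.trans ?_
      have : (f.natDegree : ℝ) ≤ k := by exact_mod_cast hfk
      gcongr
    have e2 := Real.log_le_log (by positivity) e1
    rw [Real.log_pow, Real.log_mul (by positivity) (by positivity),
      Real.log_mul (Real.exp_pos 1).ne' (by positivity), Real.log_exp, Real.log_pow] at e2
    push_cast at e2
    exact e2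
  have h4 : (n : ℝ) * Real.log M ≤ n * (Real.log H + (1 + Real.log (k + 1)) / 2) := by
    refine mul_le_mul_of_nonneg_left ?_ (by linarith)
    linarith
  linarith

end Pool.Agent.Helper41.RS
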