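import Pool.Agent.Helper41.RS.Main
import Pool.Agent.Helper41.RS.Sharp

/-!
# MP_418077_nt, pairs with a root of bounded degree: the final estimates
-/

set_option autoImplicit false

namespace Pool.Agent.Helper41.RS

open Polynomial Filter Topology

lemma exists_plastic : ∃ x : ℝ, 0 < x ∧ x < 1 ∧ x ^ 3 + x ^ 2 - 1 = 0 ∧ x ≤ 19 / 25 := by
  have hc : ContinuousOn (fun x : ℝ => x ^ 3 + x ^ 2 - 1) (Set.Icc 0 (19 / 25)) := by fun_prop
  have h := intermediate_value_Icc (by norm_num : (0 : ℝ) ≤ 19 / 25) hc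
  obtain ⟨x, hx, hx0⟩ := h (show (0 : ℝ) ∈ _ from ⟨by norm_num, by norm_num⟩)
  simp only at hx0
  refine ⟨x, lt_of_le_of_ne hx.1 ?_, by linarith [hx.2], hx0, hx.2⟩
  rintro rfl
  norm_num at hx0

/-- Exponentially small distances in the other cases. -/
theorem order_lower {k H : ℕ} (hk : 1 ≤ k) (hH : 1 ≤ H) (hne : ¬ Exc k H) :
    ∃ x : ℝ, 0 < x ∧ 3 / 10 * Real.log (H + 1) < Real.log (1 / x) ∧
      ∃ C : ℝ, 0 < C ∧ ∀ᶠ n : ℕ in atTop, ∃ r ∈ pairDist k (SepaMon n H), r ≤ C * x ^ n := by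
  have hcomp : ∀ x : ℝ, 0 < x → ((H : ℝ) + 1) ^ 3 < (1 / x) ^ 10 →
      3 / 10 * Real.log (H + 1) < Real.log (1 / x) := by
    intro x hx h
    have h1 : (0 : ℝ) < (H : ℝ) + 1 := by positivity
    have h2 := Real.log_lt_log (by positivity) h
    rw [Real.log_pow, Real.log_pow] at h2
    push_cast at h2
    linarith
  rcases Nat.lt_or_ge H 4 with h4 | h4
  · have hH' : H = 1 ∨ H = 2 ∨ H = 3 := by omega
    rcases hH' with rfl | rfl | rfl
    · -- the smallest Pisot number
      have hk3 : 3 ≤ k := by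
        by_contra hc
        refine hne ?_
        unfold Exc
        omega
      obtain ⟨x, x0, x1, hx, hx2⟩ := exists_plastic
      refine ⟨x, x0, hcomp x x0 ?_, ?_⟩
      · have h5 : 25 / 19 ≤ 1 / x := by
          rw [le_div_iff₀ x0]
          linarith
        calc (((1 : ℕ) : ℝ) + 1) ^ 3 < (25 / 19 : ℝ) ^ 10 := by norm_num
          _ ≤ (1 / x) ^ 10 := by gcongr
      · have hA : pla ≠ 0 := by
          intro h
          have := congrArg (fun p => p.coeff 0) h
          unfold pla at this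
          simp [coeff_pol] at this
        refine monic_case hA (k := k) ?_ (by
          rw [aeval_pla]
          exact_mod_cast hx) (family_pla x0 x1 hx)
        refine le_trans (pol_natDegree_le _) ?_
        exact hk3
    · -- the golden ratio
      have hk2 : 2 ≤ k := by
        by_contra hc
        refine hne ?_
        unfold Exc
        omega
      obtain ⟨x, x0, x1, hx, -, hx2⟩ := exists_gold
      refine ⟨x, x0, hcomp x x0 ?_, ?_⟩
      · have h5 : 8 / 5 ≤ 1 / x := by
          rw [le_div_iff₀ x0]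
          linarith
        calc (((2 : ℕ) : ℝ) + 1) ^ 3 < (8 / 5 : ℝ) ^ 10 := by norm_num
          _ ≤ (1 / x) ^ 10 := by gcongr
      · have hA : gol ≠ 0 := by
          intro h
          have := congrArg (fun p => p.coeff 0) h
          unfold gol at this
          simp [coeff_pol] at this
        refine monic_case hA (k := k) ?_ (by
          rw [aeval_gol]
          exact_mod_cast hx) (family_gol x0 x1 hx)
        refine le_trans (pol_natDegree_le _) ?_
        exact hk2
    · -- the root two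
      refine ⟨1 / 2, by norm_num, hcomp _ (by norm_num) (by norm_num), ?_⟩
      obtain ⟨C, hC0, hC⟩ := rat_case (a := 2) le_rfl (H := 3) (by
        push_cast
        have := family_mul
        push_cast at this
        exact this)
      refine ⟨C, hC0, ?_⟩
      filter_upwards [hC] with n hn
      obtain ⟨r, hr, hrle⟩ := hn
      push_cast at hrle
      exact ⟨r, pairDist_mono hk (fun _ h => h) hr, hrle⟩
  · -- rational integers
    set a : ℕ := Nat.sqrt H with ha
    have ha2 : 2 ≤ a := by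
      rw [ha, Nat.le_sqrt]
      omega
    have haH : a ^ 2 ≤ H := Nat.sqrt_le' H
    have haH2 : H + 1 ≤ (a + 1) ^ 2 := by
      have := Nat.lt_succ_sqrt' H
      rw [Nat.succ_eq_add_one] at this
      exact this
    have ha2r : (2 : ℝ) ≤ a := by exact_mod_cast ha2
    refine ⟨1 / a, by positivity, hcomp _ (by positivity) ?_, ?_⟩
    · rw [one_div_one_div]
      have h1 : (H : ℝ) + 1 ≤ (a + 1) ^ 2 := by exact_mod_cast haH2
      have h2 : ((a : ℝ) + 1) ≤ 3 / 2 * a := by linarith
      have h3 : ((a : ℝ) + 1) ^ 3 ≤ (3 / 2 * a) ^ 3 := pow_le_pow_left₀ (by positivity) h2 3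
      have h4 : (4 : ℝ) ≤ (a : ℝ) ^ 2 := by nlinarith
      have h5 : (3 / 2 * (a : ℝ)) ^ 3 < (a : ℝ) ^ 5 := by
        have h6 : 0 < (a : ℝ) ^ 3 := by positivity
        have h7 : (a : ℝ) ^ 5 = (a : ℝ) ^ 3 * (a : ℝ) ^ 2 := by ring
        rw [h7, mul_pow]
        nlinarith
      calc ((H : ℝ) + 1) ^ 3 ≤ ((a + 1) ^ 2) ^ 3 := by gcongr
        _ = (((a : ℝ) + 1) ^ 3) ^ 2 := by ring
        _ ≤ ((3 / 2 * (a : ℝ)) ^ 3) ^ 2 := by gcongr
        _ < ((a : ℝ) ^ 5) ^ 2 := by
          exact pow_lt_pow_left₀ h5 (by positivity) (by norm_num)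
        _ = (a : ℝ) ^ 10 := by ring
    · obtain ⟨C, hC0, hC⟩ := rat_case ha2 (family_lin a ha2)
      refine ⟨C, hC0, ?_⟩
      filter_upwards [hC] with n hn
      obtain ⟨r, hr, hrle⟩ := hn
      exact ⟨r, pairDist_mono hk (sepaMon_mono haH) hr, hrle⟩

/-- The lower estimate in the cases which are not exceptional. -/
theorem order_main {k H : ℕ} (hk : 1 ≤ k) (hH : 1 ≤ H) (hne : ¬ Exc k H) :
    ∀ᶠ n : ℕ in atTop, ∀ S : Set ℤ[X], SepaMon n H ⊆ S → S ⊆ Sepa n H →
      (pairDist k S).Nonempty ∧ 3 / 10 * n * Real.log (H + 1) ≤ -Real.log (minDist k S) := by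
  obtain ⟨x, x0, hx, C, hC0, hC⟩ := order_lower hk hH hne
  -- the lower bound absorbs the constant
  have h1 : ∀ᶠ n : ℕ in atTop,
      Real.log C ≤ n * (Real.log (1 / x) - 3 / 10 * Real.log (H + 1)) := by
    have ht : Tendsto (fun n : ℕ => (n : ℝ) * (Real.log (1 / x) - 3 / 10 * Real.log (H + 1)))
        atTop atTop := tendsto_natCast_atTop_atTop.atTop_mul_const (by linarith)
    exact ht.eventually_ge_atTop _
  filter_upwards [hC, h1, eventually_ge_atTop 1] with n hn hn1 hn3 S hS1 hS2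
  obtain ⟨r, hr, hrle⟩ := hn
  have hr' : r ∈ pairDist k S := pairDist_mono le_rfl hS1 hr
  obtain ⟨hleast, hpos⟩ := isLeast_minDist hn3 hS2 ⟨r, hr'⟩
  refine ⟨⟨r, hr'⟩, ?_⟩
  have e1 : minDist k S ≤ C * x ^ n := (hleast.2 hr').trans hrle
  have e2 := Real.log_le_log hpos e1
  rw [Real.log_mul hC0.ne' (pow_pos x0 n).ne', Real.log_pow] at e2
  have e3 : Real.log (1 / x) = -Real.log x := by rw [one_div, Real.log_inv]
  rw [e3] at hn1
  linarith

/-- The upper estimate, for all degrees. -/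
theorem order_upper {k H n : ℕ} (hH : 1 ≤ H) (hn : 1 ≤ n) {S : Set ℤ[X]} (hS : S ⊆ Sepa n H)
    (hne : (pairDist k S).Nonempty) :
    IsLeast (pairDist k S) (minDist k S) ∧ 0 < minDist k S ∧
      -Real.log (minDist k S) ≤ n * (Real.log H + (1 + Real.log (k + 1)) / 2) +
        (k * Real.log (H * (n : ℝ) ^ 2) + Real.log n + 1) := by
  obtain ⟨hleast, hpos⟩ := isLeast_minDist hn hS hne
  exact ⟨hleast, hpos, neg_log_le' hn hH (pairDist_mono (le_refl k) hS hleast.1)⟩

/-- The estimate in the exceptional cases. -/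
theorem order_exc {k H : ℕ} (hk : 1 ≤ k) (hH : 1 ≤ H) (he : Exc k H) :
    ∀ᶠ n : ℕ in atTop, ∀ S : Set ℤ[X], SepaMon n H ⊆ S → S ⊆ Sepa n H →
      (pairDist k S).Nonempty ∧
      Real.log n - 2 ≤ -Real.log (minDist k S) ∧ -Real.log (minDist k S) ≤ 6 * Real.log n := by
  have h1 : ∀ᶠ n : ℕ in atTop, Real.log (8 * Real.exp 1) ≤ Real.log n :=
    (Real.tendsto_log_atTop.comp (tendsto_natCast_atTop_atTop (R := ℝ))).eventually_ge_atTop _
  filter_upwards [h1, eventually_ge_atTop 2] with n hn1 hn2 S hS1 hS2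
  have hn0 : (0 : ℝ) < n := by exact_mod_cast (by omega : 0 < n)
  obtain ⟨r, hr, hrle⟩ := cyc_dist hk hn2
  have hr' : r ∈ pairDist k S :=
    pairDist_mono le_rfl hS1 (pairDist_mono le_rfl (sepaMon_mono hH) hr)
  obtain ⟨hleast, hpos⟩ := isLeast_minDist (by omega : 1 ≤ n) hS2 ⟨r, hr'⟩
  refine ⟨⟨r, hr'⟩, ?_, ?_⟩
  · have e1 : minDist k S ≤ 2 * Real.pi / n := (hleast.2 hr').trans hrle
    have e2 := Real.log_le_log hpos e1
    rw [Real.log_div (by positivity) hn0.ne'] at e2
    have e3 : Real.log (2 * Real.pi) ≤ 2 := by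
      rw [Real.log_le_iff_le_exp (by positivity)]
      have e4 : Real.exp 2 = Real.exp 1 ^ 2 := by
        rw [← Real.exp_nat_mul]
        norm_num
      rw [e4]
      have e5 := Real.exp_one_gt_d9
      have e6 := Real.pi_lt_d2
      nlinarith
    linarith
  · have e1 := exc_lower hk hH he (by omega : 1 ≤ n) (pairDist_mono (le_refl k) hS2 hleast.1)
    have e2 := Real.log_nonneg e1
    rw [Real.log_mul (by positivity) hpos.ne', Real.log_mul (by positivity) (by positivity),
      Real.log_pow] at e2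
    push_cast at e2
    linarith

end Pool.Agent.Helper41.RS
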