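import Pool.Agent.Helper41.RS.Fam

/-!
# MP_418077_nt, pairs with a root of bounded degree: the four families
-/

set_option autoImplicit false

namespace Pool.Agent.Helper41.RS

open Polynomial Filter Topology

/-- The polynomial with the list of coefficients `l`. -/
noncomputable def pol (l : List ℤ) : ℤ[X] := ∑ i ∈ Finset.range l.length, C (l.getD i 0) * X ^ i

lemma coeff_pol (l : List ℤ) (i : ℕ) : (pol l).coeff i = l.getD i 0 := by
  unfold pol
  rw [finset_sum_coeff]
  simp only [coeff_C_mul, coeff_X_pow, mul_ite, mul_one, mul_zero]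
  rw [Finset.sum_ite_eq (Finset.range l.length) i]
  split_ifs with h
  · rfl
  · rw [Finset.mem_range, not_lt] at h
    rw [List.getD_eq_default _ _ h]

lemma height_pol_le (l : List ℤ) (h : ℕ) (hl : ∀ x ∈ l, x.natAbs ≤ h) : height (pol l) ≤ h := by
  refine height_le fun i => ?_
  rw [coeff_pol]
  rcases lt_or_ge i l.length with hi | hi
  · rw [List.getD_eq_getElem _ _ hi]
    exact hl _ (List.getElem_mem hi)
  · rw [List.getD_eq_default _ _ hi]
    simp

lemma aeval_pol {R : Type*} [CommRing R] (l : List ℤ) (z : R) :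
    aeval z (pol l) = ∑ i ∈ Finset.range l.length, ((l.getD i 0 : ℤ) : R) * z ^ i := by
  unfold pol
  rw [map_sum]
  refine Finset.sum_congr rfl fun i _ => ?_
  rw [map_mul, map_pow, aeval_X, aeval_C]
  simp

/-! ### The linear family -/

/-- `a X - 1`. -/
noncomputable def lin (a : ℕ) : ℤ[X] := pol [-1, (a : ℤ)]

lemma lin_mul (a : ℕ) : lin a * (lin a * 1) = pol [1, -(2 * (a : ℤ)), (a : ℤ) ^ 2] := by
  unfold lin pol
  simp only [List.length_cons, List.length_nil, Finset.sum_range_succ, Finset.sum_range_zero,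
    List.getD_cons_zero, List.getD_cons_succ]
  simp only [map_neg, map_one, map_mul, map_pow, map_ofNat]
  ring

theorem family_lin (a : ℕ) (ha : 2 ≤ a) :
    ∃ C : ℝ, 0 < C ∧ ∀ᶠ n : ℕ in atTop, ∃ P ∈ Sepa n (a ^ 2),
      P.coeff 0 = -1 ∧ aeval (((1 / a : ℝ)) : ℂ) P = 0 ∧
      ∃ x : ℝ, x ≠ 1 / a ∧ aeval (x : ℂ) P = 0 ∧ |x - 1 / a| ≤ C * (1 / a : ℝ) ^ n := by
  have ha1 : (1 : ℝ) < a := by exact_mod_cast ha
  have ha2 : (a : ℂ) ≠ 0 := by
    have : a ≠ 0 := by omega
    exact_mod_cast this
  have hder : derivative (lin a) = C (a : ℤ) := by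
    unfold lin pol
    simp [Finset.sum_range_succ]
  obtain ⟨C, hC0, hC⟩ := family (lin a) 1 (a ^ 2) (x₀ := 1 / a) (by positivity)
    (by rw [div_lt_one (by linarith)]; exact ha1)
    (by
      unfold lin
      rw [aeval_pol]
      simp [Finset.sum_range_succ]
      field_simp
      ring)
    (by unfold lin; rw [coeff_pol]; simp) (by simp)
    (by
      unfold lin
      refine height_pol_le _ _ ?_
      intro x hx
      simp only [List.mem_cons, List.not_mem_nil, or_false] at hx
      rcases hx with rfl | rfl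
      · simp
        nlinarith
      · rw [Int.natAbs_natCast]
        nlinarith)
    (by
      rw [lin_mul]
      refine height_pol_le _ _ ?_
      intro x hx
      simp only [List.mem_cons, List.not_mem_nil, or_false] at hx
      rcases hx with rfl | rfl | rfl
      · simp
        nlinarith
      · rw [Int.natAbs_neg, Int.natAbs_mul, Int.natAbs_natCast]
        simp
        nlinarith
      · rw [Int.natAbs_pow, Int.natAbs_natCast])
    (by
      intro z _ _
      rw [mul_one, hder, aeval_C]
      simpa using ha2)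
    (by
      intro z _
      rw [hder, aeval_C]
      simpa using ha2)
  refine ⟨C, hC0, ?_⟩
  filter_upwards [hC] with n hn
  obtain ⟨P, hP, -, hP0, hPx, hPr⟩ := hn
  refine ⟨P, hP, ?_, hPx, hPr⟩
  rw [hP0, lin_mul, coeff_pol]
  simp

/-! ### The golden family -/

/-- `X ^ 2 + X - 1`. -/
noncomputable def gol : ℤ[X] := pol [-1, 1, 1]

lemma gol_mul : gol * (gol * 1) = pol [1, -2, -1, 2, 1] := by
  unfold gol pol
  simp only [List.length_cons, List.length_nil, Finset.sum_range_succ, Finset.sum_range_zero,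
    List.getD_cons_zero, List.getD_cons_succ]
  simp only [map_neg, map_one, map_ofNat]
  ring

lemma aeval_gol {R : Type*} [CommRing R] (z : R) : aeval z gol = z ^ 2 + z - 1 := by
  unfold gol
  rw [aeval_pol]
  simp [Finset.sum_range_succ]
  ring

lemma deriv_gol : derivative gol = pol [1, 2] := by
  unfold gol pol
  simp only [List.length_cons, List.length_nil, Finset.sum_range_succ, Finset.sum_range_zero,
    List.getD_cons_zero, List.getD_cons_succ]
  simp only [map_neg, map_one, map_ofNat, derivative_add, derivative_mul, derivative_X_pow,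
    derivative_one]
  simp

lemma deriv_gol_ne {z : ℂ} (hz : aeval z gol = 0) : aeval z (derivative gol) ≠ 0 := by
  rw [deriv_gol, aeval_pol]
  rw [aeval_gol] at hz
  simp only [List.length_cons, List.length_nil, Finset.sum_range_succ, Finset.sum_range_zero,
    List.getD_cons_zero, List.getD_cons_succ]
  push_cast
  intro h
  have h1 : (2 * z + 1) ^ 2 - 4 * (z ^ 2 + z - 1) = 5 := by ring
  rw [hz] at h1
  have h2 : 2 * z + 1 = 0 := by linear_combination h
  rw [h2] at h1
  norm_num at h1

theorem family_gol {x₀ : ℝ} (h0 : 0 < x₀) (h1 : x₀ < 1) (hx : x₀ ^ 2 + x₀ - 1 = 0) :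
    ∃ C : ℝ, 0 < C ∧ ∀ᶠ n : ℕ in atTop, ∃ P ∈ Sepa n 2, P.Monic ∧ aeval (x₀ : ℂ) P = 0 ∧
      ∃ x : ℝ, x ≠ x₀ ∧ aeval (x : ℂ) P = 0 ∧ |x - x₀| ≤ C * x₀ ^ n := by
  obtain ⟨C, hC0, hC⟩ := family gol 1 2 h0 h1 (by rw [aeval_gol]; exact hx)
    (by unfold gol; rw [coeff_pol]; simp) (by simp)
    (by unfold gol; exact height_pol_le _ _ (by decide))
    (by rw [gol_mul]; exact height_pol_le _ _ (by decide))
    (by
      intro z _ hz
      rw [mul_one] at hz ⊢
      exact deriv_gol_ne hz)
    (fun z hz => deriv_gol_ne hz)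
  refine ⟨C, hC0, ?_⟩
  filter_upwards [hC] with n hn
  obtain ⟨P, hP, hlc, -, hPx, hPr⟩ := hn
  refine ⟨P, hP, ?_, hPx, hPr⟩
  have h2 : gol.leadingCoeff = 1 := by
    have h3 : gol.natDegree = 2 := by
      refine natDegree_eq_of_le_of_coeff_ne_zero ?_ ?_
      · refine natDegree_le_iff_coeff_eq_zero.2 fun i hi => ?_
        unfold gol
        rw [coeff_pol, List.getD_eq_default]
        simp
        omega
      · unfold gol
        rw [coeff_pol]
        decide
    rw [leadingCoeff, h3]
    unfold gol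
    rw [coeff_pol]
    decide
  rw [Monic, hlc, h2]

/-! ### The plastic family -/

/-- `X ^ 3 + X ^ 2 - 1`. -/
noncomputable def pla : ℤ[X] := pol [-1, 0, 1, 1]

/-- `X ^ 2 - X + 1`. -/
noncomputable def plaS : ℤ[X] := pol [1, -1, 1]

lemma pla_mul : pla * (pla * plaS) = pol [1, -1, -1, 0, 1, -1, 0, 1, 1] := by
  unfold pla plaS pol
  simp only [List.length_cons, List.length_nil, Finset.sum_range_succ, Finset.sum_range_zero,
    List.getD_cons_zero, List.getD_cons_succ]
  simp only [map_neg, map_one, map_zero]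
  ring

lemma aeval_pla {R : Type*} [CommRing R] (z : R) : aeval z pla = z ^ 3 + z ^ 2 - 1 := by
  unfold pla
  rw [aeval_pol]
  simp [Finset.sum_range_succ]
  ring

lemma aeval_plaS {R : Type*} [CommRing R] (z : R) : aeval z plaS = z ^ 2 - z + 1 := by
  unfold plaS
  rw [aeval_pol]
  simp [Finset.sum_range_succ]
  ring

lemma deriv_pla : derivative pla = pol [0, 2, 3] := by
  unfold pla pol
  simp only [List.length_cons, List.length_nil, Finset.sum_range_succ, Finset.sum_range_zero,
    List.getD_cons_zero, List.getD_cons_succ]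
  simp only [map_neg, map_one, map_zero, map_ofNat, derivative_add, derivative_mul,
    derivative_X_pow, derivative_one]
  simp

lemma deriv_pla_ne {z : ℂ} (hz : aeval z pla = 0) : aeval z (derivative pla) ≠ 0 := by
  rw [deriv_pla, aeval_pol]
  rw [aeval_pla] at hz
  simp only [List.length_cons, List.length_nil, Finset.sum_range_succ, Finset.sum_range_zero,
    List.getD_cons_zero, List.getD_cons_succ]
  push_cast
  intro h
  have h2 : 3 * z ^ 2 + 2 * z = 0 := by linear_combination h
  have h1 : (9 * z + 3) * (3 * z ^ 2 + 2 * z) - 27 * (z ^ 3 + z ^ 2 - 1) = 6 * z + 27 := by ring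
  rw [hz, h2] at h1
  have h3 : z = -(9 / 2) := by linear_combination -h1 / 6
  rw [h3] at h2
  norm_num at h2

lemma norm_of_plaS {z : ℂ} (hz : aeval z plaS = 0) : ‖z‖ = 1 := by
  rw [aeval_plaS] at hz
  have h1 : z ^ 3 = -1 := by linear_combination (z + 1) * hz
  have h2 : ‖z‖ ^ 3 = 1 := by rw [← norm_pow, h1, norm_neg, norm_one]
  exact (pow_eq_one_iff_of_nonneg (norm_nonneg _) (by norm_num)).1 h2

theorem family_pla {x₀ : ℝ} (h0 : 0 < x₀) (h1 : x₀ < 1) (hx : x₀ ^ 3 + x₀ ^ 2 - 1 = 0) :
    ∃ C : ℝ, 0 < C ∧ ∀ᶠ n : ℕ in atTop, ∃ P ∈ Sepa n 1, P.Monic ∧ aeval (x₀ : ℂ) P = 0 ∧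
      ∃ x : ℝ, x ≠ x₀ ∧ aeval (x : ℂ) P = 0 ∧ |x - x₀| ≤ C * x₀ ^ n := by
  obtain ⟨C, hC0, hC⟩ := family pla plaS 1 h0 h1 (by rw [aeval_pla]; exact hx)
    (by unfold pla; rw [coeff_pol]; simp) (by unfold plaS; rw [coeff_pol]; simp)
    (by unfold pla; exact height_pol_le _ _ (by decide))
    (by rw [pla_mul]; exact height_pol_le _ _ (by decide))
    (by
      intro z hz1 hz
      rw [map_mul, mul_eq_zero] at hz
      rcases hz with hz | hz
      · rw [derivative_mul, map_add, map_mul, map_mul, hz, zero_mul, add_zero]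
        refine mul_ne_zero (deriv_pla_ne hz) fun h => ?_
        have := norm_of_plaS h
        linarith
      · have := norm_of_plaS hz
        linarith)
    (fun z hz => deriv_pla_ne hz)
  refine ⟨C, hC0, ?_⟩
  filter_upwards [hC] with n hn
  obtain ⟨P, hP, hlc, -, hPx, hPr⟩ := hn
  refine ⟨P, hP, ?_, hPx, hPr⟩
  have h2 : pla.leadingCoeff = 1 := by
    have h3 : pla.natDegree = 3 := by
      refine natDegree_eq_of_le_of_coeff_ne_zero ?_ ?_
      · refine natDegree_le_iff_coeff_eq_zero.2 fun i hi => ?_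
        unfold pla
        rw [coeff_pol, List.getD_eq_default]
        simp
        omega
      · unfold pla
        rw [coeff_pol]
        decide
    rw [leadingCoeff, h3]
    unfold pla
    rw [coeff_pol]
    decide
  rw [Monic, hlc, h2]

/-! ### The quintic family -/

/-- `X ^ 5 - X ^ 3 + X ^ 2 + X - 1`. -/
noncomputable def qui : ℤ[X] := pol [-1, 1, 1, -1, 0, 1]

/-- The cofactor. -/
noncomputable def quiS : ℤ[X] := pol [1, 1, 2, 0, 0, -2, -1, 0, 1, 2, 0, 0, -2, -1, -1]

lemma qui_mul : qui * (qui * quiS) =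
    pol [1, -1, -1, -1, 1, 1, 0, 1, 0, 0, 1, 1, 0, -1, 0, 1, 0, 1, 0, -1, -1, 0, 0, -1, -1] := by
  unfold qui quiS pol
  simp only [List.length_cons, List.length_nil, Finset.sum_range_succ, Finset.sum_range_zero,
    List.getD_cons_zero, List.getD_cons_succ]
  simp only [map_neg, map_one, map_zero, map_ofNat]
  ring

lemma aeval_qui {R : Type*} [CommRing R] (z : R) :
    aeval z qui = z ^ 5 - z ^ 3 + z ^ 2 + z - 1 := by
  unfold qui
  rw [aeval_pol]
  simp [Finset.sum_range_succ]
  ring

lemma aeval_quiS {R : Type*} [CommRing R] (z : R) :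
    aeval z quiS = -((z - 1) * (z + 1) * (z ^ 2 + z + 1) ^ 2 * (z ^ 2 + 1) *
      (z ^ 6 - z ^ 5 + z ^ 4 - z ^ 3 + z ^ 2 - z + 1)) := by
  unfold quiS
  rw [aeval_pol]
  simp [Finset.sum_range_succ]
  ring

lemma deriv_qui : derivative qui = pol [1, 2, -3, 0, 5] := by
  unfold qui pol
  simp only [List.length_cons, List.length_nil, Finset.sum_range_succ, Finset.sum_range_zero,
    List.getD_cons_zero, List.getD_cons_succ]
  simp only [map_neg, map_one, map_zero, map_ofNat, derivative_add, derivative_mul,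
    derivative_X_pow, derivative_one]
  simp

lemma deriv_qui_ne {z : ℂ} (hz : aeval z qui = 0) : aeval z (derivative qui) ≠ 0 := by
  rw [deriv_qui, aeval_pol]
  rw [aeval_qui] at hz
  simp only [List.length_cons, List.length_nil, Finset.sum_range_succ, Finset.sum_range_zero,
    List.getD_cons_zero, List.getD_cons_succ]
  push_cast
  intro h
  have h2 : 5 * z ^ 4 - 3 * z ^ 2 + 2 * z + 1 = 0 := by linear_combination h
  have h1 : (-1180 - 66 * z - 2135 * z ^ 2 - 1590 * z ^ 3) * (z ^ 5 - z ^ 3 + z ^ 2 + z - 1) +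
      (429 + 256 * z - 114 * z ^ 2 + 427 * z ^ 3 + 318 * z ^ 4) *
      (5 * z ^ 4 - 3 * z ^ 2 + 2 * z + 1) = 1609 := by ring
  rw [hz, h2] at h1
  norm_num at h1

lemma norm_of_quiS {z : ℂ} (hz : aeval z quiS = 0) : ‖z‖ = 1 := by
  rw [aeval_quiS, neg_eq_zero] at hz
  have key : ∀ m : ℕ, m ≠ 0 → ‖z ^ m‖ = 1 → ‖z‖ = 1 := by
    intro m hm h
    rw [norm_pow] at h
    exact (pow_eq_one_iff_of_nonneg (norm_nonneg _) hm).1 h
  rcases mul_eq_zero.1 hz with hz | hz
  · rcases mul_eq_zero.1 hz with hz | hz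
    · rcases mul_eq_zero.1 hz with hz | hz
      · rcases mul_eq_zero.1 hz with hz | hz
        · have : z = 1 := by linear_combination hz
          rw [this, norm_one]
        · have : z = -1 := by linear_combination hz
          rw [this, norm_neg, norm_one]
      · have h1 := pow_eq_zero_iff (two_ne_zero) |>.1 hz
        refine key 3 (by norm_num) ?_
        have : z ^ 3 = 1 := by linear_combination (z - 1) * h1
        rw [this, norm_one]
    · refine key 2 (by norm_num) ?_
      have : z ^ 2 = -1 := by linear_combination hz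
      rw [this, norm_neg, norm_one]
  · refine key 7 (by norm_num) ?_
    have : z ^ 7 = -1 := by linear_combination (z + 1) * hz
    rw [this, norm_neg, norm_one]

theorem family_qui {x₀ : ℝ} (h0 : 0 < x₀) (h1 : x₀ < 1)
    (hx : x₀ ^ 5 - x₀ ^ 3 + x₀ ^ 2 + x₀ - 1 = 0) :
    ∃ C : ℝ, 0 < C ∧ ∀ᶠ n : ℕ in atTop, ∃ P ∈ Sepa n 1, P.Monic ∧ aeval (x₀ : ℂ) P = 0 ∧
      ∃ x : ℝ, x ≠ x₀ ∧ aeval (x : ℂ) P = 0 ∧ |x - x₀| ≤ C * x₀ ^ n := by
  obtain ⟨C, hC0, hC⟩ := family qui quiS 1 h0 h1 (by rw [aeval_qui]; exact hx)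
    (by unfold qui; rw [coeff_pol]; simp) (by unfold quiS; rw [coeff_pol]; simp)
    (by unfold qui; exact height_pol_le _ _ (by decide))
    (by rw [qui_mul]; exact height_pol_le _ _ (by decide))
    (by
      intro z hz1 hz
      rw [map_mul, mul_eq_zero] at hz
      rcases hz with hz | hz
      · rw [derivative_mul, map_add, map_mul, map_mul, hz, zero_mul, add_zero]
        refine mul_ne_zero (deriv_qui_ne hz) fun h => ?_
        have := norm_of_quiS h
        linarith
      · have := norm_of_quiS hz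
        linarith)
    (fun z hz => deriv_qui_ne hz)
  refine ⟨C, hC0, ?_⟩
  filter_upwards [hC] with n hn
  obtain ⟨P, hP, hlc, -, hPx, hPr⟩ := hn
  refine ⟨P, hP, ?_, hPx, hPr⟩
  have h2 : qui.leadingCoeff = 1 := by
    have h3 : qui.natDegree = 5 := by
      refine natDegree_eq_of_le_of_coeff_ne_zero ?_ ?_
      · refine natDegree_le_iff_coeff_eq_zero.2 fun i hi => ?_
        unfold qui
        rw [coeff_pol, List.getD_eq_default]
        simp
        omega
      · unfold qui
        rw [coeff_pol]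
        decide
    rw [leadingCoeff, h3]
    unfold qui
    rw [coeff_pol]
    decide
  rw [Monic, hlc, h2]

end Pool.Agent.Helper41.RS
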