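import Mathlib

/-!
# MP_418077_nt, pairs with a root of bounded degree: the irreducible factor of a root
-/

set_option autoImplicit false

namespace Pool.Agent.Helper41.RS

open Polynomial

lemma isPrimitive_of_irr {f : ℤ[X]} (hf : Irreducible f) {a : ℂ} (ha : aeval a f = 0) :
    f.IsPrimitive := by
  refine hf.isPrimitive ?_
  intro h0
  rw [eq_C_of_natDegree_eq_zero h0, aeval_C] at ha
  have h1 : f.coeff 0 = 0 := (map_eq_zero_iff _ (RingHom.injective_int (algebraMap ℤ ℂ))).1 ha
  exact hf.ne_zero (by rw [eq_C_of_natDegree_eq_zero h0, h1, C_0])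

lemma aeval_map_rat (f : ℤ[X]) (a : ℂ) : aeval a (f.map (Int.castRingHom ℚ)) = aeval a f := by
  have : Int.castRingHom ℚ = algebraMap ℤ ℚ := rfl
  rw [this, aeval_map_algebraMap]

/-- The degree of an irreducible integer polynomial is the degree of its roots. -/
theorem natDegree_irr {f : ℤ[X]} (hf : Irreducible f) {a : ℂ} (ha : aeval a f = 0) :
    f.natDegree = (minpoly ℚ a).natDegree := by
  have hp := isPrimitive_of_irr hf ha
  have h1 : Irreducible (f.map (Int.castRingHom ℚ)) :=
    (IsPrimitive.Int.irreducible_iff_irreducible_map_cast hp).1 hf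
  have h2 : aeval a (f.map (Int.castRingHom ℚ)) = 0 := by rw [aeval_map_rat, ha]
  have h3 := minpoly.eq_of_irreducible h1 h2
  have h4 : (f.map (Int.castRingHom ℚ)).leadingCoeff ≠ 0 := leadingCoeff_ne_zero.2 h1.ne_zero
  rw [← h3, natDegree_mul_C (inv_ne_zero h4),
    natDegree_map_eq_of_injective (RingHom.injective_int _)]

/-- Every root of a nonzero integer polynomial is a root of an irreducible factor. -/
theorem exists_irr {P : ℤ[X]} (hP : P ≠ 0) {a : ℂ} (ha : aeval a P = 0) :
    ∃ f : ℤ[X], Irreducible f ∧ f ∣ P ∧ aeval a f = 0 := by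
  induction P using WfDvdMonoid.induction_on_irreducible with
  | zero => exact absurd rfl hP
  | unit u hu =>
    exfalso
    obtain ⟨v, hv⟩ := hu.exists_right_inv
    have h1 := congrArg (aeval a) hv
    rw [map_mul, ha, zero_mul, map_one] at h1
    exact zero_ne_one h1
  | mul q p hq hp ih =>
    rw [map_mul, mul_eq_zero] at ha
    rcases ha with h | h
    · exact ⟨p, hp, dvd_mul_right _ _, h⟩
    · obtain ⟨f, hf, hfq, hfa⟩ := ih hq h
      exact ⟨f, hf, hfq.mul_left _, hfa⟩

/-- An irreducible integer polynomial with the root `a` divides all integer polynomials with the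
root `a`. -/
theorem dvd_of_root {f P : ℤ[X]} (hf : Irreducible f) {a : ℂ} (ha : aeval a f = 0)
    (hP : aeval a P = 0) : f ∣ P := by
  rcases eq_or_ne P 0 with rfl | hP0
  · exact dvd_zero _
  obtain ⟨g, hg, hgP, hga⟩ := exists_irr hP0 hP
  refine dvd_trans ?_ hgP
  have hfp := isPrimitive_of_irr hf ha
  refine (IsPrimitive.Int.dvd_iff_map_cast_dvd_map_cast f g hfp).2 ?_
  have h1 : Irreducible (f.map (Int.castRingHom ℚ)) :=
    (IsPrimitive.Int.irreducible_iff_irreducible_map_cast hfp).1 hf
  have h3 := minpoly.eq_of_irreducible h1 (by rw [aeval_map_rat, ha] : aeval a _ = 0)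
  have h5 : minpoly ℚ a ∣ g.map (Int.castRingHom ℚ) :=
    minpoly.dvd ℚ a (by rw [aeval_map_rat, hga])
  rw [← h3] at h5
  exact dvd_of_mul_right_dvd h5

end Pool.Agent.Helper41.RS
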