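import Pool.Agent.Helper41.RS.Ext

/-!
# MP_418077_nt, pairs with a root of bounded degree: the roots `1 / 2` and `(√5 - 1) / 2`
-/

set_option autoImplicit false

namespace Pool.Agent.Helper41.RS

open Polynomial Finset

lemma gold_sum {x : ℝ} (hx : x ^ 2 + x - 1 = 0) (m : ℕ) :
    ∑ j ∈ range (m + 3), |(j : ℝ) - 3| * x ^ (j + 1) + m * x ^ (m + 2) + x ^ (m + 1) =
      4 * x + 1 := by
  induction m with
  | zero =>
    simp only [Finset.sum_range_succ, Finset.sum_range_zero]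
    norm_num
    linear_combination (x + 1) * hx
  | succ m ih =>
    rw [show m + 1 + 3 = (m + 3) + 1 by ring, Finset.sum_range_succ]
    have h1 : |((m + 3 : ℕ) : ℝ) - 3| = m := by
      push_cast
      rw [add_sub_cancel_right, abs_of_nonneg (Nat.cast_nonneg m)]
    rw [h1]
    push_cast
    have h2 : x ^ (m + 3 + 1) = x ^ (m + 1) * x ^ 3 := by ring
    have h3 : x ^ (m + 1 + 2) = x ^ (m + 1) * x ^ 2 := by ring
    have h4 : x ^ (m + 1 + 1) = x ^ (m + 1) * x := by ring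
    have h5 : x ^ (m + 2) = x ^ (m + 1) * x := by ring
    rw [h5] at ih
    rw [h2, h3, h4]
    linear_combination ih + (m * x + 1) * x ^ (m + 1) * hx

lemma gold_sum_le {x : ℝ} (h0 : 0 < x) (hx : x ^ 2 + x - 1 = 0) (n : ℕ) :
    ∑ j ∈ range n, |(j : ℝ) - 3| * x ^ (j + 1) ≤ 4 * x + 1 := by
  have h1 := gold_sum hx n
  have h2 : ∑ j ∈ range n, |(j : ℝ) - 3| * x ^ (j + 1) ≤
      ∑ j ∈ range (n + 3), |(j : ℝ) - 3| * x ^ (j + 1) :=
    Finset.sum_le_sum_of_subset_of_nonneg (Finset.range_mono (by omega))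
      fun i _ _ => by positivity
  have h3 : 0 ≤ (n : ℝ) * x ^ (n + 2) := by positivity
  have h4 : 0 ≤ x ^ (n + 1) := by positivity
  linarith

/-- Polynomials of height one with the root `(√5 - 1) / 2`. -/
theorem gold_lower {x₀ : ℝ} (h0 : 0 < x₀) (hx : x₀ ^ 2 + x₀ - 1 = 0) {n : ℕ} {Q : ℤ[X]}
    (hQ : Q ∈ Sepa n 1) (hQ0 : Q.coeff 0 ≠ 0) (hQx : aeval (x₀ : ℂ) Q = 0) :
    1 / 2 ≤ ‖aeval (x₀ : ℂ) (derivative Q)‖ := by
  have hxn : ‖(x₀ : ℂ)‖ = x₀ := by rw [Complex.norm_real, Real.norm_of_nonneg h0.le]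
  have hx1 : x₀ < 5 / 8 := by nlinarith
  have e1 := aeval_eq_range Q n hQ.1.le (x₀ : ℂ)
  have e2 := aeval_deriv_eq_range Q n hQ.1.le (x₀ : ℂ)
  have e3 : (x₀ : ℂ) * aeval (x₀ : ℂ) (derivative Q) =
      ∑ j ∈ range (n + 1), (Q.coeff j : ℂ) * (((j : ℂ) - 4) * (x₀ : ℂ) ^ j) := by
    have h1 : (x₀ : ℂ) * aeval (x₀ : ℂ) (derivative Q) =
        (x₀ : ℂ) * aeval (x₀ : ℂ) (derivative Q) - 4 * aeval (x₀ : ℂ) Q := by
      rw [hQx]
      ring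
    rw [h1, e1, e2, Finset.mul_sum, Finset.mul_sum, ← Finset.sum_sub_distrib]
    refine Finset.sum_congr rfl fun j _ => ?_
    rcases j with _ | j
    · simp
      ring
    · rw [Nat.add_sub_cancel]
      push_cast
      ring
  rw [Finset.sum_range_succ'] at e3
  have h1 : (1 : ℝ) ≤ ‖((Q.coeff 0 : ℤ) : ℂ)‖ := by
    rw [Complex.norm_intCast]
    exact_mod_cast Int.one_le_abs hQ0
  have h2 : ‖∑ j ∈ range n, (Q.coeff (j + 1) : ℂ) *
      ((((j + 1 : ℕ) : ℂ) - 4) * (x₀ : ℂ) ^ (j + 1))‖ ≤ 4 * x₀ + 1 := by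
    refine (norm_sum_le _ _).trans (le_trans (Finset.sum_le_sum fun j _ => ?_)
      (gold_sum_le h0 hx n))
    have h3 : ‖(((j + 1 : ℕ) : ℂ) - 4)‖ = |(j : ℝ) - 3| := by
      have : (((j + 1 : ℕ) : ℂ) - 4) = (((j : ℝ) - 3 : ℝ) : ℂ) := by
        push_cast
        ring
      rw [this, Complex.norm_real, Real.norm_eq_abs]
    rw [norm_mul, norm_mul, h3, norm_pow, hxn]
    have h4 : ‖((Q.coeff (j + 1) : ℤ) : ℂ)‖ ≤ 1 := by
      rw [Complex.norm_intCast]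
      have := (natAbs_coeff_le Q (j + 1)).trans hQ.2.1
      have h5 : |Q.coeff (j + 1)| ≤ 1 := by
        rw [Int.abs_eq_natAbs]
        exact_mod_cast this
      exact_mod_cast h5
    calc ‖((Q.coeff (j + 1) : ℤ) : ℂ)‖ * (|(j : ℝ) - 3| * x₀ ^ (j + 1)) ≤
        1 * (|(j : ℝ) - 3| * x₀ ^ (j + 1)) := by gcongr
      _ = _ := one_mul _
  have h3 : ‖(x₀ : ℂ) * aeval (x₀ : ℂ) (derivative Q)‖ ≥ 4 - (4 * x₀ + 1) := by
    rw [e3]
    have h5 : ‖((Q.coeff 0 : ℤ) : ℂ) * ((((0 : ℕ) : ℂ) - 4) * (x₀ : ℂ) ^ 0)‖ =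
        ‖((Q.coeff 0 : ℤ) : ℂ)‖ * 4 := by
      rw [norm_mul]
      congr 1
      simp
    have h6 := norm_sub_le_norm_add
      (((Q.coeff 0 : ℤ) : ℂ) * ((((0 : ℕ) : ℂ) - 4) * (x₀ : ℂ) ^ 0))
      (∑ j ∈ range n, (Q.coeff (j + 1) : ℂ) * ((((j + 1 : ℕ) : ℂ) - 4) * (x₀ : ℂ) ^ (j + 1)))
    rw [h5, add_comm] at h6
    linarith
  rw [norm_mul, hxn] at h3
  by_contra hc
  rw [not_le] at hc
  nlinarith

/-- Polynomials of height two with the root `1 / 2`. -/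
theorem half_lower {n : ℕ} {Q : ℤ[X]} (hQ : Q ∈ Sepa n 2) (hQ0 : Q.coeff 0 ≠ 0)
    (hQx : aeval (((1 / 2 : ℝ)) : ℂ) Q = 0) :
    1 ≤ ‖aeval (((1 / 2 : ℝ)) : ℂ) (derivative Q)‖ := by
  have hirr : Irreducible (C (2 : ℤ) * X + C (-1)) :=
    irreducible_C_mul_X_add_C (by norm_num) (fun d _ hd => isUnit_of_dvd_unit hd (by simp))
  have hf : aeval (((1 / 2 : ℝ)) : ℂ) (C (2 : ℤ) * X + C (-1)) = 0 := by
    simp only [map_add, map_mul, aeval_C, aeval_X]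
    simp
  obtain ⟨g, hg⟩ := dvd_of_root hirr hf hQx
  have hc0 : Q.coeff 0 = -g.coeff 0 := by
    rw [hg, mul_coeff_zero]
    simp
  have hcs : ∀ i, Q.coeff (i + 1) = 2 * g.coeff i - g.coeff (i + 1) := by
    intro i
    rw [hg, add_mul, mul_assoc, coeff_add, coeff_C_mul, coeff_C_mul, coeff_X_mul]
    ring
  have hQh : ∀ i, (Q.coeff i).natAbs ≤ 2 := fun i => (natAbs_coeff_le Q i).trans hQ.2.1
  have hgh : ∀ m i, g.natDegree + 1 ≤ i + m → (g.coeff i).natAbs ≤ 1 := by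
    intro m
    induction m with
    | zero =>
      intro i hi
      rw [coeff_eq_zero_of_natDegree_lt (by omega)]
      simp
    | succ m ih =>
      intro i hi
      have h1 := ih (i + 1) (by omega)
      have h2 := hQh (i + 1)
      rw [hcs] at h2
      omega
  have hgh' : ∀ i, (g.coeff i).natAbs ≤ 1 := fun i => hgh (g.natDegree + 1) i (by omega)
  have h01 := hQh 1
  rw [hcs 0, zero_add] at h01
  have hd : aeval (((1 / 2 : ℝ)) : ℂ) (derivative Q) = 2 * aeval (((1 / 2 : ℝ)) : ℂ) g := by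
    rw [hg, derivative_mul, map_add, map_mul, map_mul, hf, zero_mul, add_zero]
    congr 1
    rw [derivative_add, derivative_C_mul, derivative_X, derivative_C, mul_one, add_zero, aeval_C]
    simp
  have e1 := aeval_eq_range g (g.natDegree + 1) (by omega) (((1 / 2 : ℝ)) : ℂ)
  rw [Finset.sum_range_succ', Finset.sum_range_succ'] at e1
  have h2 : ‖∑ k ∈ range g.natDegree, (g.coeff (k + 1 + 1) : ℂ) *
      (((1 / 2 : ℝ)) : ℂ) ^ (k + 1 + 1)‖ ≤ 1 / 2 := by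
    have h3 : ∀ m : ℕ, ∑ k ∈ range m, (1 / 2 : ℝ) ^ (k + 1 + 1) = 1 / 2 - (1 / 2) ^ (m + 1) := by
      intro m
      induction m with
      | zero => norm_num
      | succ m ih =>
        rw [Finset.sum_range_succ, ih]
        ring
    have h4 : ∑ k ∈ range g.natDegree, (1 / 2 : ℝ) ^ (k + 1 + 1) ≤ 1 / 2 := by
      rw [h3]
      have : (0 : ℝ) < (1 / 2) ^ (g.natDegree + 1) := by positivity
      linarith
    refine (norm_sum_le _ _).trans (le_trans (Finset.sum_le_sum fun j _ => ?_) h4)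
    rw [norm_mul, norm_pow]
    have h5 : ‖((g.coeff (j + 1 + 1) : ℤ) : ℂ)‖ ≤ 1 := by
      rw [Complex.norm_intCast]
      have := hgh' (j + 1 + 1)
      have h5 : |g.coeff (j + 1 + 1)| ≤ 1 := by
        rw [Int.abs_eq_natAbs]
        exact_mod_cast this
      exact_mod_cast h5
    have h6 : ‖(((1 / 2 : ℝ)) : ℂ)‖ = 1 / 2 := by
      rw [Complex.norm_real, Real.norm_of_nonneg (by norm_num)]
    rw [h6]
    calc ‖((g.coeff (j + 1 + 1) : ℤ) : ℂ)‖ * (1 / 2 : ℝ) ^ (j + 1 + 1) ≤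
        1 * (1 / 2 : ℝ) ^ (j + 1 + 1) := by gcongr
      _ = _ := one_mul _
  have h3 : (1 : ℝ) ≤ ‖(g.coeff (0 + 1) : ℂ) * (((1 / 2 : ℝ)) : ℂ) ^ (0 + 1) +
      (g.coeff 0 : ℂ) * (((1 / 2 : ℝ)) : ℂ) ^ 0‖ := by
    have h4 : (g.coeff (0 + 1) : ℂ) * (((1 / 2 : ℝ)) : ℂ) ^ (0 + 1) +
      (g.coeff 0 : ℂ) * (((1 / 2 : ℝ)) : ℂ) ^ 0 =
        (((g.coeff 1 : ℝ) * (1 / 2) + g.coeff 0 : ℝ) : ℂ) := by
      push_cast
      ring
    rw [h4, Complex.norm_real, Real.norm_eq_abs]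
    have g0 := hgh' 0
    have g1 := hgh' 1
    have h5 : (g.coeff 0 = 1 ∧ 0 ≤ g.coeff 1) ∨ (g.coeff 0 = -1 ∧ g.coeff 1 ≤ 0) := by
      have : g.coeff 0 ≠ 0 := by
        intro h
        rw [h, neg_zero] at hc0
        exact hQ0 hc0
      omega
    rcases h5 with ⟨h6, h7⟩ | ⟨h6, h7⟩
    · rw [h6]
      have h8 : (0 : ℝ) ≤ (g.coeff 1 : ℝ) := by exact_mod_cast h7
      refine le_trans ?_ (le_abs_self _)
      push_cast
      linarith
    · rw [h6]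
      have h8 : (g.coeff 1 : ℝ) ≤ 0 := by exact_mod_cast h7
      refine le_trans ?_ (neg_le_abs _)
      push_cast
      linarith
  rw [hd, norm_mul, e1]
  have h4 := norm_sub_le_norm_add ((g.coeff (0 + 1) : ℂ) * (((1 / 2 : ℝ)) : ℂ) ^ (0 + 1) +
      (g.coeff 0 : ℂ) * (((1 / 2 : ℝ)) : ℂ) ^ 0)
    (∑ k ∈ range g.natDegree, (g.coeff (k + 1 + 1) : ℂ) * (((1 / 2 : ℝ)) : ℂ) ^ (k + 1 + 1))
  have h5 : ∑ k ∈ range g.natDegree, (g.coeff (k + 1 + 1) : ℂ) *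
      (((1 / 2 : ℝ)) : ℂ) ^ (k + 1 + 1) + (g.coeff (0 + 1) : ℂ) * (((1 / 2 : ℝ)) : ℂ) ^ (0 + 1) +
      (g.coeff 0 : ℂ) * (((1 / 2 : ℝ)) : ℂ) ^ 0 =
      (g.coeff (0 + 1) : ℂ) * (((1 / 2 : ℝ)) : ℂ) ^ (0 + 1) +
      (g.coeff 0 : ℂ) * (((1 / 2 : ℝ)) : ℂ) ^ 0 + ∑ k ∈ range g.natDegree,
        (g.coeff (k + 1 + 1) : ℂ) * (((1 / 2 : ℝ)) : ℂ) ^ (k + 1 + 1) := by ring
  rw [h5]
  have h6 : ‖(2 : ℂ)‖ = 2 := by simp
  rw [h6]
  linarith

end Pool.Agent.Helper41.RS
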