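import Pool.Agent.Helper41.RS.Exc

/-!
# MP_418077_nt, pairs with a root of bounded degree: the orders of growth
-/

set_option autoImplicit false

namespace Pool.Agent.Helper41.RS

open Polynomial Filter Topology

/-- the exceptional degrees and heights -/
def Exc (k H : ℕ) : Prop := (k = 1 ∧ H ≤ 2) ∨ (k = 2 ∧ H = 1)

lemma exists_gold : ∃ x : ℝ, 0 < x ∧ x < 1 ∧ x ^ 2 + x - 1 = 0 ∧ 3 / 5 < x ∧ x < 5 / 8 := by
  have h5 : √(5 : ℝ) ^ 2 = 5 := Real.sq_sqrt (by norm_num)
  have h0 := Real.sqrt_nonneg (5 : ℝ)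
  refine ⟨(√5 - 1) / 2, ?_, ?_, ?_, ?_, ?_⟩
  · nlinarith
  · nlinarith
  · linear_combination h5 / 4
  · nlinarith
  · nlinarith

/-- In the exceptional cases the distances are not exponentially small. -/
theorem exc_lower {k H : ℕ} (hk : 1 ≤ k) (hH : 1 ≤ H) (h : Exc k H) {n : ℕ} (hn : 1 ≤ n)
    {r : ℝ} (hr : r ∈ pairDist k (Sepa n H)) : 1 ≤ 8 * Real.exp 1 * (n : ℝ) ^ 5 * r := by
  have hr0 := pos_of_mem hr
  have hn0 : (1 : ℝ) ≤ n := by exact_mod_cast hn
  have he := Real.exp_pos 1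
  have hpow : (n : ℝ) ^ 3 ≤ (n : ℝ) ^ 5 := pow_le_pow_right₀ hn0 (by norm_num)
  have h35 : 8 * Real.exp 1 * (n : ℝ) ^ 3 * r ≤ 8 * Real.exp 1 * (n : ℝ) ^ 5 * r := by gcongr
  rcases h with ⟨rfl, hH2⟩ | ⟨rfl, rfl⟩
  · obtain ⟨P, hP, a, b, ha, hb, hab, hdeg, rfl⟩ := hr
    have hP2 : P ∈ Sepa n 2 := sepa_mono hH2 hP
    have h1 := dist_of_deriv hn (by norm_num) hP2 ha hb hab (by norm_num)
      (exc_one hn hP2 ha hdeg)
    push_cast at h1
    refine le_trans ?_ h35
    linarith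
  · obtain ⟨P, hP, a, b, ha, hb, hab, hdeg, rfl⟩ := hr
    have hP0 := ne_zero_of_mem hn hP
    by_cases ha0 : a = 0
    · have h2 := int_deriv hn hP 0 (by
        rw [Int.cast_zero]
        rw [ha0] at ha
        exact ha)
      rw [Int.cast_zero] at h2
      have h1 := dist_of_deriv hn le_rfl hP ha hb hab (c := 1) le_rfl (by
        rw [ha0, norm_zero, max_eq_left zero_le_one, one_pow, mul_one]
        exact h2)
      push_cast at h1
      refine le_trans ?_ h35
      have : 0 < Real.exp 1 * (n : ℝ) ^ 3 * ‖a - b‖ := by positivity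
      linarith
    obtain ⟨f, hf, hfP, hfa⟩ := exists_irr hP0 ha
    have hfd : f.natDegree ≤ 2 := by rw [natDegree_irr hf hfa]; exact hdeg
    obtain ⟨v1, v2⟩ := const_dvd hn hP hf hfP ha0 hfa
    obtain ⟨u1, u2⟩ := lead_dvd hn hP hfP
    have hroots : ∀ z : ℂ, aeval z f = 0 → aeval z P = 0 := by
      intro z hz
      obtain ⟨g, hg⟩ := hfP
      rw [hg, map_mul, hz, zero_mul]
    -- all roots in the closed unit disc
    have unit : (∀ z : ℂ, aeval z f = 0 → ‖z‖ ≤ 1) →
        1 ≤ 8 * Real.exp 1 * (n : ℝ) ^ 5 * ‖a - b‖ := by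
      intro hz
      have hM := M_le_one u1 hz
      have hM0 : 0 ≤ (f.map (Int.castRingHom ℂ)).mahlerMeasure := mahlerMeasure_nonneg _
      have h1 := pair_lower hP0 hP.2.2 hfP hP.1 hn le_rfl
        (fun i => (natAbs_coeff_le P i).trans hP.2.1) hfa hb hab
      push_cast at h1
      have h2 : (1 * (n : ℝ) ^ 2) ^ f.natDegree ≤ (1 * (n : ℝ) ^ 2) ^ 2 :=
        pow_le_pow_right₀ (by rw [one_mul]; exact one_le_pow₀ hn0) hfd
      have h3 : (f.map (Int.castRingHom ℂ)).mahlerMeasure ^ (n - 1) ≤ 1 := pow_le_one₀ hM0 hM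
      calc (1 : ℝ) ≤ Real.exp 1 * n * (1 * (n : ℝ) ^ 2) ^ f.natDegree *
            (f.map (Int.castRingHom ℂ)).mahlerMeasure ^ (n - 1) * ‖a - b‖ := h1
        _ ≤ Real.exp 1 * n * (1 * (n : ℝ) ^ 2) ^ 2 * 1 * ‖a - b‖ := by gcongr
        _ = Real.exp 1 * (n : ℝ) ^ 5 * ‖a - b‖ := by ring
        _ ≤ 8 * Real.exp 1 * (n : ℝ) ^ 5 * ‖a - b‖ := by
          have : 0 < Real.exp 1 * (n : ℝ) ^ 5 * ‖a - b‖ := by positivity
          linarith
    have hlead : f.leadingCoeff = 1 ∨ f.leadingCoeff = -1 := by omega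
    have hconst : f.coeff 0 = 1 ∨ f.coeff 0 = -1 := by omega
    have hfe : ∀ z : ℂ, aeval z f = (f.coeff 2 : ℂ) * z ^ 2 + f.coeff 1 * z + f.coeff 0 := by
      intro z
      rw [aeval_eq_range f 2 hfd]
      simp only [Finset.sum_range_succ, Finset.sum_range_zero]
      ring
    have hcases : f.natDegree = 0 ∨ f.natDegree = 1 ∨ f.natDegree = 2 := by omega
    rcases hcases with hd | hd | hd
    · exfalso
      rw [eq_C_of_natDegree_eq_zero hd, aeval_C] at hfa
      have h1 : f.coeff 0 = 0 :=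
        (map_eq_zero_iff _ (RingHom.injective_int (algebraMap ℤ ℂ))).1 hfa
      exact v2 h1
    · refine unit fun z hz => ?_
      rw [hfe, coeff_eq_zero_of_natDegree_lt (by omega : f.natDegree < 2)] at hz
      rw [leadingCoeff, hd] at hlead
      have h1 : (f.coeff 1 : ℂ) * z = -(f.coeff 0 : ℂ) := by
        push_cast at hz
        linear_combination hz
      have h2 := congrArg norm h1
      rw [norm_mul, norm_neg] at h2
      have h3 : ‖((f.coeff 1 : ℤ) : ℂ)‖ = 1 := by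
        rcases hlead with h | h <;> rw [h] <;> simp
      have h4 : ‖((f.coeff 0 : ℤ) : ℂ)‖ = 1 := by
        rcases hconst with h | h <;> rw [h] <;> simp
      rw [h3, h4, one_mul] at h2
      exact h2.le
    · rw [leadingCoeff, hd] at hlead
      obtain ⟨x₀, g0, g1, g2, g3, g4⟩ := exists_gold
      rcases quad_case (u := f.coeff 1) hlead hconst (fun z hz => norm_lt_two hn hP (hroots z (by
        rw [hfe]
        exact hz))) g0 g2 with hq | hq
      · exact unit fun z hz => hq z (by rw [← hfe]; exact hz)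
      · have h1 := ext_lower (x₀ := x₀) (c := 1 / 2) (H := 1) g0 g1 (by norm_num)
          (fun m hm Q hQ hQ0 hQx => gold_lower g0 g2 hQ hQ0 hQx) hn hP
          (hq a (by rw [← hfe]; exact hfa)) ha
        have h2 := dist_of_deriv hn le_rfl hP ha hb hab (by nlinarith) h1
        push_cast at h2
        refine le_trans ?_ h35
        nlinarith

/-- `X ^ n - 1` -/
lemma cyc_mem {n : ℕ} (hn : 1 ≤ n) : (X ^ n - 1 : ℤ[X]) ∈ SepaMon n 1 := by
  have hmon : (X ^ n - 1 : ℤ[X]).Monic := by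
    have := monic_X_pow_sub_C (1 : ℤ) (by omega : n ≠ 0)
    rwa [C_1] at this
  have hc : ∀ i, ((X ^ n - 1 : ℤ[X]).coeff i).natAbs ≤ 1 := by
    intro i
    rw [coeff_sub, coeff_X_pow, coeff_one]
    split_ifs <;> simp
  refine ⟨⟨?_, height_le hc, ?_⟩, hmon⟩
  · have := natDegree_X_pow_sub_C (n := n) (r := (1 : ℤ))
    rwa [C_1] at this
  · refine nodup_of_deriv hmon.ne_zero fun z hz => ?_
    rw [map_sub, map_pow, aeval_X, map_one] at hz
    rw [derivative_sub, derivative_X_pow, derivative_one, sub_zero, map_mul, map_pow, aeval_X]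
    have hz0 : z ≠ 0 := by
      rintro rfl
      rw [zero_pow (by omega)] at hz
      norm_num at hz
    have hn0 : (n : ℂ) ≠ 0 := by exact_mod_cast (by omega : n ≠ 0)
    simpa using ⟨by omega, fun h => absurd h hz0⟩

lemma cyc_dist {k n : ℕ} (hk : 1 ≤ k) (hn : 2 ≤ n) :
    ∃ r ∈ pairDist k (SepaMon n 1), r ≤ 2 * Real.pi / n := by
  have hn0 : (0 : ℝ) < n := by exact_mod_cast (by omega : 0 < n)
  have hnc : (n : ℂ) ≠ 0 := by exact_mod_cast (by omega : n ≠ 0)
  set b : ℂ := Complex.exp (Complex.I * ((2 * Real.pi / n : ℝ) : ℂ)) with hb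
  have hbn : b ^ n = 1 := by
    rw [hb, ← Complex.exp_nat_mul]
    have : (n : ℂ) * (Complex.I * ((2 * Real.pi / n : ℝ) : ℂ)) = 2 * Real.pi * Complex.I := by
      push_cast
      field_simp
    rw [this, Complex.exp_two_pi_mul_I]
  have hb1 : b ≠ 1 := by
    intro h
    rw [hb, Complex.exp_eq_one_iff] at h
    obtain ⟨m, hm⟩ := h
    have h1 : ((2 * Real.pi / n : ℝ) : ℂ) = m * (2 * Real.pi) := by
      have hI := Complex.I_ne_zero
      apply mul_left_cancel₀ hI
      rw [hm]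
      ring
    have h2 : 2 * Real.pi / n = m * (2 * Real.pi) := by exact_mod_cast h1
    have hpi := Real.pi_pos
    have h3 : (m : ℝ) * n = 1 := by
      field_simp at h2
      linarith
    have h4 : m * (n : ℤ) = 1 := by exact_mod_cast h3
    have h5 := Int.isUnit_iff.1 (IsUnit.of_mul_eq_one_right m h4)
    omega
  refine ⟨‖(1 : ℂ) - b‖, ⟨X ^ n - 1, cyc_mem (by omega), 1, b, ?_, ?_, hb1.symm, ?_, rfl⟩, ?_⟩
  · simp
  · rw [map_sub, map_pow, aeval_X, map_one, hbn, sub_self]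
  · have h1 : (X - 1 : ℚ[X]) = X - C 1 := by rw [C_1]
    rw [minpoly.one, h1, natDegree_X_sub_C]
    exact hk
  · rw [norm_sub_rev, hb]
    refine Real.norm_exp_I_mul_ofReal_sub_one_le.trans (le_of_eq ?_)
    rw [Real.norm_of_nonneg (by positivity)]

end Pool.Agent.Helper41.RS
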