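import Pool.Agent.Helper41.RS.Inst

/-!
# MP_418077_nt, pairs with a root of bounded degree: the family of height three with the root `1/2`

`(2 X - 1) (1 - X - ... - X ^ (n - 1))`.
-/

set_option autoImplicit false

namespace Pool.Agent.Helper41.RS

open Polynomial Filter Topology

/-- `1 + X + ... + X ^ (N - 1)`. -/
noncomputable def geo (N : ℕ) : ℤ[X] := ∑ i ∈ Finset.range N, X ^ i

lemma coeff_geo (N i : ℕ) : (geo N).coeff i = if i < N then 1 else 0 := by
  unfold geo
  rw [finsetSum_coeff]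
  simp only [coeff_X_pow]
  rw [Finset.sum_ite_eq (Finset.range N) i]
  simp only [Finset.mem_range]

lemma geo_mul (N : ℕ) : (1 - X) * geo N = 1 - X ^ N := mul_neg_geom_sum X N

/-- `(2 X - 1) (1 - X - ... - X ^ (N - 1))`. -/
noncomputable def mul3 (N : ℕ) : ℤ[X] := C 4 * X - C 2 + geo N - C 2 * (X * geo N)

lemma mul3_eq (N : ℕ) : (1 - X) * mul3 N = (C 2 * X - 1) * (X ^ N - (C 2 * X - 1)) := by
  unfold mul3
  have h := geo_mul N
  have e4 : (C 4 : ℤ[X]) = 4 := rfl
  have e2 : (C 2 : ℤ[X]) = 2 := rfl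
  rw [e4, e2]
  linear_combination (1 - 2 * X) * h

lemma coeff_mul3 (N i : ℕ) : (mul3 N).coeff i =
    (if i = 1 then 4 else 0) - (if i = 0 then 2 else 0) + (if i < N then 1 else 0) -
      2 * (if 1 ≤ i ∧ i ≤ N then 1 else 0) := by
  unfold mul3
  rw [coeff_sub, coeff_add, coeff_sub, coeff_C_mul, coeff_C_mul, coeff_X, coeff_C, coeff_geo]
  have h1 : (X * geo N).coeff i = if 1 ≤ i ∧ i ≤ N then 1 else 0 := by
    rcases i with _ | i
    · rw [mul_coeff_zero, coeff_X_zero, zero_mul]
      simp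
    · rw [coeff_X_mul, coeff_geo]
      by_cases h : i < N
      · rw [if_pos h, if_pos ⟨by omega, by omega⟩]
      · rw [if_neg h, if_neg (by omega)]
  rw [h1]
  have h2 : (4 : ℤ) * (if 1 = i then 1 else 0) = if i = 1 then 4 else 0 := by
    by_cases h : i = 1
    · rw [if_pos h.symm, if_pos h, mul_one]
    · rw [if_neg (fun h' => h h'.symm), if_neg h, mul_zero]
  rw [h2]

theorem family_mul :
    ∃ C : ℝ, 0 < C ∧ ∀ᶠ n : ℕ in atTop, ∃ P ∈ Sepa n 3,
      P.coeff 0 = -1 ∧ aeval (((1 / 2 : ℝ)) : ℂ) P = 0 ∧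
      ∃ x : ℝ, x ≠ 1 / 2 ∧ aeval (x : ℂ) P = 0 ∧ |x - 1 / 2| ≤ C * (1 / 2 : ℝ) ^ n := by
  set G : ℂ[X] := C 2 * X - 1 with hG
  have hGe : ∀ z : ℂ, G.eval z = 2 * z - 1 := fun z => by
    rw [hG]
    simp
  have hGd : ∀ z : ℂ, (derivative G).eval z = 2 := fun z => by
    rw [hG]
    simp
  have hsep := no_double G (fun z _ _ => by rw [hGd]; norm_num) (by rw [hGe]; norm_num)
  obtain ⟨C, hC0, hC⟩ := exists_near (fun x : ℝ => 2 * x - 1) (by fun_prop)
    (x₀ := 1 / 2) (d := 2) (by norm_num) (by norm_num) (by norm_num)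
    (by simpa using ((hasDerivAt_id (1 / 2 : ℝ)).const_mul 2).sub_const 1) (by norm_num)
  refine ⟨C, hC0, ?_⟩
  have hsmall : ∀ᶠ N : ℕ in atTop, C * (1 / 2 : ℝ) ^ N < 1 / 2 := by
    have h1 := (tendsto_pow_atTop_nhds_zero_of_lt_one (by norm_num : (0 : ℝ) ≤ 1 / 2)
      (by norm_num)).const_mul C
    rw [mul_zero] at h1
    exact h1.eventually (gt_mem_nhds (by norm_num))
  filter_upwards [hsep, hC, hsmall, eventually_ge_atTop 3] with N hN1 hN2 hN3 hN4
  have hdeg : (mul3 N).natDegree = N := by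
    refine natDegree_eq_of_le_of_coeff_ne_zero ?_ ?_
    · refine natDegree_le_iff_coeff_eq_zero.2 fun i hi => ?_
      rw [coeff_mul3, if_neg (by omega), if_neg (by omega), if_neg (by omega), if_neg (by omega)]
      norm_num
    · rw [coeff_mul3, if_neg (by omega), if_neg (by omega), if_neg (by omega),
        if_pos ⟨by omega, le_rfl⟩]
      norm_num
  have hP0 : mul3 N ≠ 0 := by
    intro h
    rw [h, natDegree_zero] at hdeg
    omega
  have hid : ∀ z : ℂ, (1 - z) * aeval z (mul3 N) = (2 * z - 1) * (z ^ N - (2 * z - 1)) := by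
    intro z
    have h := congrArg (aeval z) (mul3_eq N)
    have e2 : aeval z (2 : ℤ[X]) = (2 : ℂ) := map_ofNat (aeval z) 2
    simp at h
    rw [e2] at h
    exact h
  have hid' : ∀ z : ℂ, -aeval z (mul3 N) + (1 - z) * aeval z (derivative (mul3 N)) =
      2 * (z ^ N - (2 * z - 1)) + (2 * z - 1) * (N * z ^ (N - 1) - 2) := by
    intro z
    have h := congrArg (fun Q => aeval z (derivative Q)) (mul3_eq N)
    simp only [derivative_mul, derivative_one, derivative_X, derivative_X_pow,
      map_add, map_mul, map_sub, map_pow, aeval_X, map_one] at h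
    have e2 : aeval z (2 : ℤ[X]) = (2 : ℂ) := map_ofNat (aeval z) 2
    simp at h
    rw [e2] at h
    linear_combination h
  refine ⟨mul3 N, ⟨hdeg, ?_, ?_⟩, ?_, ?_, ?_⟩
  · refine height_le fun i => ?_
    rw [coeff_mul3]
    split_ifs <;> first | omega | decide
  · refine nodup_of_deriv hP0 fun z hz hz' => ?_
    have e1 := hid z
    have e2 := hid' z
    rw [hz, mul_zero] at e1
    rw [hz, hz', mul_zero, neg_zero, zero_add] at e2
    rcases mul_eq_zero.1 e1.symm with h | h
    · rw [h, zero_mul, add_zero, sub_zero] at e2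
      have h2 : z ^ N = 0 := by
        rcases mul_eq_zero.1 e2.symm with h3 | h3
        · norm_num at h3
        · exact h3
      have h3 : z = 0 := pow_eq_zero_iff (by omega) |>.1 h2
      rw [h3] at h
      norm_num at h
    · rw [h, mul_zero, zero_add] at e2
      have h2 : z ^ N = 2 * z - 1 := by linear_combination h
      rcases mul_eq_zero.1 e2.symm with h3 | h3
      · rw [h3] at h2
        have h4 : z = 0 := pow_eq_zero_iff (by omega) |>.1 h2
        rw [h4] at h3
        norm_num at h3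
      · refine hN1 z ?_ ?_
        · rw [hGe, h2]
        · rw [hGd]
          linear_combination h3
  · rw [coeff_mul3, if_neg (by omega), if_pos rfl, if_pos (by omega), if_neg (by omega)]
    norm_num
  · have h2 := hid ((1 / 2 : ℝ) : ℂ)
    have h3 : (2 * (((1 / 2 : ℝ)) : ℂ) - 1) = 0 := by
      push_cast
      norm_num
    rw [h3, zero_mul] at h2
    rcases mul_eq_zero.1 h2 with h4 | h4
    · exfalso
      push_cast at h4
      norm_num at h4
    · exact h4
  · obtain ⟨x, hx1, hx2, hx3⟩ := hN2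
    refine ⟨x, hx1, ?_, hx2⟩
    have h2 := hid (x : ℂ)
    have h3 : ((x : ℂ) ^ N - (2 * (x : ℂ) - 1)) = 0 := by
      have : ((x ^ N : ℝ) : ℂ) = ((2 * x - 1 : ℝ) : ℂ) := by rw [hx3]
      push_cast at this
      rw [this]
      ring
    rw [h3, mul_zero] at h2
    rcases mul_eq_zero.1 h2 with h4 | h4
    · exfalso
      have h5 : (x : ℂ) = 1 := by linear_combination -h4
      have h6 : x = 1 := by exact_mod_cast h5
      rw [h6] at hx2
      have h7 : |(1 : ℝ) - 1 / 2| = 1 / 2 := by norm_num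
      rw [h7] at hx2
      linarith
    · exact h4

end Pool.Agent.Helper41.RS
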