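import Pool.Agent.Helper41.RS.Fac
import Pool.Agent.Helper41.RS.Close

/-!
# MP_418077_nt, pairs with a root of bounded degree: the norm inequality
-/

set_option autoImplicit false

namespace Pool.Agent.Helper41.RS

open Polynomial Finset

/-- The lower bound for the derivative of a separable integer polynomial at a root `a` of a
factor `f`. -/
theorem norm_lower {P f : ℤ[X]} (hP : P ≠ 0) (hnd : (P.aroots ℂ).Nodup) (hf : f ∣ P) {H n : ℕ}
    (hn : P.natDegree = n) (hn1 : 1 ≤ n)
    (hH : ∀ i, (P.coeff i).natAbs ≤ H) {a : ℂ} (ha : aeval a f = 0) :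
    max 1 ‖a‖ ^ (n - 1) ≤ ‖aeval a (derivative P)‖ * ((H : ℝ) * (n : ℝ) ^ 2) ^ (f.natDegree - 1) *
      (f.map (Int.castRingHom ℂ)).mahlerMeasure ^ (n - 1) := by
  classical
  set φ := Int.castRingHom ℂ with hφ
  have hinj : Function.Injective φ := RingHom.injective_int _
  have hf0 : f ≠ 0 := fun h => hP (zero_dvd_iff.1 (h ▸ hf))
  have hfm : f.map φ ≠ 0 := (Polynomial.map_ne_zero_iff hinj).2 hf0
  have hPm : P.map φ ≠ 0 := (Polynomial.map_ne_zero_iff hinj).2 hP
  set g : ℂ[X] := (derivative P).map φ with hg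
  have hgd : g = derivative (P.map φ) := by rw [hg, derivative_map]
  have hroot : ∀ z : ℂ, z ∈ (f.map φ).roots → z ∈ (P.map φ).roots := by
    intro z hz
    exact Multiset.subset_of_le (roots.le_of_dvd hPm (Polynomial.map_dvd φ hf)) hz
  have hnd' : (P.map φ).roots.Nodup := by
    have : P.aroots ℂ = (P.map φ).roots := by
      rw [aroots_def]
      rfl
    rwa [this] at hnd
  have hder : ∀ z : ℂ, z ∈ (f.map φ).roots → g.eval z ≠ 0 := by
    intro z hz h0
    have h1 := hroot z hz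
    have h2 : (P.map φ).rootMultiplicity z = 1 := by
      rw [← count_roots]
      exact Multiset.count_eq_one_of_mem hnd' h1
    have h3 : (P.map φ).IsRoot z := (mem_roots'.1 h1).2
    have h4 := (one_lt_rootMultiplicity_iff_isRoot (p := P.map φ) (t := z) hPm).2
      ⟨h3, by rw [← hgd]; exact h0⟩
    omega
  -- the resultant
  have hgdeg : g.natDegree ≤ n - 1 := by
    rw [hgd]
    refine (natDegree_derivative_le _).trans ?_
    rw [natDegree_map_eq_of_injective hinj, hn]
  have hres : φ (resultant f (derivative P) f.natDegree (n - 1)) =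
      φ f.leadingCoeff ^ (n - 1) * ((f.map φ).roots.map g.eval).prod := by
    have h1 := resultant_eq_prod_eval (f.map φ) g (n - 1) hgdeg (IsAlgClosed.splits _)
    rw [leadingCoeff_map_of_injective hinj, natDegree_map_eq_of_injective hinj] at h1
    rw [← h1, hg, resultant_map_map]
  have hne : resultant f (derivative P) f.natDegree (n - 1) ≠ 0 := by
    intro h
    rw [h, map_zero] at hres
    have h1 : φ f.leadingCoeff ^ (n - 1) ≠ 0 := by
      refine pow_ne_zero _ ?_
      rw [Ne, map_eq_zero_iff φ hinj]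
      exact leadingCoeff_ne_zero.2 hf0
    rcases mul_eq_zero.1 hres.symm with h2 | h2
    · exact h1 h2
    · rw [Multiset.prod_eq_zero_iff, Multiset.mem_map] at h2
      obtain ⟨z, hz, hz0⟩ := h2
      exact hder z hz hz0
  have h1 : (1 : ℝ) ≤ ‖φ f.leadingCoeff‖ ^ (n - 1) * ((f.map φ).roots.map fun z =>
      ‖g.eval z‖).prod := by
    have e1 : (1 : ℝ) ≤ ‖φ (resultant f (derivative P) f.natDegree (n - 1))‖ := by
      rw [hφ, eq_intCast, Complex.norm_intCast]
      exact_mod_cast Int.one_le_abs hne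
    have e2 : ‖((f.map φ).roots.map g.eval).prod‖ =
        ((f.map φ).roots.map fun z => ‖g.eval z‖).prod := by
      have := map_multiset_prod (normHom : ℂ →*₀ ℝ) ((f.map φ).roots.map g.eval)
      rw [Multiset.map_map] at this
      exact this
    rw [hres, norm_mul, norm_pow, e2] at e1
    exact e1
  -- split off the root a
  have haf : a ∈ (f.map φ).roots := by
    rw [mem_roots hfm, IsRoot.def, eval_map]
    exact ha
  obtain ⟨s, hs⟩ := Multiset.exists_cons_of_mem haf
  have hcard : s.card + 1 = f.natDegree := by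
    have e1 : (f.map φ).roots.card = (f.map φ).natDegree :=
      splits_iff_card_roots.1 (IsAlgClosed.splits _)
    rw [hs, Multiset.card_cons, natDegree_map_eq_of_injective hinj] at e1
    exact e1
  have hM : (f.map φ).mahlerMeasure =
      ‖φ f.leadingCoeff‖ * (max 1 ‖a‖ * (s.map fun z => max 1 ‖z‖).prod) := by
    rw [mahlerMeasure_eq_leadingCoeff_mul_prod_roots, hs, Multiset.map_cons, Multiset.prod_cons,
      leadingCoeff_map_of_injective hinj]
  rw [hs, Multiset.map_cons, Multiset.prod_cons] at h1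
  have hH' : ∀ i, ‖(P.map φ).coeff i‖ ≤ (H : ℝ) := by
    intro i
    rw [coeff_map, hφ, eq_intCast, Complex.norm_intCast]
    have := hH i
    have h3 : |((P.coeff i : ℤ) : ℝ)| = (((P.coeff i).natAbs : ℕ) : ℝ) := by
      rw [Nat.cast_natAbs, Int.cast_abs]
    rw [h3]
    exact_mod_cast this
  have hs2 : (s.map fun z => ‖g.eval z‖).prod ≤
      (s.map fun z => (H : ℝ) * (n : ℝ) ^ 2 * max 1 ‖z‖ ^ (n - 1)).prod := by
    refine Multiset.prod_map_le_prod_map₀ _ _ (fun z _ => norm_nonneg _) fun z _ => ?_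
    rw [hgd]
    exact deriv_le (P.map φ) n (by rw [natDegree_map_eq_of_injective hinj, hn]) hH' z
      (le_max_left _ _) (le_max_right _ _)
  have hs3 : (s.map fun z => (H : ℝ) * (n : ℝ) ^ 2 * max 1 ‖z‖ ^ (n - 1)).prod =
      ((H : ℝ) * (n : ℝ) ^ 2) ^ s.card * (s.map fun z => max 1 ‖z‖).prod ^ (n - 1) := by
    rw [Multiset.prod_map_mul, Multiset.map_const', Multiset.prod_replicate,
      Multiset.prod_map_pow]
  rw [hs3] at hs2
  set pr : ℝ := (s.map fun z => max 1 ‖z‖).prod with hpr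
  have hpr0 : 0 ≤ pr := Multiset.prod_map_nonneg fun z _ => by positivity
  have hga : g.eval a = aeval a (derivative P) := by
    rw [hg, eval_map]
    rfl
  rw [hga] at h1
  have hcard' : s.card = f.natDegree - 1 := by omega
  rw [hcard'] at hs2
  have hc0 : 0 ≤ ‖φ f.leadingCoeff‖ ^ (n - 1) := by positivity
  have hm0 : 0 ≤ max 1 ‖a‖ ^ (n - 1) := by positivity
  calc max 1 ‖a‖ ^ (n - 1) = max 1 ‖a‖ ^ (n - 1) * 1 := (mul_one _).symm
    _ ≤ max 1 ‖a‖ ^ (n - 1) * (‖φ f.leadingCoeff‖ ^ (n - 1) *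
        (‖aeval a (derivative P)‖ * (s.map fun z => ‖g.eval z‖).prod)) := by
        exact mul_le_mul_of_nonneg_left h1 hm0
    _ ≤ max 1 ‖a‖ ^ (n - 1) * (‖φ f.leadingCoeff‖ ^ (n - 1) *
        (‖aeval a (derivative P)‖ * (((H : ℝ) * (n : ℝ) ^ 2) ^ (f.natDegree - 1) *
          pr ^ (n - 1)))) := by gcongr
    _ = ‖aeval a (derivative P)‖ * ((H : ℝ) * (n : ℝ) ^ 2) ^ (f.natDegree - 1) *
        (f.map φ).mahlerMeasure ^ (n - 1) := by
        rw [hM]
        ring

/-- The basic inequality for a root `a` of a factor `f` and any other root `b`. -/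
theorem pair_lower {P f : ℤ[X]} (hP : P ≠ 0) (hnd : (P.aroots ℂ).Nodup) (hf : f ∣ P) {H n : ℕ}
    (hn : P.natDegree = n) (hn1 : 1 ≤ n) (hH1 : 1 ≤ H)
    (hH : ∀ i, (P.coeff i).natAbs ≤ H) {a b : ℂ} (ha : aeval a f = 0) (hb : aeval b P = 0)
    (hab : a ≠ b) :
    1 ≤ Real.exp 1 * n * ((H : ℝ) * (n : ℝ) ^ 2) ^ f.natDegree *
      (f.map (Int.castRingHom ℂ)).mahlerMeasure ^ (n - 1) * ‖a - b‖ := by
  set φ := Int.castRingHom ℂ with hφ
  have hinj : Function.Injective φ := RingHom.injective_int _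
  have hf0 : f ≠ 0 := fun h => hP (zero_dvd_iff.1 (h ▸ hf))
  have hfm : f.map φ ≠ 0 := (Polynomial.map_ne_zero_iff hinj).2 hf0
  have hn0 : (1 : ℝ) ≤ n := by exact_mod_cast hn1
  have hHr : (1 : ℝ) ≤ H := by exact_mod_cast hH1
  have hr : 0 < ‖a - b‖ := norm_pos_iff.2 (sub_ne_zero.2 hab)
  have hk : 1 ≤ f.natDegree := by
    by_contra h
    have h0 : f.natDegree = 0 := by omega
    rw [eq_C_of_natDegree_eq_zero h0, aeval_C] at ha
    have h1 : f.coeff 0 = 0 := by
      have := (map_eq_zero_iff _ hinj).1 ha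
      exact this
    exact hf0 (by rw [eq_C_of_natDegree_eq_zero h0, h1, C_0])
  set M : ℝ := (f.map φ).mahlerMeasure with hM
  have hM1 : 1 ≤ M := by
    refine one_le_mahlerMeasure_of_one_le_norm_leadingCoeff ?_
    rw [leadingCoeff_map_of_injective hinj, hφ, eq_intCast, Complex.norm_intCast]
    exact_mod_cast Int.one_le_abs (leadingCoeff_ne_zero.2 hf0)
  set B : ℝ := (H : ℝ) * (n : ℝ) ^ 2 with hB
  have hB1 : 1 ≤ B := by
    rw [hB]
    nlinarith [mul_le_mul hHr (one_le_pow₀ hn0 (n := 2)) zero_le_one (by linarith)]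
  have he : 1 ≤ Real.exp 1 := Real.one_le_exp zero_le_one
  rcases lt_or_ge (1 / (n : ℝ)) ‖a - b‖ with h | h
  · have h1 : 1 ≤ (n : ℝ) * ‖a - b‖ := by
      have := mul_le_mul_of_nonneg_left h.le (by linarith : (0 : ℝ) ≤ n)
      rwa [mul_one_div, div_self (by linarith : (n : ℝ) ≠ 0)] at this
    have h2 : 1 ≤ B ^ f.natDegree * M ^ (n - 1) := by
      nlinarith [mul_le_mul (one_le_pow₀ hB1 (n := f.natDegree)) (one_le_pow₀ hM1 (n := n - 1))
        zero_le_one (by positivity)]
    calc (1 : ℝ) = 1 * 1 * 1 := by ring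
      _ ≤ Real.exp 1 * (B ^ f.natDegree * M ^ (n - 1)) * (n * ‖a - b‖) := by gcongr
      _ = Real.exp 1 * n * B ^ f.natDegree * M ^ (n - 1) * ‖a - b‖ := by ring
  · have haP : aeval a P = 0 := by
      obtain ⟨g, rfl⟩ := hf
      rw [map_mul, ha, zero_mul]
    have hH' : ∀ i, ‖(P.map φ).coeff i‖ ≤ (H : ℝ) := by
      intro i
      rw [coeff_map, hφ, eq_intCast, Complex.norm_intCast]
      have := hH i
      have h3 : |((P.coeff i : ℤ) : ℝ)| = (((P.coeff i).natAbs : ℕ) : ℝ) := by
        rw [Nat.cast_natAbs, Int.cast_abs]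
      rw [h3]
      exact_mod_cast this
    have h1 := norm_lower hP hnd hf hn hn1 hH ha
    have h2 := deriv_le_close (P.map φ) n hn1 (by rw [natDegree_map_eq_of_injective hinj, hn]) hH'
      (a := a) (b := b) (by rw [eval_map]; exact haP) (by rw [eval_map]; exact hb) hab h
    have h3 : eval a (derivative (P.map φ)) = aeval a (derivative P) := by
      rw [derivative_map, eval_map]
      rfl
    rw [h3] at h2
    set m : ℝ := max 1 ‖a‖ ^ (n - 1) with hm
    have hm0 : 0 < m := by positivity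
    have h4 : m ≤ (Real.exp 1 * H * (n : ℝ) ^ 3 * m * ‖a - b‖) * B ^ (f.natDegree - 1) *
        M ^ (n - 1) := by
      refine h1.trans ?_
      gcongr
    have h5 : (Real.exp 1 * H * (n : ℝ) ^ 3 * m * ‖a - b‖) * B ^ (f.natDegree - 1) * M ^ (n - 1) =
        (Real.exp 1 * n * B ^ f.natDegree * M ^ (n - 1) * ‖a - b‖) * m := by
      obtain ⟨j, hj⟩ : ∃ j, f.natDegree = j + 1 := ⟨f.natDegree - 1, by omega⟩
      rw [hj, Nat.add_sub_cancel, pow_succ, hB]
      ring
    rw [h5] at h4
    have h6 : 1 * m ≤ (Real.exp 1 * n * B ^ f.natDegree * M ^ (n - 1) * ‖a - b‖) * m := by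
      rw [one_mul]
      exact h4
    exact le_of_mul_le_mul_right h6 hm0

end Pool.Agent.Helper41.RS
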