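import Pool.Agent.Helper41.RS.Defs
import Pool.Agent.Helper41.RS.Close

/-!
# MP_418077_nt, pairs with a root of bounded degree: reversal and sign change
-/

set_option autoImplicit false

namespace Pool.Agent.Helper41.RS

open Polynomial Finset

lemma aeval_eq_range (P : ℤ[X]) (n : ℕ) (hn : P.natDegree ≤ n) (z : ℂ) :
    aeval z P = ∑ j ∈ range (n + 1), (P.coeff j : ℂ) * z ^ j := by
  rw [aeval_eq_sum_range' (by omega : P.natDegree < n + 1)]
  exact Finset.sum_congr rfl fun j _ => by rw [zsmul_eq_mul]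

lemma aeval_deriv_eq_range (P : ℤ[X]) (n : ℕ) (hn : P.natDegree ≤ n) (z : ℂ) :
    aeval z (derivative P) = ∑ j ∈ range (n + 1), (P.coeff j : ℂ) * (j * z ^ (j - 1)) := by
  have h1 : aeval z (derivative P) = (derivative (P.map (algebraMap ℤ ℂ))).eval z := by
    rw [derivative_map, eval_map_algebraMap]
  rw [h1, deriv_eq_range _ n (natDegree_map_le.trans hn)]
  refine Finset.sum_congr rfl fun j _ => ?_
  rw [coeff_map]
  rfl

lemma coeff_rev {P : ℤ[X]} {n i : ℕ} (hn : P.natDegree = n) (hi : i ≤ n) :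
    P.reverse.coeff i = P.coeff (n - i) := by
  rw [coeff_reverse, hn, revAt_le hi]

/-- Values of the reversed polynomial. -/
lemma aeval_rev {P : ℤ[X]} {n : ℕ} (hn : P.natDegree = n) {z : ℂ} (hz : z ≠ 0) :
    z ^ n * aeval z⁻¹ P.reverse = aeval z P := by
  rw [aeval_eq_range P n hn.le, aeval_eq_range P.reverse n (by
    rw [← hn]
    exact reverse_natDegree_le P), Finset.mul_sum,
    ← Finset.sum_flip (fun j => (P.coeff j : ℂ) * z ^ j)]
  refine Finset.sum_congr rfl fun i hi => ?_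
  have hi' : i ≤ n := by
    rw [mem_range] at hi
    omega
  rw [coeff_rev hn hi']
  have h1 : z ^ n = z ^ (n - i) * z ^ i := by
    rw [← pow_add]
    congr 1
    omega
  rw [h1, inv_pow]
  field_simp

/-- The derivative of the reversed polynomial. -/
lemma deriv_rev {P : ℤ[X]} {n : ℕ} (hn : P.natDegree = n) (hn1 : 1 ≤ n) {z : ℂ} (hz : z ≠ 0) :
    z ^ (n - 1) * aeval z⁻¹ (derivative P.reverse) =
      n * aeval z P - z * aeval z (derivative P) := by
  rw [aeval_eq_range P n hn.le, aeval_deriv_eq_range P n hn.le,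
    aeval_deriv_eq_range P.reverse n (by
      rw [← hn]
      exact reverse_natDegree_le P), Finset.mul_sum, Finset.mul_sum, Finset.mul_sum,
    ← Finset.sum_sub_distrib,
    ← Finset.sum_flip (fun j => (n : ℂ) * ((P.coeff j : ℂ) * z ^ j) -
      z * ((P.coeff j : ℂ) * (j * z ^ (j - 1))))]
  refine Finset.sum_congr rfl fun i hi => ?_
  have hi' : i ≤ n := by
    rw [mem_range] at hi
    omega
  rw [coeff_rev hn hi']
  have h2 : ∀ j : ℕ, z * ((P.coeff j : ℂ) * (j * z ^ (j - 1))) = (P.coeff j : ℂ) * j * z ^ j := by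
    intro j
    rcases j with _ | j
    · simp
    · rw [Nat.add_sub_cancel, pow_succ]
      ring
  rw [h2]
  rcases Nat.eq_zero_or_pos i with rfl | hi0
  · simp
    ring
  · have h1 : z ^ (n - 1) = z ^ (n - i) * z ^ (i - 1) := by
      rw [← pow_add]
      congr 1
      omega
    rw [h1, inv_pow, Nat.cast_sub hi']
    have h3 : z ^ (i - 1) ≠ 0 := pow_ne_zero _ hz
    field_simp
    ring

lemma natDegree_rev {P : ℤ[X]} {n : ℕ} (hn : P.natDegree = n) (h0 : P.coeff 0 ≠ 0) :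
    P.reverse.natDegree = n := by
  refine natDegree_eq_of_le_of_coeff_ne_zero ?_ ?_
  · rw [← hn]
    exact reverse_natDegree_le P
  · rw [coeff_rev hn le_rfl, Nat.sub_self]
    exact h0

lemma coeff_rev_zero {P : ℤ[X]} {n : ℕ} (hn : P.natDegree = n) (hn1 : 1 ≤ n) :
    P.reverse.coeff 0 ≠ 0 := by
  rw [coeff_zero_reverse, Ne, leadingCoeff_eq_zero]
  rintro rfl
  rw [natDegree_zero] at hn
  omega

/-- The reversed polynomial has the same degree and height and is separable as well. -/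
theorem rev_mem {n H : ℕ} (hn1 : 1 ≤ n) {P : ℤ[X]} (hP : P ∈ Sepa n H) (h0 : P.coeff 0 ≠ 0) :
    P.reverse ∈ Sepa n H ∧ P.reverse.leadingCoeff = P.coeff 0 ∧
      (∀ z : ℂ, aeval z P = 0 → z ≠ 0 ∧ aeval z⁻¹ P.reverse = 0) := by
  obtain ⟨hn, hH, hnd⟩ := hP
  have hdeg := natDegree_rev hn h0
  have hP0 : P ≠ 0 := by
    rintro rfl
    exact h0 (coeff_zero _)
  have hz0 : ∀ (Q : ℤ[X]), Q.coeff 0 ≠ 0 → ∀ z : ℂ, aeval z Q = 0 → z ≠ 0 := by
    rintro Q hQ z hz rfl
    rw [aeval_def, eval₂_at_zero] at hz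
    have h1 : ((Q.coeff 0 : ℤ) : ℂ) = 0 := hz
    exact hQ (by exact_mod_cast h1)
  have hroot : ∀ z : ℂ, aeval z P = 0 → z ≠ 0 ∧ aeval z⁻¹ P.reverse = 0 := by
    intro z hz
    have h1 := hz0 P h0 z hz
    refine ⟨h1, ?_⟩
    have h2 := aeval_rev hn h1
    rw [hz] at h2
    rcases mul_eq_zero.1 h2 with h3 | h3
    · exact absurd h3 (pow_ne_zero _ h1)
    · exact h3
  refine ⟨⟨hdeg, ?_, ?_⟩, ?_, hroot⟩
  · refine height_le fun i => ?_
    rw [coeff_reverse]
    exact (natAbs_coeff_le _ _).trans hH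
  · have hR0 : P.reverse ≠ 0 := by rwa [Ne, reverse_eq_zero]
    refine nodup_of_deriv hR0 fun w hw hw' => ?_
    have hw0 := hz0 P.reverse (coeff_rev_zero hn hn1) w hw
    have hwi : w⁻¹ ≠ 0 := inv_ne_zero hw0
    have h1 := aeval_rev hn hwi
    rw [inv_inv, hw, mul_zero] at h1
    have h2 := deriv_rev hn hn1 hwi
    rw [inv_inv, hw', mul_zero, ← h1, mul_zero, zero_sub] at h2
    have h3 := deriv_ne_zero hP0 hnd h1.symm
    have h4 : w⁻¹ * aeval w⁻¹ (derivative P) = 0 := by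
      linear_combination h2
    rcases mul_eq_zero.1 h4 with h5 | h5
    · exact hwi h5
    · exact h3 h5
  · rw [leadingCoeff, hdeg, coeff_rev hn le_rfl, Nat.sub_self]

/-- The negative. -/
lemma neg_mem {n H : ℕ} {P : ℤ[X]} (hP : P ∈ Sepa n H) : -P ∈ Sepa n H := by
  obtain ⟨hn, hH, hnd⟩ := hP
  refine ⟨by rw [natDegree_neg, hn], ?_, ?_⟩
  · refine height_le fun i => ?_
    rw [coeff_neg, Int.natAbs_neg]
    exact (natAbs_coeff_le _ _).trans hH
  · rw [aroots_neg]
    exact hnd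

end Pool.Agent.Helper41.RS
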