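import Pool.Agent.Helper41.RS.Norm
import Pool.Agent.Helper41.RS.Irr
import Pool.Agent.Helper41.RS.Mult
import Pool.Agent.Helper41.RS.Rev

/-!
# MP_418077_nt, pairs with a root of bounded degree: the upper and the lower bound
-/

set_option autoImplicit false

namespace Pool.Agent.Helper41.RS

open Polynomial Filter Topology

/-- The upper bound for `-log` of a distance. -/
theorem neg_log_le {k n H : ℕ} (hn : 1 ≤ n) (hH : 1 ≤ H) {r : ℝ}
    (hr : r ∈ pairDist k (Sepa n H)) :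
    -Real.log r ≤ (n - 1) * Real.log (Real.exp 1 * H * (k + 1)) +
      k * Real.log (H * (n : ℝ) ^ 2) + Real.log n + 1 := by
  have hr0 := pos_of_mem hr
  obtain ⟨P, ⟨hdeg, hht, hnd⟩, a, b, ha, hb, hab, hk, rfl⟩ := hr
  have hP : P ≠ 0 := by
    rintro rfl
    rw [natDegree_zero] at hdeg
    omega
  have hHi : ∀ i, (P.coeff i).natAbs ≤ H := height_le_iff.1 hht
  obtain ⟨f, hf, hfP, hfa⟩ := exists_irr hP ha
  have hfd : f.natDegree = (minpoly ℚ a).natDegree := natDegree_irr hf hfa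
  have hfk : f.natDegree ≤ k := by omega
  have hf1 : 1 ≤ f.natDegree := by
    by_contra h
    have h0 : f.natDegree = 0 := by omega
    rw [eq_C_of_natDegree_eq_zero h0, aeval_C] at hfa
    have h1 : f.coeff 0 = 0 := (map_eq_zero_iff _ (RingHom.injective_int (algebraMap ℤ ℂ))).1 hfa
    exact hf.ne_zero (by rw [eq_C_of_natDegree_eq_zero h0, h1, C_0])
  have hM := mahler_factor hP hfP hHi hf1
  have hmain := pair_lower hP hnd hfP hdeg hn hH hHi hfa hb hab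
  set M : ℝ := (f.map (Int.castRingHom ℂ)).mahlerMeasure with hMdef
  have hn0 : (1 : ℝ) ≤ n := by exact_mod_cast hn
  have hHr : (1 : ℝ) ≤ H := by exact_mod_cast hH
  have hM0 : 0 ≤ M := mahlerMeasure_nonneg _
  set B : ℝ := (H : ℝ) * (n : ℝ) ^ 2 with hB
  have hB1 : 1 ≤ B := by
    rw [hB]
    nlinarith [mul_le_mul hHr (one_le_pow₀ hn0 (n := 2)) zero_le_one (by linarith)]
  set E : ℝ := Real.exp 1 * H * (k + 1) with hE
  have hME : M ≤ E := by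
    refine hM.trans ?_
    rw [hE]
    have : (f.natDegree : ℝ) ≤ k := by exact_mod_cast hfk
    gcongr
  have hE0 : 0 < E := by
    rw [hE]
    positivity
  have h1 : 1 ≤ Real.exp 1 * n * B ^ k * E ^ (n - 1) * ‖a - b‖ := by
    refine hmain.trans ?_
    gcongr
  have h2 := Real.log_nonneg h1
  have hn0' : (n : ℝ) ≠ 0 := by linarith
  rw [Real.log_mul (by positivity) hr0.ne', Real.log_mul (by positivity) (by positivity),
    Real.log_mul (by positivity) (by positivity), Real.log_mul (Real.exp_pos 1).ne' hn0',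
    Real.log_exp, Real.log_pow, Real.log_pow, Nat.cast_sub hn, Nat.cast_one] at h2
  linarith

lemma natDegree_minpoly_le {P : ℤ[X]} (hP : P ≠ 0) {a : ℂ} (ha : aeval a P = 0) :
    (minpoly ℚ a).natDegree ≤ P.natDegree := by
  have hinj : Function.Injective (Int.castRingHom ℚ) := RingHom.injective_int _
  have h1 : minpoly ℚ a ∣ P.map (Int.castRingHom ℚ) :=
    minpoly.dvd ℚ a (by rw [aeval_map_rat, ha])
  have h2 := natDegree_le_of_dvd h1 ((Polynomial.map_ne_zero_iff hinj).2 hP)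
  rwa [natDegree_map_eq_of_injective hinj] at h2

lemma pol_natDegree_le (l : List ℤ) : (pol l).natDegree ≤ l.length - 1 := by
  refine natDegree_le_iff_coeff_eq_zero.2 fun i hi => ?_
  rw [coeff_pol, List.getD_eq_default]
  omega

/-- From small distances to the logarithm of the minimum. -/
theorem le_neg_log {k : ℕ} {H : ℕ} {S : ℕ → Set ℤ[X]} (hS : ∀ n, S n ⊆ Sepa n H) {x : ℝ}
    (hx0 : 0 < x) {C : ℝ} (hC : 0 < C) (h : ∀ᶠ n : ℕ in atTop, ∃ r ∈ pairDist k (S n),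
      r ≤ C * x ^ n) :
    ∃ C' : ℝ, ∀ᶠ n : ℕ in atTop, IsLeast (pairDist k (S n)) (minDist k (S n)) ∧
      0 < minDist k (S n) ∧ n * Real.log (1 / x) - C' ≤ -Real.log (minDist k (S n)) := by
  refine ⟨Real.log C, ?_⟩
  filter_upwards [h, eventually_ge_atTop 1] with n hn hn1
  obtain ⟨r, hr, hrle⟩ := hn
  obtain ⟨hleast, hpos⟩ := isLeast_minDist hn1 (hS n) ⟨r, hr⟩
  refine ⟨hleast, hpos, ?_⟩
  have h1 : minDist k (S n) ≤ C * x ^ n := (hleast.2 hr).trans hrle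
  have h2 := Real.log_le_log hpos h1
  rw [Real.log_mul hC.ne' (pow_pos hx0 n).ne', Real.log_pow] at h2
  rw [one_div, Real.log_inv]
  linarith

lemma sepa_mono {n H H' : ℕ} (h : H ≤ H') : Sepa n H ⊆ Sepa n H' :=
  fun _ hP => ⟨hP.1, hP.2.1.trans h, hP.2.2⟩

lemma sepaMon_mono {n H H' : ℕ} (h : H ≤ H') : SepaMon n H ⊆ SepaMon n H' :=
  fun _ hP => ⟨sepa_mono h hP.1, hP.2⟩

lemma pairDist_mono {k k' : ℕ} (h : k ≤ k') {S T : Set ℤ[X]} (hST : S ⊆ T) :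
    pairDist k S ⊆ pairDist k' T := by
  rintro r ⟨P, hP, a, b, ha, hb, hab, hk, hr⟩
  exact ⟨P, hST hP, a, b, ha, hb, hab, hk.trans h, hr⟩

lemma norm_ofReal_sub (x y : ℝ) : ‖(x : ℂ) - (y : ℂ)‖ = |x - y| := by
  rw [← Complex.ofReal_sub, Complex.norm_real, Real.norm_eq_abs]

/-- The monic families. -/
lemma monic_case {A : ℤ[X]} (hA : A ≠ 0) {k H : ℕ} (hk : A.natDegree ≤ k) {x₀ : ℝ}
    (hx : aeval (x₀ : ℂ) A = 0)
    (h : ∃ C : ℝ, 0 < C ∧ ∀ᶠ n : ℕ in atTop, ∃ P ∈ Sepa n H, P.Monic ∧ aeval (x₀ : ℂ) P = 0 ∧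
      ∃ x : ℝ, x ≠ x₀ ∧ aeval (x : ℂ) P = 0 ∧ |x - x₀| ≤ C * x₀ ^ n) :
    ∃ C : ℝ, 0 < C ∧ ∀ᶠ n : ℕ in atTop, ∃ r ∈ pairDist k (SepaMon n H), r ≤ C * x₀ ^ n := by
  obtain ⟨C, hC0, hC⟩ := h
  refine ⟨C, hC0, ?_⟩
  filter_upwards [hC] with n hn
  obtain ⟨P, hP, hPm, hPx, x, hx1, hx2, hx3⟩ := hn
  refine ⟨_, ⟨P, ⟨hP, hPm⟩, x₀, x, hPx, hx2, ?_, (natDegree_minpoly_le hA hx).trans hk, rfl⟩, ?_⟩
  · exact fun h => hx1 (Complex.ofReal_injective h.symm)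
  · rw [norm_ofReal_sub, abs_sub_comm]
    exact hx3

/-- The families with the root `1 / a`: also for monic polynomials, by reversal. -/
lemma rat_case {a : ℕ} (ha : 2 ≤ a) {H : ℕ}
    (h : ∃ C : ℝ, 0 < C ∧ ∀ᶠ n : ℕ in atTop, ∃ P ∈ Sepa n H, P.coeff 0 = -1 ∧
      aeval (((1 / a : ℝ)) : ℂ) P = 0 ∧
      ∃ x : ℝ, x ≠ 1 / a ∧ aeval (x : ℂ) P = 0 ∧ |x - 1 / a| ≤ C * (1 / a : ℝ) ^ n) :
    ∃ C : ℝ, 0 < C ∧ ∀ᶠ n : ℕ in atTop, ∃ r ∈ pairDist 1 (SepaMon n H),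
      r ≤ C * (1 / a : ℝ) ^ n := by
  obtain ⟨C, hC0, hC⟩ := h
  have ha1 : (1 : ℝ) < a := by exact_mod_cast ha
  have ha0 : (0 : ℝ) < a := by linarith
  have ha2 : (a : ℂ) ≠ 0 := by
    have : a ≠ 0 := by omega
    exact_mod_cast this
  refine ⟨2 * (a : ℝ) ^ 2 * C, by positivity, ?_⟩
  have hsmall : ∀ᶠ n : ℕ in atTop, C * (1 / a : ℝ) ^ n < 1 / (2 * a) := by
    have h1 := (tendsto_pow_atTop_nhds_zero_of_lt_one (by positivity : (0 : ℝ) ≤ 1 / a)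
      (by rw [div_lt_one ha0]; exact ha1)).const_mul C
    rw [mul_zero] at h1
    exact h1.eventually (gt_mem_nhds (by positivity))
  filter_upwards [hC, hsmall, eventually_ge_atTop 1] with n hn hn2 hn1
  obtain ⟨P, hP, hP0, hPx, x, hx1, hx2, hx3⟩ := hn
  obtain ⟨hR, hRl, hRr⟩ := rev_mem hn1 hP (by rw [hP0]; norm_num)
  have hxpos : 1 / (2 * a) ≤ x := by
    have h1 : 1 / (a : ℝ) - x ≤ |x - 1 / a| := by
      rw [abs_sub_comm]
      exact le_abs_self _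
    have h2 : 1 / (a : ℝ) = 1 / (2 * a) + 1 / (2 * a) := by
      field_simp
      ring
    linarith
  have hx0 : 0 < x := lt_of_lt_of_le (by positivity) hxpos
  have e1 := (hRr _ hPx).2
  have e2 := (hRr _ hx2).2
  have e3 : (((1 / a : ℝ)) : ℂ)⁻¹ = (a : ℂ) := by
    push_cast
    rw [one_div, inv_inv]
  rw [e3] at e1
  have e4 : ((x : ℂ))⁻¹ = ((x⁻¹ : ℝ) : ℂ) := (Complex.ofReal_inv x).symm
  rw [e4] at e2
  refine ⟨_, ⟨-P.reverse, ⟨neg_mem hR, ?_⟩, (a : ℂ), ((x⁻¹ : ℝ) : ℂ), ?_, ?_, ?_, ?_, rfl⟩, ?_⟩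
  · rw [Monic, leadingCoeff_neg, hRl, hP0, neg_neg]
  · rw [map_neg, e1, neg_zero]
  · rw [map_neg, e2, neg_zero]
  · intro h
    have h1 : (a : ℝ) = x⁻¹ := by exact_mod_cast h
    refine hx1 ?_
    rw [h1]
    simp
  · have h1 : minpoly ℚ (a : ℂ) = X - Polynomial.C (a : ℚ) := by
      have := minpoly.eq_X_sub_C ℂ (a : ℚ)
      simpa using this
    rw [h1, natDegree_X_sub_C]
  · have h1 : ‖(a : ℂ) - ((x⁻¹ : ℝ) : ℂ)‖ = |(a : ℝ) - x⁻¹| := by
      rw [← norm_ofReal_sub]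
      push_cast
      rfl
    rw [h1]
    have h2 : (a : ℝ) - x⁻¹ = (x - 1 / a) * (a * x⁻¹) := by
      field_simp
    rw [h2, abs_mul, abs_of_pos (by positivity : 0 < (a : ℝ) * x⁻¹)]
    have h3 : x⁻¹ ≤ 2 * a := by
      rw [inv_le_comm₀ hx0 (by positivity)]
      rwa [← one_div]
    calc |x - 1 / a| * (a * x⁻¹) ≤ (C * (1 / a : ℝ) ^ n) * (a * (2 * a)) := by
          gcongr
      _ = 2 * (a : ℝ) ^ 2 * C * (1 / a : ℝ) ^ n := by ring

end Pool.Agent.Helper41.RS
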