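import Pool.Agent.Helper41.RS.Fin

/-!
# MP_418077_nt, Pisot numbers: the distance of the other roots
-/

set_option autoImplicit false

namespace Pool.Agent.Helper41.RS

open Polynomial Filter Topology

/-- The distances of the root `θ` of polynomials in `S` to their other complex roots. -/
def rootDist (θ : ℂ) (S : Set ℤ[X]) : Set ℝ :=
  {r | ∃ P ∈ S, ∃ b : ℂ, aeval θ P = 0 ∧ aeval b P = 0 ∧ b ≠ θ ∧ r = ‖θ - b‖}

/-- The least of these distances. -/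
noncomputable def minRootDist (θ : ℂ) (S : Set ℤ[X]) : ℝ := sInf (rootDist θ S)

/-- The distances of two different complex roots of one polynomial in `S`. -/
def sepDist (S : Set ℤ[X]) : Set ℝ :=
  {r | ∃ P ∈ S, ∃ a b : ℂ, aeval a P = 0 ∧ aeval b P = 0 ∧ a ≠ b ∧ r = ‖a - b‖}

/-- The least of these distances. -/
noncomputable def minSep (S : Set ℤ[X]) : ℝ := sInf (sepDist S)

lemma rootDist_sub_pairDist (θ : ℂ) (S : Set ℤ[X]) :
    rootDist θ S ⊆ pairDist (minpoly ℚ θ).natDegree S := by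
  rintro r ⟨P, hP, b, h1, h2, h3, h4⟩
  exact ⟨P, hP, θ, b, h1, h2, h3.symm, le_rfl, h4⟩

lemma rootDist_sub_sepDist (θ : ℂ) (S : Set ℤ[X]) : rootDist θ S ⊆ sepDist S := by
  rintro r ⟨P, hP, b, h1, h2, h3, h4⟩
  exact ⟨P, hP, θ, b, h1, h2, h3.symm, h4⟩

lemma rootDist_mono {θ : ℂ} {S T : Set ℤ[X]} (h : S ⊆ T) : rootDist θ S ⊆ rootDist θ T := by
  rintro r ⟨P, hP, hr⟩
  exact ⟨P, h hP, hr⟩

lemma isLeast_minRootDist {n H : ℕ} (hn : 1 ≤ n) {θ : ℂ} {S : Set ℤ[X]} (hS : S ⊆ Sepa n H)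
    (hne : (rootDist θ S).Nonempty) :
    IsLeast (rootDist θ S) (minRootDist θ S) ∧ 0 < minRootDist θ S := by
  have hfin := (finite_pairDist (minpoly ℚ θ).natDegree n H hn hS).subset
    (rootDist_sub_pairDist θ S)
  have hmem : minRootDist θ S ∈ rootDist θ S := hne.csInf_mem hfin
  exact ⟨⟨hmem, fun r hr => csInf_le hfin.bddBelow hr⟩,
    pos_of_mem (rootDist_sub_pairDist θ S hmem)⟩

lemma sepDist_sub {n H : ℕ} (hn : 1 ≤ n) {S : Set ℤ[X]} (hS : S ⊆ Sepa n H) :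
    sepDist S ⊆ pairDist n S := by
  rintro r ⟨P, hP, a, b, h1, h2, h3, h4⟩
  refine ⟨P, hP, a, b, h1, h2, h3, ?_, h4⟩
  have := natDegree_minpoly_le (ne_zero_of_mem hn (hS hP)) h1
  rwa [(hS hP).1] at this

lemma isLeast_minSep {n H : ℕ} (hn : 1 ≤ n) {S : Set ℤ[X]} (hS : S ⊆ Sepa n H)
    (hne : (sepDist S).Nonempty) : IsLeast (sepDist S) (minSep S) ∧ 0 < minSep S := by
  have hfin := (finite_pairDist n n H hn hS).subset (sepDist_sub hn hS)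
  have hmem : minSep S ∈ sepDist S := hne.csInf_mem hfin
  exact ⟨⟨hmem, fun r hr => csInf_le hfin.bddBelow hr⟩, pos_of_mem (sepDist_sub hn hS hmem)⟩

/-- Reversal of a family with the root `1 / θ`. -/
lemma rev_case {θ : ℝ} (hθ : 1 < θ) {H : ℕ}
    (h : ∃ C : ℝ, 0 < C ∧ ∀ᶠ n : ℕ in atTop, ∃ P ∈ Sepa n H, P.coeff 0 = -1 ∧
      aeval ((θ⁻¹ : ℝ) : ℂ) P = 0 ∧
      ∃ x : ℝ, x ≠ θ⁻¹ ∧ aeval (x : ℂ) P = 0 ∧ |x - θ⁻¹| ≤ C * θ⁻¹ ^ n) :
    ∃ C : ℝ, 0 < C ∧ ∀ᶠ n : ℕ in atTop, ∃ r ∈ rootDist θ (SepaMon n H), r ≤ C * θ⁻¹ ^ n := by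
  obtain ⟨C, hC0, hC⟩ := h
  have ha0 : 0 < θ := by linarith
  have ha2 : (θ : ℂ) ≠ 0 := Complex.ofReal_ne_zero.2 ha0.ne'
  refine ⟨2 * θ ^ 2 * C, by positivity, ?_⟩
  have hsmall : ∀ᶠ n : ℕ in atTop, C * θ⁻¹ ^ n < θ⁻¹ / 2 := by
    have h1 := (tendsto_pow_atTop_nhds_zero_of_lt_one (by positivity : (0 : ℝ) ≤ θ⁻¹)
      (inv_lt_one_of_one_lt₀ hθ)).const_mul C
    rw [mul_zero] at h1
    exact h1.eventually (gt_mem_nhds (by positivity))
  filter_upwards [hC, hsmall, eventually_ge_atTop 1] with n hn hn2 hn1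
  obtain ⟨P, hP, hP0, hPx, x, hx1, hx2, hx3⟩ := hn
  obtain ⟨hR, hRl, hRr⟩ := rev_mem hn1 hP (by rw [hP0]; norm_num)
  have hxpos : θ⁻¹ / 2 ≤ x := by
    have h1 : θ⁻¹ - x ≤ |x - θ⁻¹| := by
      rw [abs_sub_comm]
      exact le_abs_self _
    linarith
  have hx0 : 0 < x := lt_of_lt_of_le (by positivity) hxpos
  have e1 := (hRr _ hPx).2
  have e2 := (hRr _ hx2).2
  have e3 : ((θ⁻¹ : ℝ) : ℂ)⁻¹ = (θ : ℂ) := by
    push_cast
    rw [inv_inv]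
  rw [e3] at e1
  have e4 : ((x : ℂ))⁻¹ = ((x⁻¹ : ℝ) : ℂ) := (Complex.ofReal_inv x).symm
  rw [e4] at e2
  refine ⟨_, ⟨-P.reverse, ⟨neg_mem hR, ?_⟩, ((x⁻¹ : ℝ) : ℂ), ?_, ?_, ?_, rfl⟩, ?_⟩
  · rw [Monic, leadingCoeff_neg, hRl, hP0, neg_neg]
  · rw [map_neg, e1, neg_zero]
  · rw [map_neg, e2, neg_zero]
  · intro h
    have h1 : x⁻¹ = θ := by exact_mod_cast h
    refine hx1 ?_
    rw [← h1, inv_inv]
  · rw [norm_ofReal_sub]
    have h2 : θ - x⁻¹ = (x - θ⁻¹) * (θ * x⁻¹) := by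
      field_simp
    rw [h2, abs_mul, abs_of_pos (by positivity : 0 < θ * x⁻¹)]
    have h3 : x⁻¹ ≤ 2 * θ := by
      rw [inv_le_comm₀ hx0 (by positivity)]
      refine le_trans (le_of_eq ?_) hxpos
      rw [mul_inv]
      ring
    calc |x - θ⁻¹| * (θ * x⁻¹) ≤ (C * θ⁻¹ ^ n) * (θ * (2 * θ)) := by gcongr
      _ = 2 * θ ^ 2 * C * θ⁻¹ ^ n := by ring

/-- The lower bound for `-log`, in terms of the reversed polynomial `A`. -/
theorem core_lower {A S : ℤ[X]} {h : ℕ} {θ : ℝ} (hθ : 1 < θ)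
    (hA : aeval ((θ⁻¹ : ℝ) : ℂ) A = 0) (hA0 : A.coeff 0 ^ 2 = 1) (hS0 : S.coeff 0 = 1)
    (hht : height A ≤ h) (hht2 : height (A * (A * S)) ≤ h)
    (hG : ∀ z : ℂ, ‖z‖ < 1 → aeval z (A * S) = 0 → aeval z (derivative (A * S)) ≠ 0)
    (hAs : ∀ z : ℂ, aeval z A = 0 → aeval z (derivative A) ≠ 0) :
    ∃ C : ℝ, 0 < C ∧ ∀ᶠ n : ℕ in atTop, ∃ r ∈ rootDist θ (SepaMon n h), r ≤ C * θ⁻¹ ^ n := by
  have hA' : aeval (θ⁻¹ : ℝ) A = 0 := by
    rw [aeval_ofReal] at hA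
    exact_mod_cast hA
  have hA1 : A.coeff 0 ≠ 0 := by
    intro h0
    rw [h0] at hA0
    norm_num at hA0
  obtain ⟨C, hC0, hC⟩ := family A S h (inv_pos.2 (by linarith : 0 < θ)) (inv_lt_one_of_one_lt₀ hθ)
    hA' hA1 (by rw [hS0]; norm_num) hht hht2 hG hAs
  refine rev_case hθ ⟨C, hC0, ?_⟩
  filter_upwards [hC] with n hn
  obtain ⟨P, hP, -, hP0, hPx, hPr⟩ := hn
  refine ⟨P, hP, ?_, hPx, hPr⟩
  rw [hP0, mul_coeff_zero, mul_coeff_zero, hS0, mul_one, ← pow_two, hA0]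

/-- The Mahler measure of a polynomial with one root outside the closed unit disc. -/
lemma mahler_pisot {f : ℤ[X]} {θ : ℝ} (hθ : 1 < θ) (hlead : f.leadingCoeff.natAbs ≤ 1)
    (hf0 : f ≠ 0) (hfθ : aeval (θ : ℂ) f = 0)
    (hfo : ∀ z : ℂ, aeval z f = 0 → z ≠ θ → ‖z‖ ≤ 1)
    (hfs : ∀ z : ℂ, aeval z f = 0 → aeval z (derivative f) ≠ 0) :
    (f.map (Int.castRingHom ℂ)).mahlerMeasure ≤ θ := by
  have hinj : Function.Injective (Int.castRingHom ℂ) := RingHom.injective_int _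
  have hfm : f.map (Int.castRingHom ℂ) ≠ 0 := (Polynomial.map_ne_zero_iff hinj).2 hf0
  have hnd := nodup_of_deriv hf0 hfs
  have hnd' : (f.map (Int.castRingHom ℂ)).roots.Nodup := hnd
  have hmem : (θ : ℂ) ∈ (f.map (Int.castRingHom ℂ)).roots := by
    rw [mem_roots hfm, IsRoot.def, eval_map]
    exact hfθ
  obtain ⟨s, hs⟩ := Multiset.exists_cons_of_mem hmem
  rw [mahlerMeasure_eq_leadingCoeff_mul_prod_roots, leadingCoeff_map_of_injective hinj, eq_intCast,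
    Complex.norm_intCast]
  have h1 : |(f.leadingCoeff : ℝ)| ≤ 1 := by
    have : |f.leadingCoeff| ≤ 1 := by
      rw [Int.abs_eq_natAbs]
      exact_mod_cast hlead
    exact_mod_cast this
  rw [hs] at hnd' ⊢
  rw [Multiset.nodup_cons] at hnd'
  rw [Multiset.map_cons, Multiset.prod_cons]
  have h2 : (s.map fun a => max 1 ‖a‖).prod = 1 := by
    refine Multiset.prod_eq_one fun x hx => ?_
    obtain ⟨z, hz, rfl⟩ := Multiset.mem_map.1 hx
    have hzr : z ∈ (f.map (Int.castRingHom ℂ)).roots := by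
      rw [hs]
      exact Multiset.mem_cons_of_mem hz
    refine max_eq_left (hfo z ?_ ?_)
    · have := (mem_roots'.1 hzr).2
      rw [IsRoot.def, eval_map] at this
      exact this
    · rintro rfl
      exact hnd'.1 hz
  rw [h2, mul_one, Complex.norm_real, Real.norm_of_nonneg (by linarith), max_eq_right hθ.le]
  calc |(f.leadingCoeff : ℝ)| * θ ≤ 1 * θ := by gcongr
    _ = θ := one_mul θ

/-- The upper bound for `-log`. -/
theorem core_upper {f : ℤ[X]} {θ : ℝ} (hθ : 1 < θ) (hlead : f.leadingCoeff.natAbs ≤ 1)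
    (hf0 : f ≠ 0) (hfθ : aeval (θ : ℂ) f = 0)
    (hfo : ∀ z : ℂ, aeval z f = 0 → z ≠ θ → ‖z‖ ≤ 1)
    (hfs : ∀ z : ℂ, aeval z f = 0 → aeval z (derivative f) ≠ 0) {n H : ℕ} (hn : 1 ≤ n)
    (hH : 1 ≤ H) {r : ℝ} (hr : r ∈ rootDist θ (Sepa n H)) :
    -Real.log r ≤ n * Real.log θ + (f.natDegree * Real.log (H * (n : ℝ) ^ 2) + Real.log n + 1) := by
  have hr0 := pos_of_mem (rootDist_sub_pairDist _ _ hr)
  obtain ⟨P, ⟨hdeg, hht, hnd⟩, b, ha, hb, hab, rfl⟩ := hr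
  have hP : P ≠ 0 := by
    rintro rfl
    rw [natDegree_zero] at hdeg
    omega
  have hHi : ∀ i, (P.coeff i).natAbs ≤ H := height_le_iff.1 hht
  obtain ⟨g, hg, hgP, hga⟩ := exists_irr hP ha
  obtain ⟨q, hq⟩ := dvd_of_root hg hga hfθ
  have hq0 : q ≠ 0 := by
    rintro rfl
    rw [mul_zero] at hq
    exact hf0 hq
  have hgd : g.natDegree ≤ f.natDegree := by
    rw [hq, natDegree_mul hg.ne_zero hq0]
    omega
  have hinj : Function.Injective (Int.castRingHom ℂ) := RingHom.injective_int _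
  have hge1 : ∀ p : ℤ[X], p ≠ 0 → 1 ≤ (p.map (Int.castRingHom ℂ)).mahlerMeasure := by
    intro p hp
    refine one_le_mahlerMeasure_of_one_le_norm_leadingCoeff ?_
    rw [leadingCoeff_map_of_injective hinj, eq_intCast, Complex.norm_intCast]
    exact_mod_cast Int.one_le_abs (leadingCoeff_ne_zero.2 hp)
  have hMf := mahler_pisot hθ hlead hf0 hfθ hfo hfs
  have hM : (g.map (Int.castRingHom ℂ)).mahlerMeasure ≤ θ := by
    rw [hq, Polynomial.map_mul, mahlerMeasure_mul] at hMf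
    have h1 := hge1 q hq0
    have h2 := hge1 g hg.ne_zero
    nlinarith
  have hM1 := hge1 g hg.ne_zero
  have hmain := pair_lower hP hnd hgP hdeg hn hH hHi hga hb hab.symm
  set M : ℝ := (g.map (Int.castRingHom ℂ)).mahlerMeasure with hMdef
  have hn0 : (1 : ℝ) ≤ n := by exact_mod_cast hn
  have hHr : (1 : ℝ) ≤ H := by exact_mod_cast hH
  set B : ℝ := (H : ℝ) * (n : ℝ) ^ 2 with hB
  have hB1 : 1 ≤ B := by
    rw [hB]
    nlinarith [mul_le_mul hHr (one_le_pow₀ hn0 (n := 2)) zero_le_one (by linarith)]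
  have h1 : 1 ≤ Real.exp 1 * n * B ^ f.natDegree * θ ^ n * ‖(θ : ℂ) - b‖ := by
    refine hmain.trans ?_
    have e1 : B ^ g.natDegree ≤ B ^ f.natDegree := pow_le_pow_right₀ hB1 hgd
    have e2 : M ^ (n - 1) ≤ θ ^ n := by
      calc M ^ (n - 1) ≤ M ^ n := pow_le_pow_right₀ hM1 (by omega)
        _ ≤ θ ^ n := pow_le_pow_left₀ (by linarith) hM n
    gcongr
  have h2 := Real.log_nonneg h1
  have hn0' : (n : ℝ) ≠ 0 := by linarith
  have hθ0 : 0 < θ := by linarith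
  rw [Real.log_mul (by positivity) hr0.ne', Real.log_mul (by positivity) (by positivity),
    Real.log_mul (by positivity) (by positivity), Real.log_mul (Real.exp_pos 1).ne' hn0',
    Real.log_exp, Real.log_pow, Real.log_pow] at h2
  linarith

/-- The two-sided estimate. -/
theorem core_main {A S f : ℤ[X]} {h : ℕ} {θ : ℝ} (hθ : 1 < θ)
    (hA : aeval ((θ⁻¹ : ℝ) : ℂ) A = 0) (hA0 : A.coeff 0 ^ 2 = 1) (hS0 : S.coeff 0 = 1)
    (hht : height A ≤ h) (hht2 : height (A * (A * S)) ≤ h)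
    (hG : ∀ z : ℂ, ‖z‖ < 1 → aeval z (A * S) = 0 → aeval z (derivative (A * S)) ≠ 0)
    (hAs : ∀ z : ℂ, aeval z A = 0 → aeval z (derivative A) ≠ 0)
    (hlead : f.leadingCoeff.natAbs ≤ 1)
    (hf0 : f ≠ 0) (hfθ : aeval (θ : ℂ) f = 0)
    (hfo : ∀ z : ℂ, aeval z f = 0 → z ≠ θ → ‖z‖ ≤ 1)
    (hfs : ∀ z : ℂ, aeval z f = 0 → aeval z (derivative f) ≠ 0) :
    ∃ C : ℝ, ∀ᶠ n : ℕ in atTop, ∀ H : ℕ, h ≤ H → 1 ≤ H → ∀ T : Set ℤ[X], SepaMon n H ⊆ T →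
      T ⊆ Sepa n H → IsLeast (rootDist θ T) (minRootDist θ T) ∧ 0 < minRootDist θ T ∧
      n * Real.log θ - C ≤ -Real.log (minRootDist θ T) ∧
      -Real.log (minRootDist θ T) ≤
        n * Real.log θ + (f.natDegree * Real.log (H * (n : ℝ) ^ 2) + Real.log n + 1) := by
  obtain ⟨C, hC0, hC⟩ := core_lower hθ hA hA0 hS0 hht hht2 hG hAs
  refine ⟨Real.log C, ?_⟩
  filter_upwards [hC, eventually_ge_atTop 1] with n hn hn1 H hhH hH1 T hT1 hT2
  obtain ⟨r, hr, hrle⟩ := hn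
  have hr' : r ∈ rootDist θ T := rootDist_mono ((sepaMon_mono hhH).trans hT1) hr
  obtain ⟨hleast, hpos⟩ := isLeast_minRootDist hn1 hT2 ⟨r, hr'⟩
  refine ⟨hleast, hpos, ?_, ?_⟩
  · have e1 : minRootDist θ T ≤ C * θ⁻¹ ^ n := (hleast.2 hr').trans hrle
    have e2 := Real.log_le_log hpos e1
    have hx0 : 0 < θ⁻¹ := inv_pos.2 (by linarith)
    rw [Real.log_mul hC0.ne' (pow_pos hx0 n).ne', Real.log_pow, Real.log_inv] at e2
    linarith
  · exact core_upper hθ hlead hf0 hfθ hfo hfs hn1 hH1 (rootDist_mono hT2 hleast.1)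

end Pool.Agent.Helper41.RS
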