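import Pool.Agent.Helper41.RS.Pis

/-!
# MP_418077_nt, Pisot numbers: all Pisot and Salem numbers; the quintic one
-/

set_option autoImplicit false

namespace Pool.Agent.Helper41.RS

open Polynomial Filter Topology

/-- `θ > 1` is a root of the monic irreducible integer polynomial `f`, all other complex roots of
`f` are in the closed unit disc: `θ` is a Pisot number (possibly a rational integer `≥ 2`) or a
Salem number, and `f` is its minimal polynomial. -/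
def PisotSalem (θ : ℝ) (f : ℤ[X]) : Prop :=
  f.Monic ∧ Irreducible f ∧ 1 < θ ∧ aeval (θ : ℂ) f = 0 ∧
    ∀ z : ℂ, aeval z f = 0 → z ≠ θ → ‖z‖ ≤ 1

lemma rev_root {f : ℤ[X]} (h1 : 1 ≤ f.natDegree) {z : ℂ} (hz : aeval z f.reverse = 0) :
    z ≠ 0 ∧ aeval z⁻¹ f = 0 := by
  have hz0 : z ≠ 0 := by
    rintro rfl
    have h2 := coeff_rev_zero (P := f) rfl h1
    rw [aeval_def, eval₂_at_zero] at hz
    have h3 : ((f.reverse.coeff 0 : ℤ) : ℂ) = 0 := hz
    exact h2 (by exact_mod_cast h3)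
  refine ⟨hz0, ?_⟩
  have h2 := aeval_rev (P := f) rfl (inv_ne_zero hz0)
  rw [inv_inv, hz, mul_zero] at h2
  exact h2.symm

lemma rev_simple {f : ℤ[X]} (h1 : 1 ≤ f.natDegree)
    (hfs : ∀ z : ℂ, aeval z f = 0 → aeval z (derivative f) ≠ 0) {z : ℂ}
    (hz : aeval z f.reverse = 0) : aeval z (derivative f.reverse) ≠ 0 := by
  obtain ⟨hz0, hz1⟩ := rev_root h1 hz
  intro h
  have h2 := deriv_rev (P := f) rfl h1 (inv_ne_zero hz0)
  rw [inv_inv, h, mul_zero, hz1, mul_zero, zero_sub] at h2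
  exact mul_ne_zero (inv_ne_zero hz0) (hfs _ hz1) (neg_eq_zero.1 h2.symm)

lemma height_reverse_le {f : ℤ[X]} {H : ℕ} (h : height f ≤ H) : height f.reverse ≤ H :=
  height_le fun i => by
    rw [coeff_reverse]
    exact (natAbs_coeff_le _ _).trans h

/-- All Pisot and Salem numbers, for large heights. -/
theorem pisot_main {θ : ℝ} {f : ℤ[X]} (hf : PisotSalem θ f) :
    ∃ C : ℝ, ∀ᶠ n : ℕ in atTop, ∀ H : ℕ, height f ≤ H → height (f ^ 2) ≤ H →
      ∀ T : Set ℤ[X], SepaMon n H ⊆ T → T ⊆ Sepa n H →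
      IsLeast (rootDist θ T) (minRootDist θ T) ∧ 0 < minRootDist θ T ∧
      n * Real.log θ - C ≤ -Real.log (minRootDist θ T) ∧
      -Real.log (minRootDist θ T) ≤
        n * Real.log θ + (f.natDegree * Real.log (H * (n : ℝ) ^ 2) + Real.log n + 1) := by
  obtain ⟨hmon, hirr, hθ, hfθ, hfo⟩ := hf
  have hf0 := hmon.ne_zero
  have h1 : 1 ≤ f.natDegree := by
    by_contra h
    have h0 : f.natDegree = 0 := by omega
    rw [eq_C_of_natDegree_eq_zero h0, aeval_C] at hfθ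
    have h2 : f.coeff 0 = 0 := (map_eq_zero_iff _ (RingHom.injective_int (algebraMap ℤ ℂ))).1 hfθ
    exact hf0 (by rw [eq_C_of_natDegree_eq_zero h0, h2, C_0])
  have hfs : ∀ z : ℂ, aeval z f = 0 → aeval z (derivative f) ≠ 0 := by
    intro z hz h
    have h2 := dvd_of_root hirr hz h
    have h3 : derivative f ≠ 0 := by
      intro h4
      have := derivative_eq_zero.1 h4
      omega
    have h4 := natDegree_le_of_dvd h2 h3
    have h5 := natDegree_derivative_lt (p := f) (by omega)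
    omega
  have hrs : ∀ z : ℂ, aeval z f.reverse = 0 → aeval z (derivative f.reverse) ≠ 0 :=
    fun z hz => rev_simple h1 hfs hz
  have hθ0 : (θ : ℂ) ≠ 0 := Complex.ofReal_ne_zero.2 (by linarith)
  have hrθ : aeval ((θ⁻¹ : ℝ) : ℂ) f.reverse = 0 := by
    have h2 := aeval_rev (P := f) rfl hθ0
    rw [hfθ] at h2
    push_cast
    exact (mul_eq_zero.1 h2).resolve_left (pow_ne_zero _ hθ0)
  -- the height of `f` is at least one
  set h : ℕ := max (height f) (height (f ^ 2)) with hh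
  have hsq : f.reverse * (f.reverse * 1) = (f ^ 2).reverse := by
    rw [mul_one, pow_two, reverse_mul_of_domain]
  obtain ⟨C, hC⟩ := core_main (A := f.reverse) (S := 1) (f := f) (h := h) hθ hrθ
    (by rw [coeff_zero_reverse, hmon.leadingCoeff, one_pow]) (by simp)
    (height_reverse_le (le_max_left _ _))
    (by
      rw [hsq]
      exact height_reverse_le (le_max_right _ _))
    (by
      intro z _ hz
      rw [mul_one] at hz ⊢
      exact hrs z hz) hrs (by rw [hmon.leadingCoeff]; simp) hf0 hfθ hfo hfs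
  refine ⟨C, ?_⟩
  filter_upwards [hC] with n hn H hH1 hH2 T hT1 hT2
  refine hn H (max_le hH1 hH2) ?_ T hT1 hT2
  have h2 := (natAbs_coeff_le f f.natDegree).trans hH1
  rw [coeff_natDegree, hmon.leadingCoeff] at h2
  simpa using h2

private lemma quintic_pair {a b c d X ρ : ℝ} (a1 : 0.443 < a) (a2 : a < 0.444) (b2 : b < -0.357)
    (c1 : 0.477 < c) (c2 : c < 0.485) (d1 : 0.688 < d) (d2 : d < 0.701) (hρ : 1 < ρ)
    (hB1 : X ^ 3 - 2 * X * ρ + a * (X ^ 2 - ρ) + b * X + c = 0)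
    (hB0 : -ρ * X ^ 2 + ρ ^ 2 - a * X * ρ - b * ρ + d = 0) : False := by
  have hXe : X * (ρ ^ 2 - d) = c * ρ - a * ρ ^ 2 := by
    linear_combination (-ρ) * hB1 - X * hB0
  obtain ⟨R, hR⟩ : ∃ R : ℝ, R = ρ ^ 2 := ⟨_, rfl⟩
  rw [← hR] at hXe hB0
  have hρ2 : ρ ≤ R := by rw [hR]; nlinarith
  have e1 : c * ρ ≤ 0.485 * ρ := by nlinarith
  have e1' : 0.477 * ρ ≤ c * ρ := by nlinarith
  have e2 : 0.443 * R ≤ a * R := by nlinarith
  have e2' : a * R ≤ 0.444 * R := by nlinarith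
  have hpos : 0 < R - d := by linarith
  have hX1 : X ≤ 1 := by
    by_contra h
    rw [not_le] at h
    have e3 : 1 * (R - d) ≤ X * (R - d) := mul_le_mul_of_nonneg_right h.le hpos.le
    linarith
  have hX2 : -1 ≤ X := by
    by_contra h
    rw [not_le] at h
    have e3 : X * (R - d) ≤ -1 * (R - d) := mul_le_mul_of_nonneg_right h.le hpos.le
    linarith
  have hXX : X ^ 2 + a * X ≤ 1.444 := by
    have e4 : X ^ 2 ≤ 1 := by nlinarith
    have e5 : a * X ≤ 0.444 := by nlinarith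
    linarith
  have h4 : ρ * (X ^ 2 + a * X) ≤ ρ * 1.444 := mul_le_mul_of_nonneg_left hXX (by linarith)
  have h5 : b * ρ ≤ -0.357 * ρ := by nlinarith
  have h6 : 0 ≤ R - 1.087 * ρ + 0.2955 := by
    rw [hR]
    nlinarith [sq_nonneg (ρ - 0.5435)]
  linarith

private lemma quintic_real {a b c d x : ℝ} (a1 : 0.443 < a) (a2 : a < 0.444) (b1 : -0.362 < b)
    (c1 : 0.477 < c) (c2 : c < 0.485) (d1 : 0.688 < d) (hx2 : 1 < x ^ 2)
    (hqr : x ^ 4 + a * x ^ 3 + b * x ^ 2 + c * x + d = 0) : False := by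
  rcases le_total 0 x with h3 | h3
  · have e1 : 0 ≤ a * x ^ 3 := by positivity
    have e2 : 0 ≤ c * x := by
      have : 0 ≤ c := by linarith
      positivity
    have e3 : x ^ 2 ≤ x ^ 4 := by
      have : x ^ 4 = x ^ 2 * x ^ 2 := by ring
      rw [this]
      nlinarith
    have e4 : -0.362 * x ^ 2 ≤ b * x ^ 2 := by nlinarith
    nlinarith
  · obtain ⟨t, ht⟩ : ∃ t : ℝ, t = -x := ⟨_, rfl⟩
    have ht0 : 0 ≤ t := by linarith
    have ht2 : 1 < t ^ 2 := by rw [ht, neg_sq]; exact hx2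
    have ht1 : 1 < t := by nlinarith
    have hqt : t ^ 4 - a * t ^ 3 + b * t ^ 2 - c * t + d = 0 := by
      rw [ht]
      linear_combination hqr
    have t3 : t ^ 3 ≤ t ^ 4 := pow_le_pow_right₀ ht1.le (by norm_num)
    have t2 : t ^ 2 ≤ t ^ 4 := pow_le_pow_right₀ ht1.le (by norm_num)
    have t4 : 4 * t - 3 ≤ t ^ 4 := by nlinarith [sq_nonneg (t - 1), sq_nonneg (t ^ 2 - 1)]
    have p3 : 0 < t ^ 3 := by positivity
    have p2 : 0 < t ^ 2 := by positivity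
    have e1 : a * t ^ 3 ≤ 0.444 * t ^ 3 := by nlinarith
    have e2 : -0.362 * t ^ 2 ≤ b * t ^ 2 := by nlinarith
    have e3 : c * t ≤ 0.485 * t := by nlinarith
    linarith

/-- The conjugates of the quintic Pisot number. -/
lemma quintic_roots {θ : ℝ} (h1 : 1.443 < θ) (h2 : θ < 1.444)
    (hθ : θ ^ 5 - θ ^ 4 - θ ^ 3 + θ ^ 2 - 1 = 0) {z : ℂ}
    (hz : z ^ 5 - z ^ 4 - z ^ 3 + z ^ 2 - 1 = 0) (hne : z ≠ θ) : ‖z‖ ≤ 1 := by
  by_contra hc
  rw [not_le] at hc
  obtain ⟨a, ha⟩ : ∃ a : ℝ, a = θ - 1 := ⟨_, rfl⟩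
  obtain ⟨b, hb⟩ : ∃ b : ℝ, b = θ ^ 2 - θ - 1 := ⟨_, rfl⟩
  obtain ⟨c, hcc⟩ : ∃ c : ℝ, c = θ ^ 3 - θ ^ 2 - θ + 1 := ⟨_, rfl⟩
  obtain ⟨d, hd⟩ : ∃ d : ℝ, d = θ ^ 4 - θ ^ 3 - θ ^ 2 + θ := ⟨_, rfl⟩
  have a1 : 0.443 < a := by linarith
  have a2 : a < 0.444 := by linarith
  have b1 : -0.362 < b := by rw [hb]; nlinarith
  have b2 : b < -0.357 := by rw [hb]; nlinarith
  have cb : c = θ * b + 1 := by rw [hcc, hb]; ring
  have c1 : 0.477 < c := by rw [cb]; nlinarith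
  have c2 : c < 0.485 := by rw [cb]; nlinarith
  have dc : d = θ * c := by rw [hd, hcc]; ring
  have d1 : 0.688 < d := by rw [dc]; nlinarith
  have d2 : d < 0.701 := by rw [dc]; nlinarith
  have hq : z ^ 4 + a * z ^ 3 + b * z ^ 2 + c * z + d = 0 := by
    have hθc : (θ : ℂ) ^ 5 - θ ^ 4 - θ ^ 3 + θ ^ 2 - 1 = 0 := by exact_mod_cast hθ
    have h3 : (z - θ) * (z ^ 4 + a * z ^ 3 + b * z ^ 2 + c * z + d) = 0 := by
      rw [ha, hb, hcc, hd]
      push_cast
      linear_combination hz - hθc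
    exact (mul_eq_zero.1 h3).resolve_left (sub_ne_zero.2 hne)
  obtain ⟨x, hx⟩ : ∃ x : ℝ, x = z.re := ⟨_, rfl⟩
  obtain ⟨y, hy⟩ : ∃ y : ℝ, y = z.im := ⟨_, rfl⟩
  have hzxy : z = x + y * Complex.I := by
    rw [hx, hy, Complex.re_add_im]
  have hρ : 1 < x ^ 2 + y ^ 2 := by
    have h3 : ‖z‖ ^ 2 = x ^ 2 + y ^ 2 := by
      rw [← Complex.normSq_eq_norm_sq, Complex.normSq_apply, hx, hy]
      ring
    rw [← h3]
    nlinarith
  by_cases hy0 : y = 0
  · -- real roots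
    rw [hy0] at hzxy hρ
    have hzx : z = x := by rw [hzxy]; simp
    rw [hzx] at hq
    have hqr : x ^ 4 + a * x ^ 3 + b * x ^ 2 + c * x + d = 0 := by exact_mod_cast hq
    exact quintic_real a1 a2 b1 c1 c2 d1 (by linarith) hqr
  · -- pairs of conjugate roots
    obtain ⟨X, hX⟩ : ∃ X : ℝ, X = 2 * x := ⟨_, rfl⟩
    obtain ⟨ρ, hρd⟩ : ∃ ρ : ℝ, ρ = x ^ 2 + y ^ 2 := ⟨_, rfl⟩
    rw [← hρd] at hρ
    have hz2 : z ^ 2 = X * z - ρ := by
      have hI := Complex.I_sq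
      rw [hzxy, hX, hρd]
      push_cast
      linear_combination (y : ℂ) ^ 2 * hI
    have hlin : ((X ^ 3 - 2 * X * ρ + a * (X ^ 2 - ρ) + b * X + c : ℝ) : ℂ) * z +
        ((-ρ * X ^ 2 + ρ ^ 2 - a * X * ρ - b * ρ + d : ℝ) : ℂ) = 0 := by
      push_cast
      linear_combination hq - (z ^ 2 + X * z - ρ + X ^ 2 + a * (z + X) + b) * hz2
    have hB1 : X ^ 3 - 2 * X * ρ + a * (X ^ 2 - ρ) + b * X + c = 0 := by
      have him := congrArg Complex.im hlin
      rw [Complex.add_im, Complex.im_ofReal_mul, Complex.ofReal_im, add_zero, Complex.zero_im,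
        ← hy] at him
      exact (mul_eq_zero.1 him).resolve_right hy0
    have hB0 : -ρ * X ^ 2 + ρ ^ 2 - a * X * ρ - b * ρ + d = 0 := by
      rw [hB1, Complex.ofReal_zero, zero_mul, zero_add] at hlin
      exact_mod_cast hlin
    exact quintic_pair a1 a2 b2 c1 c2 d1 d2 hρ hB1 hB0

end Pool.Agent.Helper41.RS
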