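import Pool.Agent.Helper41.RS.Qui

/-!
# MP_418077_nt, Pisot numbers: the quintic one, for all heights
-/

set_option autoImplicit false

namespace Pool.Agent.Helper41.RS

open Polynomial Filter Topology

lemma exists_quintic : ∃ θ : ℝ, 1.443 < θ ∧ θ < 1.444 ∧
    θ ^ 5 - θ ^ 4 - θ ^ 3 + θ ^ 2 - 1 = 0 := by
  have hc : ContinuousOn (fun x : ℝ => x ^ 5 - x ^ 4 - x ^ 3 + x ^ 2 - 1)
      (Set.Icc 1.443 1.444) := by fun_prop
  have h := intermediate_value_Icc (by norm_num : (1.443 : ℝ) ≤ 1.444) hc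
  obtain ⟨x, hx, hx0⟩ := h (show (0 : ℝ) ∈ _ from ⟨by norm_num, by norm_num⟩)
  simp only at hx0
  refine ⟨x, lt_of_le_of_ne hx.1 ?_, lt_of_le_of_ne hx.2 ?_, hx0⟩
  · rintro rfl
    norm_num at hx0
  · rintro rfl
    norm_num at hx0

lemma log_quintic {θ : ℝ} (h : 1.443 < θ) : 11 / 30 < Real.log θ := by
  have h1 : Real.exp 11 < θ ^ 30 := by
    have e1 : Real.exp 11 = Real.exp 1 ^ 11 := by
      rw [← Real.exp_nat_mul]
      norm_num
    rw [e1]
    calc Real.exp 1 ^ 11 < (2.7182818286 : ℝ) ^ 11 :=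
          pow_lt_pow_left₀ Real.exp_one_lt_d9 (Real.exp_pos 1).le (by norm_num)
      _ < (1.443 : ℝ) ^ 30 := by norm_num
      _ ≤ θ ^ 30 := pow_le_pow_left₀ (by norm_num) h.le 30
  have h2 := Real.log_lt_log (Real.exp_pos _) h1
  rw [Real.log_exp, Real.log_pow] at h2
  push_cast at h2
  linarith

/-- The quintic Pisot number. -/
theorem quintic_main : ∃ θ : ℝ, 1.443 < θ ∧ θ < 1.444 ∧
    θ ^ 5 - θ ^ 4 - θ ^ 3 + θ ^ 2 - 1 = 0 ∧
    ∃ C : ℝ, ∀ᶠ n : ℕ in atTop, ∀ H : ℕ, 1 ≤ H → ∀ T : Set ℤ[X], SepaMon n H ⊆ T →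
      T ⊆ Sepa n H →
      (IsLeast (rootDist θ T) (minRootDist θ T) ∧ 0 < minRootDist θ T ∧
        n * Real.log θ - C ≤ -Real.log (minRootDist θ T) ∧
        -Real.log (minRootDist θ T) ≤
          n * Real.log θ + (5 * Real.log (H * (n : ℝ) ^ 2) + Real.log n + 1)) ∧
      (IsLeast (sepDist T) (minSep T) ∧ 0 < minSep T ∧
        11 / 30 * n ≤ -Real.log (minSep T)) := by
  obtain ⟨θ, h1, h2, hθ⟩ := exists_quintic
  refine ⟨θ, h1, h2, hθ, ?_⟩
  have hθ1 : 1 < θ := by linarith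
  have hθ0 : θ ≠ 0 := by linarith
  have hθc : (θ : ℂ) ≠ 0 := Complex.ofReal_ne_zero.2 hθ0
  have hθe : (θ : ℂ) ^ 5 - θ ^ 4 - θ ^ 3 + θ ^ 2 - 1 = 0 := by exact_mod_cast hθ
  have hd : qui.natDegree = 5 := by
    refine natDegree_eq_of_le_of_coeff_ne_zero ?_ ?_
    · refine natDegree_le_iff_coeff_eq_zero.2 fun i hi => ?_
      unfold qui
      rw [coeff_pol, List.getD_eq_default]
      simp
      omega
    · unfold qui
      rw [coeff_pol]
      decide
  have hq0 : qui.coeff 0 = -1 := by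
    unfold qui
    rw [coeff_pol]
    rfl
  have hqn0 : qui.coeff 0 ≠ 0 := by rw [hq0]; norm_num
  have hqne : qui ≠ 0 := by
    intro h
    rw [h, natDegree_zero] at hd
    omega
  have hinv : aeval ((θ⁻¹ : ℝ) : ℂ) qui = 0 := by
    rw [aeval_qui]
    push_cast
    field_simp
    linear_combination -hθe
  have hrd : qui.reverse.natDegree = 5 := by rw [natDegree_rev rfl hqn0, hd]
  have hrθ : aeval (θ : ℂ) qui.reverse = 0 := by
    have h3 := aeval_rev (P := qui) rfl (inv_ne_zero hθc)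
    rw [inv_inv] at h3
    push_cast at hinv
    rw [hinv] at h3
    exact (mul_eq_zero.1 h3).resolve_left (pow_ne_zero _ (inv_ne_zero hθc))
  obtain ⟨C, hC⟩ := core_main (A := qui) (S := quiS) (f := qui.reverse) (h := 1) hθ1 hinv
    (by rw [hq0]; norm_num) (by unfold quiS; rw [coeff_pol]; rfl)
    (by unfold qui; exact height_pol_le _ _ (by decide))
    (by rw [qui_mul]; exact height_pol_le _ _ (by decide))
    (by
      intro z hz1 hz
      rw [map_mul, mul_eq_zero] at hz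
      rcases hz with hz | hz
      · rw [derivative_mul, map_add, map_mul, map_mul, hz, zero_mul, add_zero]
        refine mul_ne_zero (deriv_qui_ne hz) fun h => ?_
        have := norm_of_quiS h
        linarith
      · have := norm_of_quiS hz
        linarith)
    (fun z hz => deriv_qui_ne hz)
    (by
      rw [leadingCoeff, natDegree_rev rfl hqn0, coeff_rev rfl le_rfl, Nat.sub_self, hq0]
      simp)
    (by rwa [Ne, reverse_eq_zero]) hrθ
    (by
      intro z hz hne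
      obtain ⟨z0, z1⟩ := rev_root (by rw [hd]; norm_num) hz
      refine quintic_roots h1 h2 hθ ?_ hne
      rw [aeval_qui] at z1
      have h3 : z ^ 5 * (z⁻¹ ^ 5 - z⁻¹ ^ 3 + z⁻¹ ^ 2 + z⁻¹ - 1) = 0 := by rw [z1, mul_zero]
      have h4 : z ^ 5 * (z⁻¹ ^ 5 - z⁻¹ ^ 3 + z⁻¹ ^ 2 + z⁻¹ - 1) =
          1 - z ^ 2 + z ^ 3 + z ^ 4 - z ^ 5 := by
        field_simp
      rw [h4] at h3
      linear_combination -h3)
    (fun z hz => rev_simple (by rw [hd]; norm_num) (fun w hw => deriv_qui_ne hw) hz)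
  refine ⟨C, ?_⟩
  have hlog := log_quintic h1
  have h3 : ∀ᶠ n : ℕ in atTop, C ≤ n * (Real.log θ - 11 / 30) := by
    have ht : Tendsto (fun n : ℕ => (n : ℝ) * (Real.log θ - 11 / 30)) atTop atTop :=
      tendsto_natCast_atTop_atTop.atTop_mul_const (by linarith)
    exact ht.eventually_ge_atTop _
  filter_upwards [hC, h3, eventually_ge_atTop 1] with n hn hn2 hn1 H hH T hT1 hT2
  obtain ⟨r1, r2, r3, r4⟩ := hn H hH hH T hT1 hT2
  rw [hrd] at r4
  push_cast at r4
  obtain ⟨s1, s2⟩ := isLeast_minSep hn1 hT2 ⟨_, rootDist_sub_sepDist _ _ r1.1⟩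
  refine ⟨⟨r1, r2, r3, r4⟩, s1, s2, ?_⟩
  have h4 : minSep T ≤ minRootDist θ T := s1.2 (rootDist_sub_sepDist _ _ r1.1)
  have h5 := Real.log_le_log s2 h4
  linarith

end Pool.Agent.Helper41.RS
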